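import Pool.Agent.Q172.PS.N6

/-!
# Two families of test functions which are asymptotically uncorrelated (helper278)
-/

set_option autoImplicit false

namespace Pool.Agent.Q278.QR

open Finset MeasureTheory Filter Topology Complex ProbabilityTheory
open Pool.Agent.Q278.GF
open Pool.Agent.Q278.MC (CC fc vr lc lc_CC lc_fc cm cm_quad cm_pos gP gP_coe cv vr_lc cv_symm)
open _root_.Q172.ZetaLim (IsLim seen)
open scoped ContDiff RealInnerProductSpace BoundedContinuousFunction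

variable {k : ℕ}

/-- the first `k` coordinates -/
noncomputable def p1 (x : EuclideanSpace ℝ (Fin (k + k))) : EuclideanSpace ℝ (Fin k) :=
  WithLp.toLp 2 fun j => x.ofLp (Fin.castAdd k j)

/-- the last `k` coordinates -/
noncomputable def p2 (x : EuclideanSpace ℝ (Fin (k + k))) : EuclideanSpace ℝ (Fin k) :=
  WithLp.toLp 2 fun j => x.ofLp (Fin.natAdd k j)

/-- two vectors put together -/
noncomputable def jn (z : EuclideanSpace ℝ (Fin k) × EuclideanSpace ℝ (Fin k)) :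
    EuclideanSpace ℝ (Fin (k + k)) :=
  WithLp.toLp 2 (Fin.append z.1.ofLp z.2.ofLp)

lemma p1_cont : Continuous (p1 (k := k)) := by
  unfold p1
  refine (PiLp.continuous_toLp 2 _).comp ?_
  fun_prop

lemma p2_cont : Continuous (p2 (k := k)) := by
  unfold p2
  refine (PiLp.continuous_toLp 2 _).comp ?_
  fun_prop

lemma p1_jn (z : EuclideanSpace ℝ (Fin k) × EuclideanSpace ℝ (Fin k)) : p1 (jn z) = z.1 := by
  unfold p1 jn
  ext j
  simp

lemma p2_jn (z : EuclideanSpace ℝ (Fin k) × EuclideanSpace ℝ (Fin k)) : p2 (jn z) = z.2 := by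
  unfold p2 jn
  ext j
  show Fin.append z.1.ofLp z.2.ofLp (Fin.natAdd k j) = z.2.ofLp j
  rw [Fin.append_right]

lemma jn_cont : Continuous (jn (k := k)) := by
  unfold jn
  refine (PiLp.continuous_toLp 2 _).comp (continuous_pi fun i => ?_)
  refine Fin.addCases (fun j => ?_) (fun j => ?_) i
  · simp only [Fin.append_left]
    fun_prop
  · simp only [Fin.append_right]
    fun_prop

lemma jn_inner (z : EuclideanSpace ℝ (Fin k) × EuclideanSpace ℝ (Fin k))
    (u : EuclideanSpace ℝ (Fin (k + k))) : ⟪jn z, u⟫ = ⟪z.1, p1 u⟫ + ⟪z.2, p2 u⟫ := by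
  rw [PiLp.inner_apply, PiLp.inner_apply, PiLp.inner_apply, Fin.sum_univ_add]
  congr 1
  · refine Finset.sum_congr rfl fun j _ => ?_
    simp [jn, p1]
  · refine Finset.sum_congr rfl fun j _ => ?_
    simp only [jn, p2, Fin.append_right]

lemma p1_vec (f h : Fin k → ℝ → ℝ) (L : ℝ) (q : ℤ → ℝ) : p1 (vec (Fin.append f h) L q) = vec f L q := by
  unfold p1 vec
  ext j
  simp

lemma p2_vec (f h : Fin k → ℝ → ℝ) (L : ℝ) (q : ℤ → ℝ) : p2 (vec (Fin.append f h) L q) = vec h L q := by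
  unfold p2 vec
  ext j
  show Fn (Fin.append f h (Fin.natAdd k j)) L q = Fn (h j) L q
  rw [Fin.append_right]

lemma fam_append {f h : Fin k → ℝ → ℝ} (hf : Fam f) (hh : Fam h) : Fam (Fin.append f h) := by
  intro i
  refine Fin.addCases (fun j => ?_) (fun j => ?_) i
  · rw [Fin.append_left]
    exact hf j
  · rw [Fin.append_right]
    exact hh j

/-- the law of two independent Gaussian vectors -/
noncomputable def nu (f : Fin k → ℝ → ℝ) : ProbabilityMeasure (EuclideanSpace ℝ (Fin (k + k))) :=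
  ⟨(((gP f : ProbabilityMeasure (EuclideanSpace ℝ (Fin k))) : Measure (EuclideanSpace ℝ (Fin k))).prod
    ((gP f : ProbabilityMeasure (EuclideanSpace ℝ (Fin k))) : Measure (EuclideanSpace ℝ (Fin k)))).map jn,
    Measure.isProbabilityMeasure_map jn_cont.measurable.aemeasurable⟩

lemma nu_coe (f : Fin k → ℝ → ℝ) : ((nu f : ProbabilityMeasure (EuclideanSpace ℝ (Fin (k + k)))) :
    Measure (EuclideanSpace ℝ (Fin (k + k)))) =
    ((multivariateGaussian 0 (cm f)).prod (multivariateGaussian 0 (cm f))).map jn := rfl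

lemma gP_char {f : Fin k → ℝ → ℝ} (hf : Fam f) (u : EuclideanSpace ℝ (Fin k)) :
    charFun (multivariateGaussian 0 (cm f)) u =
      cexp ((-(∑ i, ∑ j, u.ofLp i * u.ofLp j * cv (f i) (f j)) / 2 : ℝ) : ℂ) := by
  have hCC : ∀ j, CC (fc (f j)) := fun j => cc_of (hf j).1 (hf j).2
  rw [← vr_lc hCC, charFun_multivariateGaussian (cm_pos hCC), inner_zero_right, ← cm_quad hCC]
  congr 1
  push_cast
  ring

lemma nu_char {f : Fin k → ℝ → ℝ} (hf : Fam f) (u : EuclideanSpace ℝ (Fin (k + k))) :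
    charFun ((nu f : ProbabilityMeasure (EuclideanSpace ℝ (Fin (k + k)))) :
      Measure (EuclideanSpace ℝ (Fin (k + k)))) u =
    charFun (multivariateGaussian 0 (cm f)) (p1 u) * charFun (multivariateGaussian 0 (cm f)) (p2 u) := by
  rw [nu_coe, charFun_apply, integral_map jn_cont.measurable.aemeasurable (by
    refine Continuous.aestronglyMeasurable ?_
    fun_prop), charFun_apply, charFun_apply, ← integral_prod_mul]
  refine integral_congr_ae (Eventually.of_forall fun z => ?_)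
  show cexp (((⟪jn z, u⟫ : ℝ) : ℂ) * I) = cexp (((⟪z.1, p1 u⟫ : ℝ) : ℂ) * I) * cexp (((⟪z.2, p2 u⟫ : ℝ) : ℂ) * I)
  rw [jn_inner, ← Complex.exp_add]
  congr 1
  push_cast
  ring

/-- **asymptotic independence for the Gaussian laws** -/
theorem pair_gauss {f : Fin k → ℝ → ℝ} (hf : Fam f) {h : ℕ → Fin k → ℝ → ℝ} (hh : ∀ e, Fam (h e))
    (h1 : ∀ e i j, cv (h e i) (h e j) = cv (f i) (f j))
    (h2 : ∀ i j, Tendsto (fun e => cv (f i) (h e j)) atTop (𝓝 0)) :
    Tendsto (fun e => gP (Fin.append f (h e))) atTop (𝓝 (nu f)) := by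
  refine ProbabilityMeasure.tendsto_iff_tendsto_charFun.2 fun u => ?_
  rw [nu_char hf, gP_char hf, gP_char hf, ← Complex.exp_add]
  have e1 : ∀ e, charFun ((gP (Fin.append f (h e)) : ProbabilityMeasure (EuclideanSpace ℝ (Fin (k + k)))) :
      Measure (EuclideanSpace ℝ (Fin (k + k)))) u = cexp ((-(
        (∑ i, ∑ j, (p1 u).ofLp i * (p1 u).ofLp j * cv (f i) (f j)) +
        (∑ i, ∑ j, (p2 u).ofLp i * (p2 u).ofLp j * cv (f i) (f j)) +
        2 * (∑ i, ∑ j, (p1 u).ofLp i * (p2 u).ofLp j * cv (f i) (h e j))) / 2 : ℝ) : ℂ) := by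
    intro e
    rw [gP_coe, gP_char (fam_append hf (hh e))]
    congr 1
    norm_cast
    congr 2
    rw [Fin.sum_univ_add]
    simp only [Fin.sum_univ_add, Fin.append_left, Fin.append_right, Finset.sum_add_distrib, h1]
    have e2 : ∑ i : Fin k, ∑ j : Fin k, u.ofLp (Fin.natAdd k i) * u.ofLp (Fin.castAdd k j) *
        cv (h e i) (f j) = ∑ i : Fin k, ∑ j : Fin k, u.ofLp (Fin.castAdd k i) * u.ofLp (Fin.natAdd k j) *
        cv (f i) (h e j) := by
      rw [Finset.sum_comm]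
      refine Finset.sum_congr rfl fun i _ => Finset.sum_congr rfl fun j _ => ?_
      rw [cv_symm]
      ring
    rw [e2]
    simp only [p1, p2]
    ring
  simp only [e1]
  refine (Complex.continuous_exp.tendsto _).comp ?_
  have e3 : ((-(∑ i, ∑ j, (p1 u).ofLp i * (p1 u).ofLp j * cv (f i) (f j)) / 2 : ℝ) : ℂ) +
      ((-(∑ i, ∑ j, (p2 u).ofLp i * (p2 u).ofLp j * cv (f i) (f j)) / 2 : ℝ) : ℂ) =
      ((-((∑ i, ∑ j, (p1 u).ofLp i * (p1 u).ofLp j * cv (f i) (f j)) +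
        (∑ i, ∑ j, (p2 u).ofLp i * (p2 u).ofLp j * cv (f i) (f j)) +
        2 * (∑ i : Fin k, ∑ j : Fin k, (p1 u).ofLp i * (p2 u).ofLp j * 0)) / 2 : ℝ) : ℂ) := by
    simp only [mul_zero, Finset.sum_const_zero]
    push_cast
    ring
  rw [e3]
  refine (Complex.continuous_ofReal.tendsto _).comp ?_
  refine Tendsto.div_const (Tendsto.neg (Tendsto.add tendsto_const_nhds (Tendsto.const_mul 2 ?_))) 2
  exact tendsto_finsetSum _ fun i _ => tendsto_finsetSum _ fun j _ => (h2 i j).const_mul _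

/-- the product of the values at the two halves -/
noncomputable def pr (Φ : EuclideanSpace ℝ (Fin k) →ᵇ ℝ) : EuclideanSpace ℝ (Fin (k + k)) →ᵇ ℝ :=
  BoundedContinuousFunction.ofNormedAddCommGroup (fun x => Φ (p1 x) * Φ (p2 x))
    ((Φ.continuous.comp p1_cont).mul (Φ.continuous.comp p2_cont)) (‖Φ‖ * ‖Φ‖) fun x => by
      rw [norm_mul]
      exact mul_le_mul (Φ.norm_coe_le_norm _) (Φ.norm_coe_le_norm _) (norm_nonneg _) (norm_nonneg _)

lemma pr_apply (Φ : EuclideanSpace ℝ (Fin k) →ᵇ ℝ) (x : EuclideanSpace ℝ (Fin (k + k))) :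
    pr Φ x = Φ (p1 x) * Φ (p2 x) := rfl

lemma nu_int (f : Fin k → ℝ → ℝ) (Φ : EuclideanSpace ℝ (Fin k) →ᵇ ℝ) :
    ∫ x, pr Φ x ∂((nu f : ProbabilityMeasure (EuclideanSpace ℝ (Fin (k + k)))) :
      Measure (EuclideanSpace ℝ (Fin (k + k)))) =
    (∫ x, Φ x ∂(multivariateGaussian 0 (cm f))) * ∫ x, Φ x ∂(multivariateGaussian 0 (cm f)) := by
  rw [nu_coe, integral_map jn_cont.measurable.aemeasurable (pr Φ).continuous.aestronglyMeasurable,
    ← integral_prod_mul]
  refine integral_congr_ae (Eventually.of_forall fun z => ?_)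
  show pr Φ (jn z) = Φ z.1 * Φ z.2
  rw [pr_apply, p1_jn, p2_jn]

/-- **two families which decorrelate** -/
theorem pair_P {f : Fin k → ℝ → ℝ} (hf : Fam f) {h : ℕ → Fin k → ℝ → ℝ} (hh : ∀ e, Fam (h e))
    (h1 : ∀ e i j, cv (h e i) (h e j) = cv (f i) (f j))
    (h2 : ∀ i j, Tendsto (fun e => cv (f i) (h e j)) atTop (𝓝 0))
    (Φ : EuclideanSpace ℝ (Fin k) →ᵇ ℝ) (h0 : ∫ x, Φ x ∂(multivariateGaussian 0 (cm f)) = 0)
    {η : ℝ} (hη : 0 < η) : ∃ e0 : ℕ, ∀ e, e0 ≤ e → ∃ L0 : ℝ, 1 ≤ L0 ∧ ∀ L : ℝ, L0 ≤ L →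
      ∀ P : ProbabilityMeasure (ℤ → ℝ), IsLim (seen dl) P →
        |∫ q, Φ (vec f L q) * Φ (vec (h e) L q) ∂(P : Measure (ℤ → ℝ))| ≤ η := by
  have h3 := (ProbabilityMeasure.tendsto_iff_forall_integral_tendsto.1 (pair_gauss hf hh h1 h2)) (pr Φ)
  rw [nu_int, h0, zero_mul] at h3
  obtain ⟨e0, he0⟩ := Filter.eventually_atTop.1 (Metric.tendsto_nhds.1 h3 (η / 2) (by positivity))
  refine ⟨e0, fun e he => ?_⟩
  obtain ⟨L0, hL0, h4⟩ := lim_weak (fam_append hf (hh e)) (pr Φ) (η / 2) (by positivity)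
  refine ⟨L0, hL0, fun L hL P hP => ?_⟩
  have h5 := h4 L hL P hP
  have h6 := he0 e he
  rw [Real.dist_eq, sub_zero, gP_coe] at h6
  simp only [pr_apply, p1_vec, p2_vec] at h5
  have h7 := abs_sub_abs_le_abs_sub (∫ q, Φ (vec f L q) * Φ (vec (h e) L q) ∂(P : Measure (ℤ → ℝ)))
    (∫ x, Φ (p1 x) * Φ (p2 x) ∂(multivariateGaussian 0 (cm (Fin.append f (h e)))))
  simp only [pr_apply] at h6
  linarith

end Pool.Agent.Q278.QR
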