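import Pool.Agent.Q278.QR.A

/-!
# Translates and dilates of test functions decorrelate (helper278)
-/

set_option autoImplicit false

namespace Pool.Agent.Q278.QR

open Finset MeasureTheory Filter Topology Complex ProbabilityTheory
open Pool.Agent.Q278.GF
open Pool.Agent.Q278.MC (CC fc vr lc cv cv_symm cv_int four_bound four_contR)
open Pool.Agent.Q172.PS (tra tra_supp fc_tra tra_smooth)
open _root_.Q172.ZetaLim (IsLim seen shift)
open scoped ContDiff RealInnerProductSpace ComplexConjugate FourierTransform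

variable {k : ℕ}

lemma shift_iter (m : ℕ) (q : ℤ → ℝ) (i : ℤ) : (shift^[m] q) i = q (i + m) := by
  induction m generalizing q with
  | zero => simp
  | succ m ih =>
    rw [Function.iterate_succ_apply, ih]
    show q (i + m + 1) = q (i + (m + 1 : ℕ))
    congr 1
    push_cast
    ring

lemma Fn_shift (f : ℝ → ℝ) {L : ℝ} (m : ℕ) (q : ℤ → ℝ) :
    Fn f L (shift^[m] q) = Fn (tra f (m / L)) L q := by
  unfold Fn tra
  rw [← finsum_comp_equiv (Equiv.addRight (-(m : ℤ)))]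
  refine finsum_congr fun j => ?_
  rw [Equiv.coe_addRight, shift_iter]
  have e1 : (((j + -(m : ℤ) : ℤ) : ℝ) / L) = j / L - m / L := by
    push_cast
    ring
  rw [e1]
  congr 3
  ring

lemma vec_shift (f : Fin k → ℝ → ℝ) {L : ℝ} (m : ℕ) (q : ℤ → ℝ) :
    vec f L (shift^[m] q) = vec (fun j => tra (f j) (m / L)) L q := by
  unfold vec
  simp only [Fn_shift]

/-- dilation -/
noncomputable def dil (g : ℝ → ℝ) (s : ℝ) : ℝ → ℝ := fun t => g (t / s)

lemma Fn_dil (f : ℝ → ℝ) {s L : ℝ} (q : ℤ → ℝ) : Fn f (s * L) q = Fn (dil f s) L q := by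
  unfold Fn dil
  refine finsum_congr fun j => ?_
  rw [mul_comm s L, div_mul_eq_div_div]

lemma vec_dil (f : Fin k → ℝ → ℝ) {s L : ℝ} (q : ℤ → ℝ) :
    vec f (s * L) q = vec (fun j => dil (f j) s) L q := by
  unfold vec
  simp only [Fn_dil]

lemma dil_smooth {g : ℝ → ℝ} (h1 : ContDiff ℝ ∞ g) (h2 : HasCompactSupport g) {s : ℝ} (hs : 0 < s) :
    ContDiff ℝ ∞ (dil g s) ∧ HasCompactSupport (dil g s) := by
  constructor
  · unfold dil
    exact h1.comp (contDiff_id.div_const s)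
  · have : dil g s = g ∘ (Homeomorph.mulRight₀ s⁻¹ (inv_ne_zero hs.ne')) := by
      funext t
      show g (t / s) = g (t * s⁻¹)
      rw [div_eq_mul_inv]
    rw [this]
    exact h2.comp_homeomorph _

lemma fam_tra {f : Fin k → ℝ → ℝ} (hf : Fam f) (s : ℝ) : Fam fun j => tra (f j) s :=
  fun j => tra_smooth (hf j).1 (hf j).2 s

lemma fam_dil {f : Fin k → ℝ → ℝ} (hf : Fam f) {s : ℝ} (hs : 0 < s) : Fam fun j => dil (f j) s :=
  fun j => dil_smooth (hf j).1 (hf j).2 hs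

lemma conj_ph (x : ℝ) : conj (cexp ((x : ℝ) * I)) = cexp ((-x : ℝ) * I) := by
  rw [← Complex.exp_conj, map_mul, Complex.conj_ofReal, Complex.conj_I]
  push_cast
  ring_nf

lemma cv_tra_tra (f g : ℝ → ℝ) (s : ℝ) : cv (tra f s) (tra g s) = cv f g := by
  unfold cv
  refine integral_congr_ae (Eventually.of_forall fun ξ => ?_)
  show |ξ| * (𝓕 (fc (tra f s)) ξ * conj (𝓕 (fc (tra g s)) ξ)).re = _
  rw [fc_tra, fc_tra, map_mul, conj_ph]
  have e : cexp ((-(2 * Real.pi * s * ξ) : ℝ) * I) * 𝓕 (fc f) ξ *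
      (cexp ((-(-(2 * Real.pi * s * ξ)) : ℝ) * I) * conj (𝓕 (fc g) ξ)) =
      (cexp ((-(2 * Real.pi * s * ξ) : ℝ) * I) * cexp ((-(-(2 * Real.pi * s * ξ)) : ℝ) * I)) *
        (𝓕 (fc f) ξ * conj (𝓕 (fc g) ξ)) := by ring
  rw [e, ← Complex.exp_add]
  have e2 : ((-(2 * Real.pi * s * ξ) : ℝ) : ℂ) * I + ((-(-(2 * Real.pi * s * ξ)) : ℝ) : ℂ) * I = 0 := by
    push_cast
    ring
  rw [e2, Complex.exp_zero, one_mul]

/-- the integrand of the covariance -/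
noncomputable def ph (f g : ℝ → ℝ) (ξ : ℝ) : ℂ := (|ξ| : ℝ) * (𝓕 (fc f) ξ * conj (𝓕 (fc g) ξ))

lemma ph_int {f g : ℝ → ℝ} (hf : CC (fc f)) (hg : CC (fc g)) : Integrable (ph f g) := by
  obtain ⟨K, hK, hb⟩ := four_bound hf
  obtain ⟨M, hM, hc⟩ := four_bound hg
  have h1 := four_contR hf
  have h2 := four_contR hg
  have h3 : Continuous (ph f g) :=
    (Complex.continuous_ofReal.comp continuous_abs).mul (h1.mul (Complex.continuous_conj.comp h2))
  refine (integrable_inv_one_add_sq.const_mul (K * M)).mono' h3.aestronglyMeasurable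
      (Eventually.of_forall fun ξ => ?_)
  have hone : (1 + ξ ^ 2)⁻¹ ≤ 1 := inv_le_one_of_one_le₀ (by nlinarith [sq_nonneg ξ])
  have hpos : 0 ≤ (1 + ξ ^ 2)⁻¹ := by positivity
  have hxi : |ξ| * (1 + ξ ^ 2)⁻¹ ≤ 1 := by
    rw [← div_eq_mul_inv, div_le_one (by positivity)]
    have := sq_abs ξ
    nlinarith [sq_nonneg (|ξ| - 1), abs_nonneg ξ]
  unfold ph
  rw [norm_mul, Complex.norm_real, Real.norm_of_nonneg (abs_nonneg ξ)]
  have h4 : ‖𝓕 (fc f) ξ * conj (𝓕 (fc g) ξ)‖ ≤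
      (K * (1 + ξ ^ 2)⁻¹ ^ 3) * (M * (1 + ξ ^ 2)⁻¹ ^ 3) := by
    rw [norm_mul, RCLike.norm_conj]
    exact mul_le_mul (hb ξ) (hc ξ) (norm_nonneg _) ((norm_nonneg _).trans (hb ξ))
  calc |ξ| * ‖𝓕 (fc f) ξ * conj (𝓕 (fc g) ξ)‖ ≤
      |ξ| * ((K * (1 + ξ ^ 2)⁻¹ ^ 3) * (M * (1 + ξ ^ 2)⁻¹ ^ 3)) :=
        mul_le_mul_of_nonneg_left h4 (abs_nonneg _)
    _ = (K * M) * (|ξ| * (1 + ξ ^ 2)⁻¹) * (1 + ξ ^ 2)⁻¹ * (1 + ξ ^ 2)⁻¹ ^ 4 := by ring
    _ ≤ (K * M) * 1 * (1 + ξ ^ 2)⁻¹ * 1 := by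
        gcongr
        exact pow_le_one₀ hpos hone
    _ = _ := by ring

/-- **translates decorrelate** -/
theorem cv_tra_zero {f g : ℝ → ℝ} (hf : CC (fc f)) (hg : CC (fc g)) :
    Tendsto (fun e : ℕ => cv f (tra g e)) atTop (𝓝 0) := by
  have h1 := Real.tendsto_integral_exp_smul_cocompact (ph f g)
  have h2 : Tendsto (fun e : ℕ => -(e : ℝ)) atTop (cocompact ℝ) :=
    (tendsto_neg_atTop_atBot.comp tendsto_natCast_atTop_atTop).mono_right atBot_le_cocompact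
  have h3 := (Complex.continuous_re.tendsto _).comp (h1.comp h2)
  rw [Complex.zero_re] at h3
  refine h3.congr fun e => ?_
  simp only [Function.comp_apply]
  have hi : Integrable fun v : ℝ => Real.fourierChar (-(v * -(e : ℝ))) • ph f g v := by
    refine (ph_int hf hg).norm.mono' ?_ (Eventually.of_forall fun v => ?_)
    · refine AEStronglyMeasurable.smul ?_ (ph_int hf hg).aestronglyMeasurable
      have hc : Continuous fun v : ℝ => -(v * -(e : ℝ)) := by fun_prop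
      exact (continuous_subtype_val.comp (Real.continuous_fourierChar.comp hc)).aestronglyMeasurable
    · rw [Circle.norm_smul]
  have h4 := integral_re hi
  simp only [RCLike.re_to_complex] at h4
  rw [← h4]
  unfold cv
  refine integral_congr_ae (Eventually.of_forall fun ξ => ?_)
  show (Real.fourierChar (-(ξ * -(e : ℝ))) • ph f g ξ).re = |ξ| * (𝓕 (fc f) ξ * conj (𝓕 (fc (tra g e)) ξ)).re
  rw [fc_tra, map_mul, conj_ph, Circle.smul_def, Real.fourierChar_apply, smul_eq_mul]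
  unfold ph
  rw [← Complex.re_ofReal_mul]
  congr 1
  have e1 : ((2 * Real.pi * -(ξ * -(e : ℝ)) : ℝ) : ℂ) * I = ((-(-(2 * Real.pi * (e : ℝ) * ξ)) : ℝ) : ℂ) * I := by
    push_cast
    ring
  rw [e1]
  ring

lemma fc_dil (g : ℝ → ℝ) {s : ℝ} (hs : 0 < s) (ξ : ℝ) :
    𝓕 (fc (dil g s)) ξ = (s : ℂ) * 𝓕 (fc g) (s * ξ) := by
  rw [Real.fourier_real_eq_integral_exp_smul, Real.fourier_real_eq_integral_exp_smul]
  have h := Measure.integral_comp_div (fun y : ℝ => cexp (((-2 * Real.pi * y * (s * ξ) : ℝ) : ℂ) * I) • fc g y) s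
  rw [abs_of_pos hs, Complex.real_smul] at h
  rw [← h]
  refine integral_congr_ae (Eventually.of_forall fun x => ?_)
  show cexp (((-2 * Real.pi * x * ξ : ℝ) : ℂ) * I) • fc (dil g s) x =
    cexp (((-2 * Real.pi * (x / s) * (s * ξ) : ℝ) : ℂ) * I) • fc g (x / s)
  have e1 : -2 * Real.pi * (x / s) * (s * ξ) = -2 * Real.pi * x * ξ := by
    field_simp
  rw [e1]
  rfl

lemma cv_dil_dil (f g : ℝ → ℝ) {s : ℝ} (hs : 0 < s) : cv (dil f s) (dil g s) = cv f g := by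
  unfold cv
  have h := Measure.integral_comp_mul_left
    (fun y : ℝ => |y| * (𝓕 (fc f) y * conj (𝓕 (fc g) y)).re) s
  have hs' : |s⁻¹| = s⁻¹ := abs_of_pos (by positivity)
  rw [hs', smul_eq_mul] at h
  have h' : ∫ y : ℝ, |y| * (𝓕 (fc f) y * conj (𝓕 (fc g) y)).re =
      s * ∫ x : ℝ, |s * x| * (𝓕 (fc f) (s * x) * conj (𝓕 (fc g) (s * x))).re := by
    rw [h, ← mul_assoc, mul_inv_cancel₀ hs.ne', one_mul]
  rw [h', ← integral_const_mul]
  refine integral_congr_ae (Eventually.of_forall fun ξ => ?_)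
  show |ξ| * (𝓕 (fc (dil f s)) ξ * conj (𝓕 (fc (dil g s)) ξ)).re =
    s * (|s * ξ| * (𝓕 (fc f) (s * ξ) * conj (𝓕 (fc g) (s * ξ))).re)
  rw [fc_dil f hs, fc_dil g hs, map_mul, Complex.conj_ofReal, abs_mul, abs_of_pos hs]
  have e : (s : ℂ) * 𝓕 (fc f) (s * ξ) * ((s : ℂ) * conj (𝓕 (fc g) (s * ξ))) =
      ((s * s : ℝ) : ℂ) * (𝓕 (fc f) (s * ξ) * conj (𝓕 (fc g) (s * ξ))) := by
    push_cast
    ring
  rw [e, Complex.re_ofReal_mul]
  ring

/-- dilates: the covariance is of the order `1/s` -/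
lemma cv_dil_le {f g : ℝ → ℝ} (hf : CC (fc f)) (hg : CC (fc g)) : ∃ C : ℝ, 0 < C ∧ ∀ s : ℝ, 0 < s →
    |cv f (dil g s)| ≤ C / s := by
  obtain ⟨K, hK, hb⟩ := four_bound hf
  obtain ⟨M, hM, hc⟩ := four_bound hg
  refine ⟨K * M * Real.pi, by positivity, fun s hs => ?_⟩
  have h1 := Measure.integral_comp_mul_left (fun y : ℝ => (1 + y ^ 2)⁻¹) s
  rw [integral_univ_inv_one_add_sq, abs_of_pos (by positivity : 0 < s⁻¹), smul_eq_mul] at h1
  have hi : Integrable fun x : ℝ => (1 + (s * x) ^ 2)⁻¹ :=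
    integrable_inv_one_add_sq.comp_mul_left' hs.ne'
  have h2 : ‖cv f (dil g s)‖ ≤ ∫ x : ℝ, K * M * (1 + (s * x) ^ 2)⁻¹ := by
    unfold cv
    refine norm_integral_le_of_norm_le (hi.const_mul _) (Eventually.of_forall fun ξ => ?_)
    rw [fc_dil g hs, norm_mul, Real.norm_of_nonneg (abs_nonneg ξ), Real.norm_eq_abs]
    have hone : (1 + ξ ^ 2)⁻¹ ≤ 1 := inv_le_one_of_one_le₀ (by nlinarith [sq_nonneg ξ])
    have hpos : 0 ≤ (1 + ξ ^ 2)⁻¹ := by positivity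
    have hone' : (1 + (s * ξ) ^ 2)⁻¹ ≤ 1 := inv_le_one_of_one_le₀ (by nlinarith [sq_nonneg (s * ξ)])
    have hpos' : 0 ≤ (1 + (s * ξ) ^ 2)⁻¹ := by positivity
    have h4 : |(𝓕 (fc f) ξ * conj ((s : ℂ) * 𝓕 (fc g) (s * ξ))).re| ≤
        K * (s * (M * (1 + (s * ξ) ^ 2)⁻¹ ^ 3)) := by
      refine (Complex.abs_re_le_norm _).trans ?_
      rw [norm_mul, RCLike.norm_conj, norm_mul, Complex.norm_real, Real.norm_of_nonneg hs.le]
      refine mul_le_mul ((hb ξ).trans ?_) (mul_le_mul_of_nonneg_left (hc _) hs.le) (by positivity) hK.le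
      exact mul_le_of_le_one_right hK.le (pow_le_one₀ hpos hone)
    have hxi : |s * ξ| * (1 + (s * ξ) ^ 2)⁻¹ ≤ 1 := by
      rw [← div_eq_mul_inv, div_le_one (by positivity)]
      have := sq_abs (s * ξ)
      nlinarith [sq_nonneg (|s * ξ| - 1), abs_nonneg (s * ξ)]
    calc |ξ| * |(𝓕 (fc f) ξ * conj ((s : ℂ) * 𝓕 (fc g) (s * ξ))).re| ≤
        |ξ| * (K * (s * (M * (1 + (s * ξ) ^ 2)⁻¹ ^ 3))) := mul_le_mul_of_nonneg_left h4 (abs_nonneg _)
      _ = K * M * (|s * ξ| * (1 + (s * ξ) ^ 2)⁻¹) * (1 + (s * ξ) ^ 2)⁻¹ * (1 + (s * ξ) ^ 2)⁻¹ := by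
          rw [abs_mul, abs_of_pos hs]
          ring
      _ ≤ K * M * 1 * (1 + (s * ξ) ^ 2)⁻¹ * 1 := by gcongr
      _ = _ := by ring
  rw [integral_const_mul, h1, Real.norm_eq_abs] at h2
  refine h2.trans (le_of_eq ?_)
  field_simp

theorem cv_dil_zero {f g : ℝ → ℝ} (hf : CC (fc f)) (hg : CC (fc g)) {s : ℝ} (hs : 1 < s) :
    Tendsto (fun e : ℕ => cv f (dil g (s ^ e))) atTop (𝓝 0) := by
  obtain ⟨C, hC, h⟩ := cv_dil_le hf hg
  have h1 : Tendsto (fun e : ℕ => C / s ^ e) atTop (𝓝 0) :=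
    tendsto_const_nhds.div_atTop (tendsto_pow_atTop_atTop_of_one_lt hs)
  exact squeeze_zero_norm (fun e => by
    rw [Real.norm_eq_abs]
    exact h _ (by positivity)) h1

end Pool.Agent.Q278.QR
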