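import Pool.Agent.Q278.QR.B

/-!
# Averages of nearly uncorrelated variables (helper278)
-/

set_option autoImplicit false

namespace Pool.Agent.Q278.QR

open Finset MeasureTheory Filter Topology ProbabilityTheory

/-- moving a window -/
lemma win_shift {u : ℕ → ℝ} {B : ℝ} (hB : ∀ x, |u x| ≤ B) (R t : ℕ) :
    |∑ x ∈ range R, u x - ∑ x ∈ range R, u (x + t)| ≤ 2 * t * B := by
  induction t with
  | zero => simp
  | succ t ih =>
    have h1 : ∑ x ∈ range R, u (x + (t + 1)) = ∑ x ∈ range R, u (x + t) + u (R + t) - u t := by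
      have h2 := Finset.sum_range_succ (fun x => u (x + t)) R
      have h3 := Finset.sum_range_succ' (fun x => u (x + t)) R
      rw [h2] at h3
      simp only [zero_add] at h3
      have h4 : ∑ x ∈ range R, u (x + 1 + t) = ∑ x ∈ range R, u (x + (t + 1)) :=
        Finset.sum_congr rfl fun x _ => by rw [add_assoc, add_comm 1 t]
      rw [h4] at h3
      linarith
    have h5 := hB (R + t)
    have h6 := hB t
    have e : ∑ x ∈ range R, u x - ∑ x ∈ range R, u (x + (t + 1)) =
        (∑ x ∈ range R, u x - ∑ x ∈ range R, u (x + t)) + (u t - u (R + t)) := by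
      rw [h1]; ring
    rw [e]
    have h7 := abs_add_le (∑ x ∈ range R, u x - ∑ x ∈ range R, u (x + t)) (u t - u (R + t))
    have h8 := abs_sub (u t) (u (R + t))
    push_cast
    nlinarith

lemma sq_avg {ι : Type*} (s : Finset ι) (a : ι → ℝ) :
    ((∑ i ∈ s, a i) / s.card) ^ 2 ≤ (∑ i ∈ s, a i ^ 2) / s.card := by
  rcases s.eq_empty_or_nonempty with h | h
  · subst h; simp
  · have hc : (0 : ℝ) < s.card := by exact_mod_cast h.card_pos
    have h1 := sq_sum_le_card_mul_sum_sq (s := s) (f := a)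
    rw [div_pow, div_le_div_iff₀ (by positivity) hc]
    nlinarith

lemma sq_avg_range (m : ℕ) (a : ℕ → ℝ) :
    ((∑ i ∈ range m, a i) / m) ^ 2 ≤ (∑ i ∈ range m, a i ^ 2) / m := by
  have := sq_avg (range m) a
  rwa [card_range] at this

/-- the average over a window and the averages over sparse progressions -/
lemma win_core {u : ℕ → ℝ} {B : ℝ} (hB : ∀ x, |u x| ≤ B) {R m D : ℕ} (hR : 0 < R) (hm : 0 < m) :
    ((∑ x ∈ range R, u x) / R) ^ 2 ≤
      2 * ((∑ x ∈ range R, ((∑ i ∈ range m, u (x + i * D)) / m) ^ 2) / R) +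
        2 * (2 * m * D * B / R) ^ 2 := by
  have hR' : (0 : ℝ) < R := by exact_mod_cast hR
  have hm' : (0 : ℝ) < m := by exact_mod_cast hm
  have hB0 : 0 ≤ B := (abs_nonneg _).trans (hB 0)
  set a := (∑ x ∈ range R, u x) / R with ha
  set y : ℕ → ℝ := fun x => (∑ i ∈ range m, u (x + i * D)) / m with hy
  set b := (∑ x ∈ range R, y x) / R with hb
  have h1 : |a - b| ≤ 2 * m * D * B / R := by
    have e : a - b = (∑ i ∈ range m, (∑ x ∈ range R, u x - ∑ x ∈ range R, u (x + i * D))) / (m * R) := by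
      rw [Finset.sum_sub_distrib, Finset.sum_const, card_range, nsmul_eq_mul, ha, hb, hy]
      simp only
      rw [← Finset.sum_div, Finset.sum_comm]
      field_simp
    rw [e, abs_div, abs_of_pos (by positivity : 0 < (m : ℝ) * R), div_le_div_iff₀ (by positivity) hR']
    have h2 : |∑ i ∈ range m, (∑ x ∈ range R, u x - ∑ x ∈ range R, u (x + i * D))| ≤
        ∑ i ∈ range m, 2 * (m * D) * B := by
      refine (Finset.abs_sum_le_sum_abs _ _).trans (Finset.sum_le_sum fun i hi => ?_)
      refine (win_shift hB R (i * D)).trans ?_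
      have hi' : ((i * D : ℕ) : ℝ) ≤ m * D := by
        push_cast
        exact mul_le_mul_of_nonneg_right (by exact_mod_cast (Finset.mem_range.1 hi).le) (Nat.cast_nonneg _)
      exact mul_le_mul_of_nonneg_right (mul_le_mul_of_nonneg_left hi' (by norm_num)) hB0
    rw [Finset.sum_const, card_range, nsmul_eq_mul] at h2
    calc |∑ i ∈ range m, (∑ x ∈ range R, u x - ∑ x ∈ range R, u (x + i * D))| * R ≤
        ((m : ℝ) * (2 * (m * D) * B)) * R := mul_le_mul_of_nonneg_right h2 hR'.le
      _ = _ := by ring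
  have h3 : b ^ 2 ≤ (∑ x ∈ range R, y x ^ 2) / R := sq_avg_range R y
  have h4 : (a - b) ^ 2 ≤ (2 * m * D * B / R) ^ 2 := by
    rw [← sq_abs]
    exact pow_le_pow_left₀ (abs_nonneg _) h1 2
  nlinarith [sq_nonneg (a - 2 * b)]

variable {Ω : Type*} [MeasurableSpace Ω] {P : Measure Ω} [IsProbabilityMeasure P]

lemma int_bdd {X : Ω → ℝ} {B : ℝ} (hm : Measurable X) (hB : ∀ q, |X q| ≤ B) : Integrable X P :=
  Integrable.of_bound hm.aestronglyMeasurable B (Eventually.of_forall fun q => hB q)

/-- the mean square of an average of nearly uncorrelated variables -/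
lemma avg_int {X : ℕ → Ω → ℝ} {B η : ℝ} (hmX : ∀ i, Measurable (X i)) (hB : ∀ i q, |X i q| ≤ B)
    (hη : 0 ≤ η) {m : ℕ} (hm : 0 < m) (hp : ∀ i < m, ∀ j < m, i ≠ j → |∫ q, X i q * X j q ∂P| ≤ η) :
    ∫ q, ((∑ i ∈ range m, X i q) / m) ^ 2 ∂P ≤ B ^ 2 / m + η := by
  have hm' : (0 : ℝ) < m := by exact_mod_cast hm
  have hmm : ∀ i j, Integrable (fun q => X i q * X j q) P := fun i j =>
    int_bdd (B := B * B) ((hmX i).mul (hmX j)) fun q => by
      rw [abs_mul]
      exact mul_le_mul (hB i q) (hB j q) (abs_nonneg _) ((abs_nonneg _).trans (hB i q))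
  have e : ∀ q, ((∑ i ∈ range m, X i q) / m) ^ 2 = (∑ i ∈ range m, ∑ j ∈ range m, X i q * X j q) / (m : ℝ) ^ 2 := by
    intro q
    rw [div_pow, pow_two (∑ i ∈ range m, X i q), Finset.sum_mul_sum]
  simp only [e]
  rw [integral_div, integral_finsetSum _ fun i _ => integrable_finsetSum _ fun j _ => hmm i j]
  have h1 : ∀ i ∈ range m, ∫ q, ∑ j ∈ range m, X i q * X j q ∂P ≤ B ^ 2 + m * η := by
    intro i hi
    rw [integral_finsetSum _ fun j _ => hmm i j]
    have h2 : ∀ j ∈ range m, ∫ q, X i q * X j q ∂P ≤ (if j = i then B ^ 2 else 0) + η := by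
      intro j hj
      split_ifs with hij
      · subst hij
        have h3 : ∫ q, X j q * X j q ∂P ≤ ∫ _q, B ^ 2 ∂P := by
          refine integral_mono (hmm j j) (integrable_const _) fun q => ?_
          show X j q * X j q ≤ B ^ 2
          rw [← pow_two, ← sq_abs]
          exact pow_le_pow_left₀ (abs_nonneg _) (hB j q) 2
        rw [integral_const, probReal_univ, one_smul] at h3
        linarith
      · rw [zero_add]
        exact (le_abs_self _).trans (hp i (Finset.mem_range.1 hi) j (Finset.mem_range.1 hj) (Ne.symm hij))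
    refine (Finset.sum_le_sum h2).trans (le_of_eq ?_)
    rw [Finset.sum_add_distrib, Finset.sum_ite_eq' (range m) i, if_pos hi, Finset.sum_const, card_range,
      nsmul_eq_mul]
  refine (div_le_div_of_nonneg_right (Finset.sum_le_sum h1) (by positivity)).trans (le_of_eq ?_)
  rw [Finset.sum_const, card_range, nsmul_eq_mul]
  field_simp

/-- **averages over windows** -/
theorem avg_main {X : ℕ → Ω → ℝ} {B η : ℝ} (hmX : ∀ i, Measurable (X i)) (hB : ∀ i q, |X i q| ≤ B)
    (hη : 0 ≤ η) {m D x0 R : ℕ} (hm : 0 < m) (hR : 0 < R) (hp : ∀ x, x0 ≤ x → ∀ i < m, ∀ j < m, i ≠ j →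
      |∫ q, X (x + i * D) q * X (x + j * D) q ∂P| ≤ η) :
    ∫ q, ((∑ x ∈ range R, X x q) / R) ^ 2 ∂P ≤
      2 * (B ^ 2 / m + η + B ^ 2 * x0 / R) + 2 * (2 * m * D * B / R) ^ 2 := by
  have hR' : (0 : ℝ) < R := by exact_mod_cast hR
  have hm' : (0 : ℝ) < m := by exact_mod_cast hm
  set y : ℕ → Ω → ℝ := fun x q => ((∑ i ∈ range m, X (x + i * D) q) / m) ^ 2 with hy
  have hym : ∀ x, Measurable (y x) := fun x => by
    rw [hy]
    exact ((Finset.measurable_sum _ fun i _ => hmX _).div_const _).pow_const 2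
  have hyb : ∀ x q, |y x q| ≤ B ^ 2 := by
    intro x q
    rw [abs_of_nonneg (by rw [hy]; positivity)]
    show ((∑ i ∈ range m, X (x + i * D) q) / m) ^ 2 ≤ B ^ 2
    refine (sq_avg_range m fun i => X (x + i * D) q).trans ?_
    rw [div_le_iff₀ hm']
    refine (Finset.sum_le_sum (g := fun _ => B ^ 2) fun i _ => ?_).trans (le_of_eq ?_)
    · rw [← sq_abs]
      exact pow_le_pow_left₀ (abs_nonneg _) (hB _ q) 2
    · rw [Finset.sum_const, card_range, nsmul_eq_mul, mul_comm]
  have hyi : ∀ x, Integrable (y x) P := fun x => int_bdd (hym x) (hyb x)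
  have h1 : ∫ q, ((∑ x ∈ range R, X x q) / R) ^ 2 ∂P ≤
      ∫ q, (2 * ((∑ x ∈ range R, y x q) / R) + 2 * (2 * m * D * B / R) ^ 2) ∂P := by
    refine integral_mono ?_ ?_ fun q => win_core (u := fun x => X x q) (fun x => hB x q) hR hm
    · refine int_bdd (B := B ^ 2) ?_ fun q => ?_
      · exact ((Finset.measurable_sum _ fun i _ => hmX _).div_const _).pow_const 2
      · rw [abs_of_nonneg (by positivity)]
        refine (sq_avg_range R fun x => X x q).trans ?_
        rw [div_le_iff₀ hR']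
        refine (Finset.sum_le_sum (g := fun _ => B ^ 2) fun i _ => ?_).trans (le_of_eq ?_)
        · rw [← sq_abs]
          exact pow_le_pow_left₀ (abs_nonneg _) (hB _ q) 2
        · rw [Finset.sum_const, card_range, nsmul_eq_mul, mul_comm]
    · exact (((integrable_finsetSum _ fun x _ => hyi x).div_const _).const_mul _).add (integrable_const _)
  refine h1.trans ?_
  rw [integral_add (((integrable_finsetSum _ fun x _ => hyi x).div_const _).const_mul _)
    (integrable_const _), integral_const_mul, integral_div, integral_finsetSum _ fun x _ => hyi x,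
    integral_const, probReal_univ, one_smul]
  have h2 : ∀ x ∈ range R, ∫ q, y x q ∂P ≤ (B ^ 2 / m + η) + (if x < x0 then B ^ 2 else 0) := by
    intro x _
    split_ifs with hx
    · have h3 : ∫ q, y x q ∂P ≤ ∫ _q, B ^ 2 ∂P :=
        integral_mono (hyi x) (integrable_const _) fun q => (le_abs_self _).trans (hyb x q)
      rw [integral_const, probReal_univ, one_smul] at h3
      have : 0 ≤ B ^ 2 / m := by positivity
      linarith
    · rw [add_zero]
      exact avg_int (X := fun i => X (x + i * D)) (fun i => hmX _) (fun i q => hB _ q) hη hm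
        (hp x (not_lt.1 hx))
  have h3 : ∑ x ∈ range R, ∫ q, y x q ∂P ≤ R * (B ^ 2 / m + η) + x0 * B ^ 2 := by
    refine (Finset.sum_le_sum h2).trans ?_
    rw [Finset.sum_add_distrib, Finset.sum_const, card_range, nsmul_eq_mul, ← Finset.sum_filter,
      Finset.sum_const, nsmul_eq_mul]
    have h4 : ((range R).filter fun x => x < x0).card ≤ x0 := by
      refine (Finset.card_le_card (t := range x0) fun x hx => ?_).trans (by rw [card_range])
      rw [Finset.mem_filter] at hx
      exact Finset.mem_range.2 hx.2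
    have h5 : (((range R).filter fun x => x < x0).card : ℝ) ≤ x0 := by exact_mod_cast h4
    have := mul_le_mul_of_nonneg_right h5 (sq_nonneg B)
    linarith
  have h4 : (∑ x ∈ range R, ∫ q, y x q ∂P) / R ≤ B ^ 2 / m + η + B ^ 2 * x0 / R := by
    rw [div_le_iff₀ hR']
    have e : (B ^ 2 / m + η + B ^ 2 * x0 / R) * R = R * (B ^ 2 / m + η) + x0 * B ^ 2 := by
      field_simp
    rw [e]
    exact h3
  linarith

/-- small averages from small correlations, in the form used below -/
lemma small_lam {c ε : ℝ} (hc : 0 ≤ c) (hε : 0 < ε) : ∃ Λ : ℕ, 1 ≤ Λ ∧ ∀ x y : ℝ, 0 < y → Λ * y ≤ x →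
    2 * (c * y / x) ^ 2 ≤ ε := by
  set δ := min 1 (ε / 2) with hδ
  have hδ0 : 0 < δ := lt_min one_pos (by positivity)
  refine ⟨⌈c / δ⌉₊ + 1, by omega, fun x y hy hx => ?_⟩
  have h1 : c / δ ≤ (⌈c / δ⌉₊ : ℝ) := Nat.le_ceil _
  have h2 : (c / δ) * y ≤ x := by
    refine le_trans ?_ hx
    push_cast
    nlinarith
  have hxp : 0 < x := by
    push_cast at hx
    have : (0 : ℝ) ≤ (⌈c / δ⌉₊ : ℝ) := Nat.cast_nonneg _
    nlinarith
  have h3 : c * y / x ≤ δ := by
    rw [div_le_iff₀ hxp]
    have : c * y = δ * ((c / δ) * y) := by field_simp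
    rw [this]
    exact mul_le_mul_of_nonneg_left h2 hδ0.le
  have h4 : 0 ≤ c * y / x := by positivity
  have h5 : (c * y / x) ^ 2 ≤ δ ^ 2 := pow_le_pow_left₀ h4 h3 2
  have h6 : δ ≤ 1 := min_le_left _ _
  have h7 : δ ≤ ε / 2 := min_le_right _ _
  nlinarith

end Pool.Agent.Q278.QR
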