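import Pool.Agent.Q278.QR.C

/-!
# Averages over neighbouring zeros, for the limit processes (helper278)
-/

set_option autoImplicit false

namespace Pool.Agent.Q278.QR

open Finset MeasureTheory Filter Topology ProbabilityTheory
open Pool.Agent.Q278.GF
open Pool.Agent.Q278.MC (CC fc cv cm)
open Pool.Agent.Q172.PS (tra)
open _root_.Q172.ZetaLim (IsLim seen shift measurable_shift map_shift continuous_shift)
open scoped ContDiff BoundedContinuousFunction

variable {k : ℕ} {f : Fin k → ℝ → ℝ}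

lemma pres {P : ProbabilityMeasure (ℤ → ℝ)} (hP : IsLim (seen dl) P) :
    MeasurePreserving shift (P : Measure (ℤ → ℝ)) (P : Measure (ℤ → ℝ)) :=
  ⟨measurable_shift, map_shift hP⟩

lemma stat_int {P : ProbabilityMeasure (ℤ → ℝ)} (hP : IsLim (seen dl) P) (t : ℕ) {G : (ℤ → ℝ) → ℝ}
    (hG : AEStronglyMeasurable G (P : Measure (ℤ → ℝ))) :
    ∫ q, G (shift^[t] q) ∂(P : Measure (ℤ → ℝ)) = ∫ q, G q ∂(P : Measure (ℤ → ℝ)) := by
  have h := (pres hP).iterate t
  have h2 := integral_map (μ := (P : Measure (ℤ → ℝ))) h.measurable.aemeasurable (f := G) (by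
    rw [h.map_eq]
    exact hG)
  rw [h.map_eq] at h2
  exact h2.symm

/-- the value of the function at the vector of statistics at the `x`-th place -/
noncomputable def XX (Φ : EuclideanSpace ℝ (Fin k) → ℝ) (f : Fin k → ℝ → ℝ) (L : ℝ) (x : ℕ)
    (q : ℤ → ℝ) : ℝ := Φ (vec f L (shift^[x] q))

lemma XX_cont (hf : Fam f) {Φ : EuclideanSpace ℝ (Fin k) → ℝ} (hΦ : Continuous Φ) {L : ℝ} (hL : 0 < L)
    (x : ℕ) : Continuous (XX Φ f L x) :=
  hΦ.comp ((vec_cont hf hL).comp (continuous_shift.iterate x))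

lemma corr_shift (hf : Fam f) (Φ : EuclideanSpace ℝ (Fin k) →ᵇ ℝ) {P : ProbabilityMeasure (ℤ → ℝ)}
    (hP : IsLim (seen dl) P) {L : ℕ} (hL : 1 ≤ L) (a e : ℕ) :
    ∫ q, XX Φ f L a q * XX Φ f L (a + e * L) q ∂(P : Measure (ℤ → ℝ)) =
      ∫ q, Φ (vec f L q) * Φ (vec (fun j => tra (f j) e) L q) ∂(P : Measure (ℤ → ℝ)) := by
  have hLp : (0 : ℝ) < L := by exact_mod_cast hL
  have h1 := stat_int hP a (G := fun q => Φ (vec f L q) * Φ (vec (fun j => tra (f j) e) L q))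
    (((Φ.continuous.comp (vec_cont hf hLp)).mul
      (Φ.continuous.comp (vec_cont (fam_tra hf e) hLp))).aestronglyMeasurable)
  rw [← h1]
  refine integral_congr_ae (Eventually.of_forall fun q => ?_)
  show Φ (vec f L (shift^[a] q)) * Φ (vec f L (shift^[a + e * L] q)) =
    Φ (vec f L (shift^[a] q)) * Φ (vec (fun j => tra (f j) e) L (shift^[a] q))
  rw [add_comm a, Function.iterate_add_apply, vec_shift f (e * L)]
  have e1 : (((e * L : ℕ) : ℝ) / L) = e := by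
    push_cast
    field_simp
  rw [e1]

/-- **averages over the neighbours, for bounded continuous functions** -/
theorem space_int (hf : Fam f) (Φ : EuclideanSpace ℝ (Fin k) →ᵇ ℝ)
    (h0 : ∫ x, Φ x ∂(multivariateGaussian 0 (cm f)) = 0) {ε : ℝ} (hε : 0 < ε) :
    ∃ Λ L0 : ℕ, 1 ≤ Λ ∧ 1 ≤ L0 ∧ ∀ L R : ℕ, L0 ≤ L → Λ * L ≤ R →
      ∀ P : ProbabilityMeasure (ℤ → ℝ), IsLim (seen dl) P →
        ∫ q, ((∑ x ∈ range R, XX Φ f L x q) / R) ^ 2 ∂(P : Measure (ℤ → ℝ)) ≤ ε := by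
  set B : ℝ := ‖Φ‖ with hB
  have hB0 : 0 ≤ B := norm_nonneg _
  obtain ⟨m, hm⟩ := exists_nat_gt (8 * B ^ 2 / ε)
  have hm0 : (0 : ℝ) < m := lt_of_le_of_lt (by positivity) hm
  have hm1 : 0 < m := by exact_mod_cast hm0
  have hBm : B ^ 2 / m ≤ ε / 8 := by
    rw [div_lt_iff₀ hε] at hm
    rw [div_le_iff₀ hm0]
    linarith
  obtain ⟨e0, he0⟩ := pair_P hf (h := fun e => fun j => tra (f j) e) (fun e => fam_tra hf e)
    (fun e i j => cv_tra_tra _ _ _)
    (fun i j => cv_tra_zero (cc_of (hf i).1 (hf i).2) (cc_of (hf j).1 (hf j).2)) Φ h0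
    (η := ε / 8) (by positivity)
  have hLf : ∀ e : ℕ, ∃ L0 : ℝ, 1 ≤ L0 ∧ (e0 ≤ e → ∀ L : ℝ, L0 ≤ L →
      ∀ P : ProbabilityMeasure (ℤ → ℝ), IsLim (seen dl) P →
        |∫ q, Φ (vec f L q) * Φ (vec (fun j => tra (f j) e) L q) ∂(P : Measure (ℤ → ℝ))| ≤ ε / 8) := by
    intro e
    by_cases h : e0 ≤ e
    · obtain ⟨L0, h1, h2⟩ := he0 e h
      exact ⟨L0, h1, fun _ => h2⟩
    · exact ⟨1, le_rfl, fun h' => absurd h' h⟩
  choose Lf hLf1 hLf2 using hLf
  set d := max e0 1 with hd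
  have hd1 : 1 ≤ d := le_max_right _ _
  set S : ℝ := ∑ i ∈ range m, Lf (i * d) with hS
  have hSi : ∀ i < m, Lf (i * d) ≤ S := fun i hi =>
    Finset.single_le_sum (f := fun i => Lf (i * d)) (fun i _ => by linarith [hLf1 (i * d)])
      (Finset.mem_range.2 hi)
  obtain ⟨Λ, hΛ1, hΛ⟩ := small_lam (c := 2 * m * d * B) (ε := ε / 2) (by positivity) (by positivity)
  refine ⟨Λ, ⌈S⌉₊ + 1, hΛ1, by omega, fun L R hL hR P hP => ?_⟩
  have hL1 : 1 ≤ L := le_trans (by omega) hL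
  have hLp : (0 : ℝ) < L := by exact_mod_cast hL1
  have hSL : S ≤ L := by
    refine (Nat.le_ceil S).trans ?_
    exact_mod_cast (by omega : ⌈S⌉₊ ≤ L)
  have hRpos : 0 < R := lt_of_lt_of_le (Nat.mul_pos (by omega) (by omega)) hR
  have key := avg_main (P := (P : Measure (ℤ → ℝ))) (X := fun x q => XX Φ f L x q) (B := B) (η := ε / 8)
    (fun x => (XX_cont hf Φ.continuous hLp x).measurable) (fun x q => Φ.norm_coe_le_norm _)
    (by positivity) (m := m) (D := d * L) (x0 := 0) (R := R) hm1 hRpos ?_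
  · refine key.trans ?_
    have h1 := hΛ R L hLp (by exact_mod_cast hR)
    have e1 : 2 * (m : ℝ) * ((d * L : ℕ) : ℝ) * B / R = 2 * m * d * B * L / R := by
      push_cast
      ring
    rw [e1]
    simp only [Nat.cast_zero, mul_zero, zero_div, add_zero]
    linarith
  · intro x _ i hi j hj hij
    have main : ∀ i j : ℕ, i < m → j < m → i < j →
        |∫ q, XX Φ f L (x + i * (d * L)) q * XX Φ f L (x + j * (d * L)) q ∂(P : Measure (ℤ → ℝ))| ≤
          ε / 8 := by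
      intro i j hi hj hij
      have e1 : x + j * (d * L) = (x + i * (d * L)) + ((j - i) * d) * L := by
        obtain ⟨t, rfl⟩ := Nat.exists_eq_add_of_lt hij
        have : i + t + 1 - i = t + 1 := by omega
        rw [this]
        ring
      rw [e1, corr_shift hf Φ hP hL1]
      have h1 : 1 ≤ j - i := by omega
      refine hLf2 ((j - i) * d) ?_ L ((hSi (j - i) (by omega)).trans hSL) P hP
      calc e0 ≤ d := le_max_left _ _
        _ = 1 * d := (one_mul d).symm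
        _ ≤ (j - i) * d := Nat.mul_le_mul_right d h1
    rcases Nat.lt_or_gt_of_ne hij with h | h
    · exact main i j hi hj h
    · have := main j i hj hi h
      simpa only [mul_comm] using this

/-- modulus of continuity in mean square -/
lemma modu {E : Type*} [NormedAddCommGroup E] [ProperSpace E] {Φ : E → ℝ} (hc : Continuous Φ)
    {B : ℝ} (hB : ∀ x, |Φ x| ≤ B) {ε : ℝ} (hε : 0 < ε) : ∃ K : ℝ, 0 < K ∧ ∀ x y : E,
    (Φ x - Φ y) ^ 2 ≤ ε + ε * ‖x‖ ^ 2 + K * ‖x - y‖ ^ 2 := by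
  have hB0 : 0 ≤ B := (abs_nonneg _).trans (hB 0)
  obtain ⟨r, hr⟩ := exists_nat_gt (4 * B ^ 2 / ε + 1)
  have hr1 : (1 : ℝ) < r := lt_of_le_of_lt (by
    have : 0 ≤ 4 * B ^ 2 / ε := by positivity
    linarith) hr
  have hr2 : 4 * B ^ 2 ≤ ε * (r : ℝ) ^ 2 := by
    have h1 : 4 * B ^ 2 / ε ≤ r := by linarith
    rw [div_le_iff₀ hε] at h1
    nlinarith
  have hK := (isCompact_closedBall (0 : E) ((r : ℝ) + 1)).uniformContinuousOn_of_continuous hc.continuousOn
  rw [Metric.uniformContinuousOn_iff] at hK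
  obtain ⟨δ, hδ, h1⟩ := hK (min 1 ε) (lt_min one_pos hε)
  set δ' := min δ 1 with hδ'
  have hδ0 : 0 < δ' := lt_min hδ one_pos
  refine ⟨4 * B ^ 2 / δ' ^ 2 + 1, by positivity, fun x y => ?_⟩
  have hall : (Φ x - Φ y) ^ 2 ≤ 4 * B ^ 2 := by
    have h2 := hB x
    have h3 := hB y
    have h4 : |Φ x - Φ y| ≤ 2 * B := (abs_sub _ _).trans (by linarith)
    rw [← sq_abs]
    calc |Φ x - Φ y| ^ 2 ≤ (2 * B) ^ 2 := pow_le_pow_left₀ (abs_nonneg _) h4 2
      _ = 4 * B ^ 2 := by ring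
  have hn1 : 0 ≤ ε * ‖x‖ ^ 2 := by positivity
  have hn2 : 0 ≤ (4 * B ^ 2 / δ' ^ 2 + 1) * ‖x - y‖ ^ 2 := by positivity
  rcases le_or_gt (r : ℝ) ‖x‖ with hx | hx
  · have h2 : (r : ℝ) ^ 2 ≤ ‖x‖ ^ 2 := pow_le_pow_left₀ (by positivity) hx 2
    have h3 : ε * (r : ℝ) ^ 2 ≤ ε * ‖x‖ ^ 2 := mul_le_mul_of_nonneg_left h2 hε.le
    linarith
  · rcases le_or_gt δ' ‖x - y‖ with hxy | hxy
    · have h2 : δ' ^ 2 ≤ ‖x - y‖ ^ 2 := pow_le_pow_left₀ hδ0.le hxy 2
      have h3 : 4 * B ^ 2 ≤ (4 * B ^ 2 / δ' ^ 2) * ‖x - y‖ ^ 2 := by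
        calc 4 * B ^ 2 = (4 * B ^ 2 / δ' ^ 2) * δ' ^ 2 := by field_simp
          _ ≤ _ := mul_le_mul_of_nonneg_left h2 (by positivity)
      have h4 : 0 ≤ ‖x - y‖ ^ 2 := by positivity
      nlinarith
    · have hy : ‖y‖ ≤ r + 1 := by
        have h2 : ‖y‖ ≤ ‖x‖ + ‖x - y‖ := by
          have := norm_sub_norm_le y x
          rw [norm_sub_rev] at this
          linarith
        have h3 : δ' ≤ 1 := min_le_right _ _
        linarith
      have h2 := h1 x (by rw [mem_closedBall_zero_iff]; linarith) y (by rw [mem_closedBall_zero_iff]; exact hy)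
        (by rw [dist_eq_norm]; exact lt_of_lt_of_le hxy (min_le_left _ _))
      rw [Real.dist_eq] at h2
      have h3 : min 1 ε ≤ 1 := min_le_left _ _
      have h4 : min 1 ε ≤ ε := min_le_right _ _
      have h5 : 0 ≤ |Φ x - Φ y| := abs_nonneg _
      have h6 : (Φ x - Φ y) ^ 2 ≤ ε := by
        rw [← sq_abs]
        nlinarith
      linarith

end Pool.Agent.Q278.QR
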