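import Pool.Agent.Q278.QR.D

/-!
# Separation of the local and the large scale, for the limit processes (helper278)
-/

set_option autoImplicit false

namespace Pool.Agent.Q278.QR

open Finset MeasureTheory Filter Topology ProbabilityTheory
open Pool.Agent.Q278.GF
open Pool.Agent.Q278.MC (CC fc cv cm)
open Pool.Agent.Q172.PS (tra tra_supp sq_bound diff_small Fn_sub Fn_memLp)
open _root_.Q172.ZetaLim (IsLim seen shift measurable_shift map_shift continuous_shift)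
open _root_.Q172.Mem (memLp_P)
open scoped ContDiff BoundedContinuousFunction RealInnerProductSpace

section hil

variable {H : Type*} [NormedAddCommGroup H] [InnerProductSpace ℝ H]

lemma iter_inner {T : H →L[ℝ] H} (hT : ∀ x y, ⟪T x, T y⟫ = ⟪x, y⟫) (i : ℕ) (x y : H) :
    ⟪(⇑T)^[i] x, (⇑T)^[i] y⟫ = ⟪x, y⟫ := by
  induction i generalizing x y with
  | zero => rfl
  | succ i ih => rw [Function.iterate_succ_apply, Function.iterate_succ_apply, ih, hT]

lemma iter_norm {T : H →L[ℝ] H} (hT : ∀ x y, ⟪T x, T y⟫ = ⟪x, y⟫) (i : ℕ) (x : H) :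
    ‖(⇑T)^[i] x‖ = ‖x‖ := by
  have h := iter_inner hT i x x
  rw [real_inner_self_eq_norm_sq, real_inner_self_eq_norm_sq] at h
  exact (pow_left_inj₀ (norm_nonneg _) (norm_nonneg _) two_ne_zero).1 h

lemma iter_sub {T : H →L[ℝ] H} (hT : ∀ x y, ⟪T x, T y⟫ = ⟪x, y⟫) (i : ℕ) (x : H) :
    ‖(⇑T)^[i] x - x‖ ≤ i * ‖T x - x‖ := by
  induction i with
  | zero => simp
  | succ i ih =>
    have e : (⇑T)^[i + 1] x - x = (⇑T)^[i] (T x - x) + ((⇑T)^[i] x - x) := by
      rw [Function.iterate_succ_apply, iterate_map_sub]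
      abel
    rw [e]
    refine (norm_add_le _ _).trans ?_
    rw [iter_norm hT]
    push_cast
    linarith

/-- decorrelation in Hilbert space -/
theorem abs_mix [CompleteSpace H] {T : H →L[ℝ] H} (hT : ∀ x y, ⟪T x, T y⟫ = ⟪x, y⟫) {x : ℕ → H}
    {B : ℝ} (hB : ∀ L, ‖x L‖ ≤ B) (h1 : Tendsto (fun L => ‖T (x L) - x L‖) atTop (𝓝 0))
    (h2 : ∀ ε : ℝ, 0 < ε → ∀ᶠ L in atTop, ∃ R : ℕ, 0 < R ∧
      ‖∑ i ∈ range R, (⇑T)^[i] (x L)‖ ≤ ε * R) (F : H) :
    Tendsto (fun L => ⟪F, x L⟫) atTop (𝓝 0) := by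
  have hB0 : 0 ≤ B := (norm_nonneg _).trans (hB 0)
  have hT1 : ‖T‖ ≤ 1 := T.opNorm_le_bound zero_le_one fun y => by
    have := iter_norm hT 1 y
    rw [Function.iterate_one] at this
    rw [this, one_mul]
  have herg := T.tendsto_birkhoffAverage_orthogonalProjection hT1 F
  set y : H := ((T.eqLocus (1 : H →L[ℝ] H)).orthogonalProjectionOnto F : H) with hy
  have hTy : T y = y := by
    have := ((T.eqLocus (1 : H →L[ℝ] H)).orthogonalProjectionOnto F).2
    rw [LinearMap.mem_eqLocus] at this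
    exact this
  have hTiy : ∀ i, (⇑T)^[i] y = y := fun i => Function.iterate_fixed hTy i
  rw [Metric.tendsto_atTop]
  intro ε hε
  set δ : ℝ := ε / (4 * (B + ‖y‖ + ‖F‖ + 1)) with hδ
  have hδ0 : 0 < δ := by positivity
  obtain ⟨R, hR⟩ := ((Metric.tendsto_nhds.1 herg δ hδ0).and (eventually_ge_atTop 1)).exists
  obtain ⟨hR1, hR2⟩ := hR
  have hRp : (0 : ℝ) < R := by exact_mod_cast hR2
  have h3 : ∀ᶠ L in atTop, ‖T (x L) - x L‖ < δ / R := by
    have := Metric.tendsto_nhds.1 h1 (δ / R) (by positivity)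
    filter_upwards [this] with L hL
    rw [Real.dist_eq, sub_zero, abs_of_nonneg (norm_nonneg _)] at hL
    exact hL
  obtain ⟨N, hN⟩ := Filter.eventually_atTop.1 (h3.and (h2 δ hδ0))
  refine ⟨N, fun L hL => ?_⟩
  obtain ⟨h4, R', hR'0, h5⟩ := hN L hL
  have hR'p : (0 : ℝ) < R' := by exact_mod_cast hR'0
  rw [dist_eq_norm, sub_zero, Real.norm_eq_abs]
  -- the averages of `F`
  set A : H := birkhoffAverage ℝ (⇑T) _root_.id R F with hA
  have hA1 : ‖A - y‖ < δ := by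
    rw [dist_eq_norm] at hR1
    exact hR1
  have hAe : A = (R : ℝ)⁻¹ • ∑ i ∈ range R, (⇑T)^[i] F := rfl
  have k1 : |⟪F, x L⟫ - ⟪A, x L⟫| ≤ ‖F‖ * δ := by
    have e : ⟪F, x L⟫ - ⟪A, x L⟫ = (R : ℝ)⁻¹ * ∑ i ∈ range R, ⟪(⇑T)^[i] F, (⇑T)^[i] (x L) - x L⟫ := by
      have e1 : ∀ i ∈ range R, ⟪(⇑T)^[i] F, (⇑T)^[i] (x L) - x L⟫ = ⟪F, x L⟫ - ⟪(⇑T)^[i] F, x L⟫ := by
        intro i _
        rw [inner_sub_right, iter_inner hT]
      rw [Finset.sum_congr rfl e1, Finset.sum_sub_distrib, Finset.sum_const, card_range, nsmul_eq_mul,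
        hAe, inner_smul_left, sum_inner, mul_sub, ← mul_assoc, inv_mul_cancel₀ hRp.ne', one_mul]
      rfl
    rw [e, abs_mul, abs_of_pos (by positivity : 0 < (R : ℝ)⁻¹)]
    have e2 : ∀ i ∈ range R, |⟪(⇑T)^[i] F, (⇑T)^[i] (x L) - x L⟫| ≤ ‖F‖ * δ := by
      intro i hi
      refine (abs_real_inner_le_norm _ _).trans ?_
      rw [iter_norm hT]
      refine mul_le_mul_of_nonneg_left ((iter_sub hT i (x L)).trans ?_) (norm_nonneg _)
      have hiR : (i : ℝ) ≤ R := by exact_mod_cast (Finset.mem_range.1 hi).le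
      calc (i : ℝ) * ‖T (x L) - x L‖ ≤ R * (δ / R) := mul_le_mul hiR h4.le (norm_nonneg _) hRp.le
        _ = δ := by field_simp
    have e3 := (Finset.abs_sum_le_sum_abs (fun i => ⟪(⇑T)^[i] F, (⇑T)^[i] (x L) - x L⟫) (range R)).trans
      (Finset.sum_le_sum e2)
    rw [Finset.sum_const, card_range, nsmul_eq_mul] at e3
    calc (R : ℝ)⁻¹ * |∑ i ∈ range R, ⟪(⇑T)^[i] F, (⇑T)^[i] (x L) - x L⟫| ≤
        (R : ℝ)⁻¹ * (R * (‖F‖ * δ)) := mul_le_mul_of_nonneg_left e3 (by positivity)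
      _ = ‖F‖ * δ := by field_simp
  have k2 : |⟪A, x L⟫ - ⟪y, x L⟫| ≤ δ * B := by
    rw [← inner_sub_left]
    exact (abs_real_inner_le_norm _ _).trans (mul_le_mul hA1.le (hB L) (norm_nonneg _) hδ0.le)
  have k3 : |⟪y, x L⟫| ≤ ‖y‖ * δ := by
    have e : (R' : ℝ) * ⟪y, x L⟫ = ⟪y, ∑ i ∈ range R', (⇑T)^[i] (x L)⟫ := by
      rw [inner_sum]
      have e1 : ∀ i ∈ range R', ⟪y, (⇑T)^[i] (x L)⟫ = ⟪y, x L⟫ := by
        intro i _
        have := iter_inner hT i y (x L)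
        rwa [hTiy] at this
      rw [Finset.sum_congr rfl e1, Finset.sum_const, card_range, nsmul_eq_mul]
    have e2 : |(R' : ℝ) * ⟪y, x L⟫| ≤ ‖y‖ * (δ * R') := by
      rw [e]
      exact (abs_real_inner_le_norm _ _).trans (mul_le_mul_of_nonneg_left h5 (norm_nonneg _))
    rw [abs_mul, abs_of_pos hR'p] at e2
    have e3 : (R' : ℝ) * |⟪y, x L⟫| ≤ R' * (‖y‖ * δ) := by linarith
    exact le_of_mul_le_mul_left e3 hR'p
  have k4 : |⟪F, x L⟫| ≤ ‖F‖ * δ + δ * B + ‖y‖ * δ := by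
    have e : ⟪F, x L⟫ = (⟪F, x L⟫ - ⟪A, x L⟫) + (⟪A, x L⟫ - ⟪y, x L⟫) + ⟪y, x L⟫ := by ring
    rw [e]
    exact (abs_add_three _ _ _).trans (by linarith)
  refine lt_of_le_of_lt k4 ?_
  have e5 : ‖F‖ * δ + δ * B + ‖y‖ * δ ≤ δ * (B + ‖y‖ + ‖F‖ + 1) := by nlinarith
  have e6 : δ * (B + ‖y‖ + ‖F‖ + 1) = ε / 4 := by
    rw [hδ]
    field_simp
  linarith

end hil

variable {k : ℕ} {f : Fin k → ℝ → ℝ}

/-- the statistics seen from neighbouring zeros are close -/
lemma near_shift (hf : Fam f) (Φ : EuclideanSpace ℝ (Fin k) →ᵇ ℝ) {P : ProbabilityMeasure (ℤ → ℝ)}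
    (hP : IsLim (seen dl) P) :
    Tendsto (fun L : ℕ => ∫ q, (Φ (vec f L (shift q)) - Φ (vec f L q)) ^ 2 ∂(P : Measure (ℤ → ℝ)))
      atTop (𝓝 0) := by
  obtain ⟨C, L0, hC, hL0, hsq⟩ := sq_bound hf (Φ := fun x => ‖x‖) continuous_norm (A := 1) (N := 1)
    (fun x => by rw [abs_of_nonneg (norm_nonneg _)]; linarith)
  choose φ' B0 B2 R hT using fun j => tst_of (hf j).1 (hf j).2
  choose D hD hdiff using fun j => diff_small (hT j) 1 zero_le_one
  set DD : ℝ := ∑ j, D j with hDD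
  have hDD0 : 0 ≤ DD := Finset.sum_nonneg fun j _ => (hD j).le
  rw [Metric.tendsto_atTop]
  intro ε hε
  obtain ⟨K, hK, hmod⟩ := modu Φ.continuous (B := ‖Φ‖) (fun x => Φ.norm_coe_le_norm x)
    (ε := ε / (4 * (1 + C))) (by positivity)
  obtain ⟨N, hN⟩ := exists_nat_gt (max L0 (4 * K * DD / ε))
  refine ⟨N + 1, fun L hL => ?_⟩
  have hNL : (N : ℝ) + 1 ≤ L := by exact_mod_cast hL
  have hN1 : L0 < N := (le_max_left _ _).trans_lt hN
  have hN2 : 4 * K * DD / ε < N := (le_max_right _ _).trans_lt hN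
  have hL1 : (1 : ℝ) ≤ L := by linarith
  have hLp : (0 : ℝ) < L := by linarith
  have hmem : ∀ j, MemLp (fun q => Fn (f j) L (shift q) - Fn (f j) L q) 2 (P : Measure (ℤ → ℝ)) := by
    intro j
    have m1 := Fn_memLp (memLp_P hP) (hT j).supp hLp
    exact (m1.comp_measurePreserving (pres hP)).sub m1
  have hj : ∀ j, ∫ q, (Fn (f j) L (shift q) - Fn (f j) L q) ^ 2 ∂(P : Measure (ℤ → ℝ)) ≤ D j / L := by
    intro j
    have h1 := hdiff j P hP L (1 / L) 0 hL1 (by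
      rw [abs_of_pos (by positivity), div_le_one hLp]
      exact hL1) (by simp) (by rw [sub_zero, abs_of_pos (by positivity)])
    refine le_trans (le_of_eq ?_) h1
    refine integral_congr_ae (Eventually.of_forall fun q => ?_)
    show (Fn (f j) L (shift q) - Fn (f j) L q) ^ 2 =
      Fn (fun t => tra (f j) (1 / L) t - tra (f j) 0 t) L q ^ 2
    have hs0 : tra (f j) 0 = f j := by
      funext t
      unfold tra
      rw [sub_zero]
    have e1 := Fn_shift (f j) (L := L) 1 q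
    rw [Function.iterate_one, Nat.cast_one] at e1
    rw [Fn_sub (R := R j + 1) (tra_supp (hT j).supp (by
      rw [abs_of_pos (by positivity), div_le_one hLp]
      exact hL1)) (tra_supp (hT j).supp (by simp)) hLp, hs0, e1]
  have hnorm : ∀ q, ‖vec f L (shift q) - vec f L q‖ ^ 2 =
      ∑ j, (Fn (f j) L (shift q) - Fn (f j) L q) ^ 2 := by
    intro q
    rw [EuclideanSpace.norm_sq_eq]
    refine Finset.sum_congr rfl fun j _ => ?_
    rw [Real.norm_eq_abs, sq_abs]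
    rfl
  obtain ⟨i1, b1⟩ := hsq P hP L (by linarith)
  have i2 : Integrable (fun q => ‖vec f L (shift q) - vec f L q‖ ^ 2) (P : Measure (ℤ → ℝ)) := by
    simp only [hnorm]
    exact integrable_finsetSum _ fun j _ => (hmem j).integrable_sq
  have b2 : ∫ q, ‖vec f L (shift q) - vec f L q‖ ^ 2 ∂(P : Measure (ℤ → ℝ)) ≤ DD / L := by
    simp only [hnorm]
    rw [integral_finsetSum _ fun j _ => (hmem j).integrable_sq, hDD, Finset.sum_div]
    exact Finset.sum_le_sum fun j _ => hj j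
  have h3 : ∫ q, (Φ (vec f L (shift q)) - Φ (vec f L q)) ^ 2 ∂(P : Measure (ℤ → ℝ)) ≤
      ∫ q, (ε / (4 * (1 + C)) + ε / (4 * (1 + C)) * ‖vec f L q‖ ^ 2 +
        K * ‖vec f L (shift q) - vec f L q‖ ^ 2) ∂(P : Measure (ℤ → ℝ)) := by
    refine integral_mono ?_ (((integrable_const _).add (i1.const_mul _)).add (i2.const_mul _)) fun q => ?_
    · refine int_bdd (B := (2 * ‖Φ‖) ^ 2) ?_ fun q => ?_
      · have c1 := vec_cont hf hLp
        exact (((Φ.continuous.comp (c1.comp continuous_shift)).sub (Φ.continuous.comp c1)).pow 2).measurable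
      · rw [abs_of_nonneg (sq_nonneg _), ← sq_abs]
        refine pow_le_pow_left₀ (abs_nonneg _) ?_ 2
        have a1 := Φ.norm_coe_le_norm (vec f L (shift q))
        have a2 := Φ.norm_coe_le_norm (vec f L q)
        rw [Real.norm_eq_abs] at a1 a2
        exact (abs_sub _ _).trans (by linarith)
    · have h4 := hmod (vec f L q) (vec f L (shift q))
      rw [norm_sub_rev] at h4
      have e : (Φ (vec f L (shift q)) - Φ (vec f L q)) ^ 2 = (Φ (vec f L q) - Φ (vec f L (shift q))) ^ 2 := by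
        ring
      simp only
      rw [e]
      exact h4
  have j1 : Integrable (fun q => ε / (4 * (1 + C)) + ε / (4 * (1 + C)) * ‖vec f L q‖ ^ 2)
      (P : Measure (ℤ → ℝ)) := (integrable_const _).add (i1.const_mul _)
  rw [integral_add j1 (i2.const_mul _), integral_add (integrable_const _) (i1.const_mul _),
    integral_const, probReal_univ, one_smul, integral_const_mul, integral_const_mul] at h3
  have h5 : ε / (4 * (1 + C)) + ε / (4 * (1 + C)) * ∫ q, ‖vec f L q‖ ^ 2 ∂(P : Measure (ℤ → ℝ)) ≤ ε / 4 := by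
    calc ε / (4 * (1 + C)) + ε / (4 * (1 + C)) * ∫ q, ‖vec f L q‖ ^ 2 ∂(P : Measure (ℤ → ℝ)) ≤
        ε / (4 * (1 + C)) + ε / (4 * (1 + C)) * C := by gcongr
      _ = ε / 4 := by field_simp
  have h6 : K * ∫ q, ‖vec f L (shift q) - vec f L q‖ ^ 2 ∂(P : Measure (ℤ → ℝ)) ≤ ε / 4 := by
    refine (mul_le_mul_of_nonneg_left b2 hK.le).trans ?_
    rw [← mul_div_assoc, div_le_iff₀ hLp]
    rw [div_lt_iff₀ hε] at hN2
    nlinarith
  have h7 : 0 ≤ ∫ q, (Φ (vec f L (shift q)) - Φ (vec f L q)) ^ 2 ∂(P : Measure (ℤ → ℝ)) :=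
    integral_nonneg fun q => sq_nonneg _
  rw [Real.dist_eq, sub_zero, abs_of_nonneg h7]
  linarith

end Pool.Agent.Q278.QR
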