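import Pool.Agent.Q278.QR.E

/-!
# Mixing, and the conditional expectations given the invariant events (helper278)
-/

set_option autoImplicit false

namespace Pool.Agent.Q278.QR

open Finset MeasureTheory Filter Topology ProbabilityTheory
open Pool.Agent.Q278.GF
open Pool.Agent.Q278.MC (CC fc cv cm)
open _root_.Q172.ZetaLim (IsLim seen shift measurable_shift map_shift continuous_shift)
open scoped ContDiff BoundedContinuousFunction RealInnerProductSpace

variable {k : ℕ} {f : Fin k → ℝ → ℝ}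

/-- conditional expectations contract in mean square -/
lemma cond_sq {Ω : Type*} {m m0 : MeasurableSpace Ω} {P : Measure Ω} [IsProbabilityMeasure P] (hm : m ≤ m0)
    {Y : Ω → ℝ} (hY : MemLp Y 2 P) :
    Integrable (fun q => (P[Y | m]) q ^ 2) P ∧ ∫ q, (P[Y | m]) q ^ 2 ∂P ≤ ∫ q, Y q ^ 2 ∂P := by
  have h1 : Integrable (fun q => Y q ^ 2) P := hY.integrable_sq
  have h2 := (Even.convexOn_pow (n := 2) even_two : ConvexOn ℝ Set.univ fun x : ℝ => x ^ 2).map_condExp_le_univ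
    (μ := P) hm (by fun_prop : Continuous fun x : ℝ => x ^ 2).lowerSemicontinuous
    (hY.integrable one_le_two) h1
  have h3 : Integrable (fun q => (P[Y | m]) q ^ 2) P := by
    refine (integrable_condExp (m := m) (μ := P) (f := (fun x : ℝ => x ^ 2) ∘ Y)).mono' ?_ ?_
    · exact ((stronglyMeasurable_condExp.mono hm).pow 2).aestronglyMeasurable
    · filter_upwards [h2] with q hq
      rw [Real.norm_of_nonneg (sq_nonneg _)]
      exact hq
  refine ⟨h3, ?_⟩
  calc ∫ q, (P[Y | m]) q ^ 2 ∂P ≤ ∫ q, (P[(fun x : ℝ => x ^ 2) ∘ Y | m]) q ∂P :=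
        integral_mono_ae h3 integrable_condExp h2
    _ = ∫ q, ((fun x : ℝ => x ^ 2) ∘ Y) q ∂P := integral_condExp hm
    _ = _ := rfl

section lp

variable {Ω : Type*} [MeasurableSpace Ω] {P : Measure Ω} [IsProbabilityMeasure P]

lemma inner_toLp {g h : Ω → ℝ} (hg : MemLp g 2 P) (hh : MemLp h 2 P) :
    ⟪hg.toLp g, hh.toLp h⟫ = ∫ q, g q * h q ∂P := by
  rw [L2.inner_def]
  refine integral_congr_ae ?_
  filter_upwards [hg.coeFn_toLp, hh.coeFn_toLp] with q h1 h2
  rw [h1, h2, real_inner_eq_re_inner ℝ]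
  simp only [RCLike.inner_apply, conj_trivial, RCLike.re_to_real]
  ring

lemma norm_toLp_sq {g : Ω → ℝ} (hg : MemLp g 2 P) : ‖hg.toLp g‖ ^ 2 = ∫ q, g q ^ 2 ∂P := by
  rw [← real_inner_self_eq_norm_sq, inner_toLp]
  refine integral_congr_ae (Eventually.of_forall fun q => ?_)
  show g q * g q = g q ^ 2
  ring

lemma bdd_memLp {X : Ω → ℝ} {B : ℝ} (hm : Measurable X) (hB : ∀ q, |X q| ≤ B) : MemLp X 2 P :=
  MemLp.of_bound hm.aestronglyMeasurable B (Eventually.of_forall fun q => hB q)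

/-- the operator of the shift -/
noncomputable def kp {S : Ω → Ω} (hS : MeasurePreserving S P P) : Lp ℝ 2 P →L[ℝ] Lp ℝ 2 P :=
  (Lp.compMeasurePreservingₗᵢ ℝ S hS).toContinuousLinearMap

lemma kp_toLp {S : Ω → Ω} (hS : MeasurePreserving S P P) {g : Ω → ℝ} (hg : MemLp g 2 P) :
    kp hS (hg.toLp g) = (hg.comp_measurePreserving hS).toLp (g ∘ S) := rfl

lemma kp_inner {S : Ω → Ω} (hS : MeasurePreserving S P P) (x y : Lp ℝ 2 P) :
    ⟪kp hS x, kp hS y⟫ = ⟪x, y⟫ :=
  (Lp.compMeasurePreservingₗᵢ ℝ S hS).inner_map_map x y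

lemma kp_iter {S : Ω → Ω} (hS : MeasurePreserving S P P) (i : ℕ) {g : Ω → ℝ} (hg : MemLp g 2 P) :
    (⇑(kp hS))^[i] (hg.toLp g) = (hg.comp_measurePreserving (hS.iterate i)).toLp (g ∘ S^[i]) := by
  induction i with
  | zero => rfl
  | succ i ih =>
    rw [Function.iterate_succ_apply', ih, kp_toLp]
    rfl

lemma kp_sum {S : Ω → Ω} (hS : MeasurePreserving S P P) (R : ℕ) {g : Ω → ℝ} (hg : MemLp g 2 P)
    (hs : MemLp (fun q => ∑ i ∈ range R, g (S^[i] q)) 2 P) :
    ∑ i ∈ range R, (⇑(kp hS))^[i] (hg.toLp g) = hs.toLp (fun q => ∑ i ∈ range R, g (S^[i] q)) := by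
  induction R with
  | zero =>
    simp only [Finset.sum_range_zero]
    exact (MemLp.toLp_zero _).symm
  | succ R ih =>
    have h1 : MemLp (fun q => ∑ i ∈ range R, g (S^[i] q)) 2 P :=
      memLp_finsetSum _ fun i _ => hg.comp_measurePreserving (hS.iterate i)
    rw [Finset.sum_range_succ, ih h1, kp_iter, ← MemLp.toLp_add]
    refine MemLp.toLp_congr _ _ (Eventually.of_forall fun q => ?_)
    show (∑ i ∈ range R, g (S^[i] q)) + g (S^[R] q) = ∑ i ∈ range (R + 1), g (S^[i] q)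
    rw [Finset.sum_range_succ]

/-- conditional expectation given the invariant events -/
lemma cond_inv {S : Ω → Ω} (hS : MeasurePreserving S P P) {X : Ω → ℝ} (hX : Integrable X P) :
    P[X | MeasurableSpace.invariants S] =ᵐ[P] P[X ∘ S | MeasurableSpace.invariants S] := by
  have hle := MeasurableSpace.invariants_le S
  refine ae_eq_condExp_of_forall_setIntegral_eq hle (hS.integrable_comp_of_integrable hX)
    (fun s _ _ => integrable_condExp.integrableOn) (fun s hs _ => ?_)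
    stronglyMeasurable_condExp.aestronglyMeasurable
  rw [setIntegral_condExp hle hX hs]
  obtain ⟨h1, h2⟩ := MeasurableSpace.measurableSet_invariants.1 hs
  have h3 := setIntegral_map (μ := P) h1 (f := X) (g := S) (by
    rw [hS.map_eq]
    exact hX.aestronglyMeasurable) hS.measurable.aemeasurable
  rw [hS.map_eq, h2] at h3
  rw [h3]
  rfl

lemma cond_inv_iter {S : Ω → Ω} (hS : MeasurePreserving S P P) {X : Ω → ℝ} (hX : Integrable X P) (i : ℕ) :
    P[X | MeasurableSpace.invariants S] =ᵐ[P] P[X ∘ S^[i] | MeasurableSpace.invariants S] := by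
  induction i with
  | zero => rfl
  | succ i ih =>
    refine ih.trans ?_
    have h1 := cond_inv hS ((hS.iterate i).integrable_comp_of_integrable hX)
    refine h1.trans (Eventually.of_forall fun q => ?_)
    have e : (X ∘ S^[i]) ∘ S = X ∘ S^[i + 1] := by
      funext q
      show X (S^[i] (S q)) = X (S^[i + 1] q)
      rw [Function.iterate_succ_apply]
    rw [e]

lemma cond_avg {S : Ω → Ω} (hS : MeasurePreserving S P P) {X : Ω → ℝ} (hX : Integrable X P) {R : ℕ}
    (hR : 0 < R) : P[X | MeasurableSpace.invariants S] =ᵐ[P]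
      P[fun q => (∑ i ∈ range R, X (S^[i] q)) / R | MeasurableSpace.invariants S] := by
  have hR' : (0 : ℝ) < R := by exact_mod_cast hR
  have e1 : (fun q => (∑ i ∈ range R, X (S^[i] q)) / R) = (R : ℝ)⁻¹ • ∑ i ∈ range R, X ∘ S^[i] := by
    funext q
    rw [Pi.smul_apply, Finset.sum_apply, smul_eq_mul, div_eq_inv_mul]
    rfl
  rw [e1]
  have h1 := condExp_smul (μ := P) (R : ℝ)⁻¹ (∑ i ∈ range R, X ∘ S^[i]) (MeasurableSpace.invariants S)
  have h2 := condExp_finsetSum (μ := P) (s := range R) (f := fun i => X ∘ S^[i])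
    (fun i _ => (hS.iterate i).integrable_comp_of_integrable hX) (MeasurableSpace.invariants S)
  have h3 : ∀ᵐ q ∂P, ∀ i, (P[X | MeasurableSpace.invariants S]) q =
      (P[X ∘ S^[i] | MeasurableSpace.invariants S]) q := by
    rw [ae_all_iff]
    exact fun i => cond_inv_iter hS hX i
  filter_upwards [h1, h2, h3] with q k1 k2 k3
  rw [k1, Pi.smul_apply, k2, Finset.sum_apply, smul_eq_mul]
  have e2 : ∀ i ∈ range R, (P[X ∘ S^[i] | MeasurableSpace.invariants S]) q =
      (P[X | MeasurableSpace.invariants S]) q := fun i _ => (k3 i).symm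
  rw [Finset.sum_congr rfl e2, Finset.sum_const, card_range, nsmul_eq_mul, ← mul_assoc,
    inv_mul_cancel₀ hR'.ne', one_mul]

end lp

/-- **mixing, for bounded continuous functions** -/
theorem mix_int (hf : Fam f) (Φ : EuclideanSpace ℝ (Fin k) →ᵇ ℝ)
    (h0 : ∫ x, Φ x ∂(multivariateGaussian 0 (cm f)) = 0) {P : ProbabilityMeasure (ℤ → ℝ)}
    (hP : IsLim (seen dl) P) {F : (ℤ → ℝ) → ℝ} (hF : MemLp F 2 (P : Measure (ℤ → ℝ))) :
    Tendsto (fun L : ℕ => ∫ q, F q * Φ (vec f L q) ∂(P : Measure (ℤ → ℝ))) atTop (𝓝 0) := by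
  have hS := pres hP
  have hLp : ∀ L : ℕ, (0 : ℝ) < ((L + 1 : ℕ) : ℝ) := fun L => by positivity
  have hmX : ∀ L : ℕ, Measurable fun q => Φ (vec f ((L + 1 : ℕ) : ℝ) q) := fun L =>
    (Φ.continuous.comp (vec_cont hf (hLp L))).measurable
  have hX : ∀ L : ℕ, MemLp (fun q => Φ (vec f ((L + 1 : ℕ) : ℝ) q)) 2 (P : Measure (ℤ → ℝ)) := fun L =>
    bdd_memLp (hmX L) fun q => Φ.norm_coe_le_norm _
  rw [← tendsto_add_atTop_iff_nat 1]
  have h1 := near_shift hf Φ hP
  rw [← tendsto_add_atTop_iff_nat 1] at h1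
  have key := abs_mix (T := kp hS) (kp_inner hS) (x := fun L => (hX L).toLp _) (B := ‖Φ‖) ?_ ?_ ?_
    (hF.toLp F)
  · refine key.congr fun L => ?_
    rw [inner_toLp]
  · intro L
    have h2 := norm_toLp_sq (hX L)
    have h3 : ∫ q, (Φ (vec f ((L + 1 : ℕ) : ℝ) q)) ^ 2 ∂(P : Measure (ℤ → ℝ)) ≤ ∫ _q, ‖Φ‖ ^ 2 ∂(P : Measure (ℤ → ℝ)) := by
      refine integral_mono (hX L).integrable_sq (integrable_const _) fun q => ?_
      show (Φ (vec f ((L + 1 : ℕ) : ℝ) q)) ^ 2 ≤ ‖Φ‖ ^ 2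
      rw [← sq_abs]
      exact pow_le_pow_left₀ (abs_nonneg _) (Φ.norm_coe_le_norm _) 2
    rw [integral_const, probReal_univ, one_smul, ← h2] at h3
    exact (pow_le_pow_iff_left₀ (norm_nonneg _) (norm_nonneg _) two_ne_zero).1 h3
  · have h2 : Tendsto (fun L : ℕ => ‖kp hS ((hX L).toLp _) - (hX L).toLp _‖ ^ 2) atTop (𝓝 0) := by
      refine h1.congr fun L => ?_
      rw [kp_toLp, ← MemLp.toLp_sub, norm_toLp_sq]
      rfl
    have h3 := h2.sqrt
    rw [Real.sqrt_zero] at h3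
    refine h3.congr fun L => ?_
    rw [Real.sqrt_sq (norm_nonneg _)]
  · intro ε hε
    obtain ⟨Λ, L0, hΛ, hL0, hsp⟩ := space_int hf Φ h0 (ε := ε ^ 2) (by positivity)
    filter_upwards [eventually_ge_atTop L0] with L hL
    have hRpos : 0 < Λ * (L + 1) := Nat.mul_pos (by omega) (by omega)
    have hR' : (0 : ℝ) < ((Λ * (L + 1) : ℕ) : ℝ) := by exact_mod_cast hRpos
    refine ⟨Λ * (L + 1), hRpos, ?_⟩
    have h2 := hsp (L + 1) (Λ * (L + 1)) (by omega) le_rfl P hP
    have hs : MemLp (fun q => ∑ i ∈ range (Λ * (L + 1)), Φ (vec f ((L + 1 : ℕ) : ℝ) (shift^[i] q))) 2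
        (P : Measure (ℤ → ℝ)) :=
      memLp_finsetSum _ fun i _ => (hX L).comp_measurePreserving (hS.iterate i)
    rw [kp_sum hS _ (hX L) hs]
    have h3 := norm_toLp_sq hs
    have h4 : ∫ q, (∑ i ∈ range (Λ * (L + 1)), Φ (vec f ((L + 1 : ℕ) : ℝ) (shift^[i] q))) ^ 2
        ∂(P : Measure (ℤ → ℝ)) ≤ (ε * ((Λ * (L + 1) : ℕ) : ℝ)) ^ 2 := by
      have e : ∀ q, ((∑ x ∈ range (Λ * (L + 1)), XX Φ f ((L + 1 : ℕ) : ℝ) x q) / ((Λ * (L + 1) : ℕ) : ℝ)) ^ 2 =
          (∑ i ∈ range (Λ * (L + 1)), Φ (vec f ((L + 1 : ℕ) : ℝ) (shift^[i] q))) ^ 2 /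
            ((Λ * (L + 1) : ℕ) : ℝ) ^ 2 := fun q => by
        rw [div_pow]
        rfl
      simp only [e] at h2
      rw [integral_div, div_le_iff₀ (by positivity)] at h2
      rw [mul_pow]
      exact h2
    rw [← h3] at h4
    exact (pow_le_pow_iff_left₀ (norm_nonneg _) (by positivity) two_ne_zero).1 h4

/-- **the conditional expectations given the invariant events, for bounded continuous functions** -/
theorem inv_int (hf : Fam f) (Φ : EuclideanSpace ℝ (Fin k) →ᵇ ℝ)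
    (h0 : ∫ x, Φ x ∂(multivariateGaussian 0 (cm f)) = 0) {ε : ℝ} (hε : 0 < ε) :
    ∃ L0 : ℕ, 1 ≤ L0 ∧ ∀ L : ℕ, L0 ≤ L → ∀ P : ProbabilityMeasure (ℤ → ℝ), IsLim (seen dl) P →
      ∫ q, ((P : Measure (ℤ → ℝ))[fun q => Φ (vec f L q) | MeasurableSpace.invariants shift]) q ^ 2
        ∂(P : Measure (ℤ → ℝ)) ≤ ε := by
  obtain ⟨Λ, L0, hΛ, hL0, hsp⟩ := space_int hf Φ h0 hε
  refine ⟨L0, hL0, fun L hL P hP => ?_⟩
  have hLp : (0 : ℝ) < L := by exact_mod_cast (lt_of_lt_of_le (by omega) hL : 0 < L)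
  have hRpos : 0 < Λ * L := Nat.mul_pos (by omega) (by omega)
  have hS := pres hP
  have hmX : Measurable fun q => Φ (vec f L q) := (Φ.continuous.comp (vec_cont hf hLp)).measurable
  have hX : MemLp (fun q => Φ (vec f L q)) 2 (P : Measure (ℤ → ℝ)) :=
    bdd_memLp hmX fun q => Φ.norm_coe_le_norm _
  have h1 := cond_avg hS (hX.integrable one_le_two) hRpos
  have hs : MemLp (fun q => (∑ i ∈ range (Λ * L), Φ (vec f L (shift^[i] q))) / ((Λ * L : ℕ) : ℝ)) 2
      (P : Measure (ℤ → ℝ)) := by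
    have : MemLp (fun q => ∑ i ∈ range (Λ * L), Φ (vec f L (shift^[i] q))) 2 (P : Measure (ℤ → ℝ)) :=
      memLp_finsetSum _ fun i _ => hX.comp_measurePreserving (hS.iterate i)
    simp only [div_eq_mul_inv]
    exact this.mul_const _
  have h2 := (cond_sq (MeasurableSpace.invariants_le shift) hs).2
  refine le_trans (le_of_eq ?_) (h2.trans (hsp L (Λ * L) hL le_rfl P hP))
  refine integral_congr_ae ?_
  filter_upwards [h1] with q hq
  rw [hq]

end Pool.Agent.Q278.QR
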