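import Pool.Agent.Q278.QR.E2

/-!
# From the limit processes to the actual gaps, for sequences close to the unfolded gaps (helper278)
-/

set_option autoImplicit false

namespace Pool.Agent.Q278.QR

open Finset MeasureTheory Filter Topology
open Pool.Agent.Q278.GF
open Pool.Agent.Q172.PS (PG)
open Pool.Agent.Q278.KM
open _root_.Q172.ZetaLim (IsLim seen isLim_iff law tendsto_law_iff integral_law av)

/-- sequences with the limit processes of the unfolded gaps and all moments -/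
structure Sq (d : ℕ → ℝ) : Prop where
  lim : ∀ P : ProbabilityMeasure (ℤ → ℝ), IsLim (seen d) P → IsLim (seen dl) P
  mom : ∀ M : ℕ, ∃ C : ℝ, 0 < C ∧ ∀ N : ℕ, ∑ n ∈ Icc 1 N, |d n| ^ (M + 1) ≤ C * N

variable {d : ℕ → ℝ}

lemma Sq.tight (hd : Sq d) (ε : ℝ) (hε : 0 < ε) : ∃ Q : Set (ℤ → ℝ), IsCompact Q ∧
    ∀ N, (law (seen d) N : Measure (ℤ → ℝ)).real Qᶜ ≤ ε := by
  obtain ⟨C, hC, h⟩ := hd.mom 0
  simp only [zero_add, pow_one] at h
  exact _root_.Q172.ZetaLim.tight hC h ε hε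

lemma Sq.seen_sum (hd : Sq d) (M : ℕ) : ∃ C : ℝ, 0 < C ∧ ∀ (k : ℤ) (N : ℕ),
    ∑ n ∈ Icc 1 N, |seen d n k| ^ (M + 1) ≤ C * (N + k.natAbs : ℕ) := by
  classical
  obtain ⟨C, hC, h⟩ := hd.mom M
  refine ⟨C, hC, fun k N => ?_⟩
  refine le_trans ?_ (h (N + k.natAbs))
  have e1 : ∑ n ∈ Icc 1 N, |seen d n k| ^ (M + 1) =
      ∑ n ∈ (Icc 1 N).filter (fun n : ℕ => 1 ≤ (n : ℤ) + k), |d ((n : ℤ) + k).toNat| ^ (M + 1) := by
    rw [Finset.sum_filter]
    refine Finset.sum_congr rfl fun n _ => ?_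
    unfold seen
    split_ifs with hc
    · rfl
    · rw [abs_zero, zero_pow (by omega)]
  have e2 : ∑ n ∈ (Icc 1 N).filter (fun n : ℕ => 1 ≤ (n : ℤ) + k), |d ((n : ℤ) + k).toNat| ^ (M + 1) =
      ∑ m ∈ ((Icc 1 N).filter (fun n : ℕ => 1 ≤ (n : ℤ) + k)).image (fun n : ℕ => ((n : ℤ) + k).toNat),
        |d m| ^ (M + 1) := by
    rw [Finset.sum_image]
    intro a ha b hb hab
    simp only [Finset.coe_filter, Finset.mem_Icc, Set.mem_ofPred_eq] at ha hb hab
    omega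
  rw [e1, e2]
  refine Finset.sum_le_sum_of_subset_of_nonneg ?_ fun _ _ _ => by positivity
  intro m hm
  rw [Finset.mem_image] at hm
  obtain ⟨n, hn, rfl⟩ := hm
  rw [Finset.mem_filter, Finset.mem_Icc] at hn
  rw [Finset.mem_Icc]
  omega

/-- **the means of functions of polynomial growth are bounded** -/
theorem Sq.bounded (hd : Sq d) {F : (ℤ → ℝ) → ℝ} (hF : PG F) : ∃ C : ℝ, 0 < C ∧ ∀ N : ℕ,
    ∑ n ∈ Icc 1 N, |F (seen d n)| ≤ C * N := by
  obtain ⟨c, S, A, K, p, b⟩ := hF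
  obtain ⟨C, hC, h⟩ := hd.seen_sum K
  set D := A * (2 ^ K * (1 + (S.card : ℝ) ^ K * ∑ k ∈ S, C * (1 + k.natAbs : ℕ))) with hD
  refine ⟨D + 1, by positivity, fun N => ?_⟩
  rcases Nat.eq_zero_or_pos N with h0 | h0
  · subst h0; simp
  have hN1 : (1 : ℝ) ≤ N := by exact_mod_cast h0
  have hpt : ∀ q : ℤ → ℝ, |F q| ≤ A * (2 ^ K * (1 + (S.card : ℝ) ^ K * ∑ k ∈ S, |q k| ^ (K + 1))) := by
    intro q
    refine (b q).trans (mul_le_mul_of_nonneg_left ?_ p)
    have h1 : (1 + ∑ i ∈ S, |q i|) ^ K ≤ (1 + ∑ i ∈ S, |q i|) ^ (K + 1) :=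
      pow_le_pow_right₀ (PG.base_one S q) (by omega)
    have hnn : 0 ≤ ∑ i ∈ S, |q i| := Finset.sum_nonneg fun i _ => abs_nonneg _
    have h2 := add_pow_le zero_le_one hnn (K + 1)
    rw [one_pow, Nat.add_sub_cancel] at h2
    refine h1.trans (h2.trans (mul_le_mul_of_nonneg_left ?_ (by positivity)))
    have h3 : (∑ i ∈ S, |q i|) ^ (K + 1) ≤ (S.card : ℝ) ^ K * ∑ k ∈ S, |q k| ^ (K + 1) := by
      rcases S.eq_empty_or_nonempty with hS | hS
      · subst hS; simp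
      · have hc : (0 : ℝ) < S.card := by exact_mod_cast hS.card_pos
        have h4 := pow_sum_div_card_le_sum_pow (s := S) (f := fun i => |q i|) (fun i _ => abs_nonneg _) K
        rw [div_le_iff₀ (by positivity)] at h4
        linarith
    linarith
  have hsum : ∑ n ∈ Icc 1 N, |F (seen d n)| ≤ ∑ n ∈ Icc 1 N, A * (2 ^ K * (1 + (S.card : ℝ) ^ K *
      ∑ k ∈ S, |seen d n k| ^ (K + 1))) := Finset.sum_le_sum fun n _ => hpt _
  refine hsum.trans ?_
  rw [← Finset.mul_sum, ← Finset.mul_sum, Finset.sum_add_distrib, Finset.sum_const, Nat.card_Icc,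
    ← Finset.mul_sum, Finset.sum_comm, nsmul_eq_mul, mul_one, Nat.add_sub_cancel]
  have h5 : ∑ k ∈ S, ∑ n ∈ Icc 1 N, |seen d n k| ^ (K + 1) ≤ (∑ k ∈ S, C * (1 + k.natAbs : ℕ)) * N := by
    rw [Finset.sum_mul]
    refine Finset.sum_le_sum fun k _ => (h k N).trans ?_
    rw [mul_assoc]
    refine mul_le_mul_of_nonneg_left ?_ hC.le
    push_cast
    have : (0 : ℝ) ≤ (k.natAbs : ℝ) := Nat.cast_nonneg _
    nlinarith
  have h6 : A * (2 ^ K * ((N : ℝ) + (S.card : ℝ) ^ K * ∑ k ∈ S, ∑ n ∈ Icc 1 N, |seen d n k| ^ (K + 1))) ≤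
      A * (2 ^ K * ((N : ℝ) + (S.card : ℝ) ^ K * ((∑ k ∈ S, C * (1 + k.natAbs : ℕ)) * N))) := by
    refine mul_le_mul_of_nonneg_left (mul_le_mul_of_nonneg_left (add_le_add le_rfl
      (mul_le_mul_of_nonneg_left h5 (by positivity))) (by positivity)) p
  refine h6.trans ?_
  have e : A * (2 ^ K * ((N : ℝ) + (S.card : ℝ) ^ K * ((∑ k ∈ S, C * (1 + k.natAbs : ℕ)) * N))) =
      D * N := by rw [hD]; ring
  rw [e]
  nlinarith

/-- bounded functions, one-sided -/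
lemma Sq.emp_le (hd : Sq d) {F : (ℤ → ℝ) → ℝ} (hF : Continuous F) {M : ℝ} (hM : ∀ q, |F q| ≤ M) {a ε : ℝ}
    (hε : 0 < ε) (h : ∀ P : ProbabilityMeasure (ℤ → ℝ), IsLim (seen dl) P →
      ∫ q, F q ∂(P : Measure (ℤ → ℝ)) ≤ a) :
    ∀ᶠ N : ℕ in atTop, (∑ n ∈ Icc 1 N, F (seen d n)) / (N : ℝ) ≤ a + ε := by
  rw [← Filter.map_add_atTop_eq_nat 1, Filter.eventually_map]
  by_contra hcon
  rw [Filter.not_eventually] at hcon
  obtain ⟨ns, hns, hbad⟩ := Filter.extraction_of_frequently_atTop hcon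
  obtain ⟨P, _, ψ, hψ, hlim⟩ := (_root_.Q172.ZetaLim.tight_compact _ hd.tight).tendsto_subseq
    (x := fun j => law (seen d) (ns j)) fun j => subset_closure ⟨ns j, rfl⟩
  have hPl : IsLim (seen d) P := by
    rw [isLim_iff]
    refine MapClusterPt.of_comp (hns.tendsto_atTop.comp hψ.tendsto_atTop) ?_
    exact hlim.mapClusterPt
  have h1 := h P (hd.lim P hPl)
  have h2 := (tendsto_law_iff (seen d) (fun j => ns (ψ j)) P).1 hlim
    (BoundedContinuousFunction.ofNormedAddCommGroup F hF M hM)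
  simp only [BoundedContinuousFunction.coe_ofNormedAddCommGroup] at h2
  obtain ⟨j, hj⟩ := (Metric.tendsto_nhds.1 h2 ε hε).exists
  rw [Real.dist_eq] at hj
  have h3 := hbad (ψ j)
  unfold Q172.ZetaLim.av at hj
  apply h3
  have h4 := le_abs_self ((∑ n ∈ Icc 1 (ns (ψ j) + 1), F (seen d n)) / ((ns (ψ j) + 1 : ℕ) : ℝ) -
    ∫ q, F q ∂(P : Measure (ℤ → ℝ)))
  linarith

/-- **from the limit processes to the actual gaps, one-sided** -/
theorem Sq.le (hd : Sq d) {F : (ℤ → ℝ) → ℝ} (hF : PG F) {a ε : ℝ} (hε : 0 < ε)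
    (h : ∀ P : ProbabilityMeasure (ℤ → ℝ), IsLim (seen dl) P →
      ∫ q, F q ∂(P : Measure (ℤ → ℝ)) ≤ a) :
    ∀ᶠ N : ℕ in atTop, (∑ n ∈ Icc 1 N, F (seen d n)) / (N : ℝ) ≤ a + ε := by
  obtain ⟨C, hC, hb⟩ := hd.bounded (hF.pow 2)
  have habs : ∀ q, |F q ^ 2| = F q ^ 2 := fun q => abs_of_nonneg (sq_nonneg _)
  simp only [habs] at hb
  obtain ⟨C', hC', hb'⟩ := (hF.pow 2).bounded
  simp only [habs] at hb'
  set R := 3 * (C + C') / ε with hR
  have hR0 : 0 < R := by positivity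
  have hCR : (C + C') / R = ε / 3 := by rw [hR]; field_simp
  have hCR1 : C / R ≤ ε / 3 := by
    rw [← hCR]
    exact div_le_div_of_nonneg_right (by linarith) hR0.le
  have hCR2 : C' / R ≤ ε / 3 := by
    rw [← hCR]
    exact div_le_div_of_nonneg_right (by linarith) hR0.le
  have hPm : ∀ P : ProbabilityMeasure (ℤ → ℝ), IsLim (seen dl) P →
      Integrable (fun q => F q ^ 2) (P : Measure (ℤ → ℝ)) ∧ ∫ q, F q ^ 2 ∂(P : Measure (ℤ → ℝ)) ≤ C' :=
    fun P hP => _root_.Q172.ZetaLim.fatou hP (hF.cont.pow 2) (fun q => sq_nonneg _) fun η hη =>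
      Eventually.of_forall fun N => (hb' N).trans (by nlinarith [(Nat.cast_nonneg N : (0 : ℝ) ≤ N)])
  have h1 : ∀ P : ProbabilityMeasure (ℤ → ℝ), IsLim (seen dl) P →
      ∫ q, tr R (F q) ∂(P : Measure (ℤ → ℝ)) ≤ a + ε / 3 := by
    intro P hP
    obtain ⟨i1, b1⟩ := hPm P hP
    have i2 : Integrable F (P : Measure (ℤ → ℝ)) := by
      have hbb : Integrable (fun q => (1 : ℝ) + F q ^ 2) (P : Measure (ℤ → ℝ)) :=
        (integrable_const 1).add i1
      refine hbb.mono' hF.cont.aestronglyMeasurable (Eventually.of_forall fun x => ?_)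
      rw [Real.norm_eq_abs]
      nlinarith [sq_nonneg (|F x| - 1), sq_abs (F x), abs_nonneg (F x)]
    have i3 : Integrable (fun q => tr R (F q)) (P : Measure (ℤ → ℝ)) :=
      Integrable.of_bound ((tr_cont R).comp hF.cont).aestronglyMeasurable R
        (Eventually.of_forall fun q => tr_abs hR0.le _)
    have h2 : ∫ q, tr R (F q) ∂(P : Measure (ℤ → ℝ)) ≤
        ∫ q, (F q + F q ^ 2 / R) ∂(P : Measure (ℤ → ℝ)) := by
      refine integral_mono i3 (i2.add (i1.div_const R)) fun q => ?_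
      have := (abs_le.1 (tr_sub hR0 (F q))).1
      simp only
      linarith
    rw [integral_add i2 (i1.div_const R), integral_div] at h2
    have h3 := h P hP
    have h4 : (∫ q, F q ^ 2 ∂(P : Measure (ℤ → ℝ))) / R ≤ C' / R :=
      div_le_div_of_nonneg_right b1 hR0.le
    linarith
  have h2 := hd.emp_le ((tr_cont R).comp hF.cont) (M := R) (fun q => tr_abs hR0.le _)
    (by positivity : 0 < ε / 3) h1
  filter_upwards [h2, eventually_ge_atTop 1] with N hN hN1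
  have hN0 : (0 : ℝ) < N := by exact_mod_cast hN1
  have h3 : ∑ n ∈ Icc 1 N, F (seen d n) ≤ ∑ n ∈ Icc 1 N, (tr R (F (seen d n)) + F (seen d n) ^ 2 / R) := by
    refine Finset.sum_le_sum fun n _ => ?_
    have := (abs_le.1 (tr_sub hR0 (F (seen d n)))).2
    linarith
  rw [Finset.sum_add_distrib, ← Finset.sum_div] at h3
  have h4 : (∑ n ∈ Icc 1 N, F (seen d n) ^ 2) / R ≤ (ε / 3) * N := by
    refine le_trans ?_ (mul_le_mul_of_nonneg_right hCR1 hN0.le)
    rw [div_mul_eq_mul_div]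
    exact div_le_div_of_nonneg_right (hb N) hR0.le
  simp only [Function.comp_apply] at hN
  rw [div_le_iff₀ hN0] at hN ⊢
  linarith

/-- two-sided -/
theorem Sq.near (hd : Sq d) {F : (ℤ → ℝ) → ℝ} (hF : PG F) {a ε : ℝ} (hε : 0 < ε)
    (h : ∀ P : ProbabilityMeasure (ℤ → ℝ), IsLim (seen dl) P →
      |∫ q, F q ∂(P : Measure (ℤ → ℝ)) - a| ≤ ε) :
    ∀ᶠ N : ℕ in atTop, |(∑ n ∈ Icc 1 N, F (seen d n)) / (N : ℝ) - a| ≤ 2 * ε := by
  have h1 := hd.le hF (a := a + ε) hε fun P hP => by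
    have := (abs_le.1 (h P hP)).2
    linarith
  have h2 := hd.le hF.neg (a := -a + ε) hε fun P hP => by
    have := (abs_le.1 (h P hP)).1
    rw [integral_neg]
    linarith
  filter_upwards [h1, h2] with N k1 k2
  rw [Finset.sum_neg_distrib, neg_div] at k2
  rw [abs_le]
  constructor <;> linarith

end Pool.Agent.Q278.QR
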