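import Pool.Agent.Q278.QR.F
import Pool.Agent.H345R2.CT.A

/-!
# The gaps of the normalised ordinates `γ log γ / 2π` (helper278)
-/

set_option autoImplicit false

namespace Pool.Agent.Q278.QR

open Finset MeasureTheory Filter Topology
open Pool.Agent.Q278.GF
open Pool.Agent.Q172.PS (dl_mom)
open _root_.Q172.ZetaLim (IsLim seen isLim_iff law tendsto_law_iff integral_law sum_seen_le ev_of_tail)

/-- two sequences are close in the mean -/
def Cls (d d' : ℕ → ℝ) : Prop :=
  ∀ ε : ℝ, 0 < ε → ∀ᶠ N : ℕ in atTop, ∑ n ∈ Icc 1 N, |d n - d' n| ≤ ε * N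

lemma Cls.symm {d d' : ℕ → ℝ} (h : Cls d d') : Cls d' d := by
  intro ε hε
  filter_upwards [h ε hε] with N hN
  refine le_trans (le_of_eq ?_) hN
  exact Finset.sum_congr rfl fun n _ => abs_sub_comm _ _

lemma seen_sub (d d' : ℕ → ℝ) (n : ℕ) (k : ℤ) :
    seen (fun n => d n - d' n) n k = seen d n k - seen d' n k := by
  unfold seen
  split_ifs
  · rfl
  · ring

lemma Cls.coord {d d' : ℕ → ℝ} (h : Cls d d') (k : ℤ) (ε : ℝ) (hε : 0 < ε) :
    ∀ᶠ N : ℕ in atTop, ∑ n ∈ Icc 1 N, |seen d n k - seen d' n k| ≤ ε * N := by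
  have h1 := (tendsto_add_atTop_nat k.natAbs).eventually (h (ε / 2) (by positivity))
  filter_upwards [h1, eventually_ge_atTop k.natAbs] with N hN hN2
  have h2 := sum_seen_le (fun n => d n - d' n) N k
  simp only [seen_sub] at h2
  refine h2.trans (hN.trans ?_)
  have : (k.natAbs : ℝ) ≤ N := by exact_mod_cast hN2
  push_cast
  nlinarith

section met

open scoped PiCountable

/-- the distance is small if finitely many coordinates are close -/
lemma dist_le {δ : ℝ} (hδ : 0 < δ) : ∃ S : Finset ℤ, ∀ x y : ℤ → ℝ,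
    dist x y ≤ ∑ k ∈ S, |x k - y k| + δ := by
  have hs : Summable fun k : ℤ => ((2 : ℝ)⁻¹) ^ Encodable.encode k := by
    simpa [one_div] using (summable_geometric_two_encode (ι := ℤ))
  obtain ⟨S, hS⟩ := (Metric.tendsto_nhds.1 hs.hasSum δ hδ).exists
  refine ⟨S, fun x y => ?_⟩
  rw [Real.dist_eq] at hS
  have hS' : (∑' k : ℤ, ((2 : ℝ)⁻¹) ^ Encodable.encode k) -
      ∑ k ∈ S, ((2 : ℝ)⁻¹) ^ Encodable.encode k < δ := by
    have := neg_abs_le (∑ k ∈ S, ((2 : ℝ)⁻¹) ^ Encodable.encode k -
      ∑' k : ℤ, ((2 : ℝ)⁻¹) ^ Encodable.encode k)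
    linarith
  rw [PiCountable.dist_eq_tsum]
  have hs2 : Summable fun k : ℤ => if k ∈ S then |x k - y k| - ((2 : ℝ)⁻¹) ^ Encodable.encode k else 0 :=
    summable_of_ne_finset_zero (s := S) fun k hk => if_neg hk
  have h1 : ∑' k : ℤ, min ((2 : ℝ)⁻¹ ^ Encodable.encode k) (dist (x k) (y k)) ≤
      ∑' k : ℤ, (((2 : ℝ)⁻¹) ^ Encodable.encode k +
        if k ∈ S then |x k - y k| - ((2 : ℝ)⁻¹) ^ Encodable.encode k else 0) := by
    refine Summable.tsum_le_tsum (fun k => ?_) (PiCountable.dist_summable x y) (hs.add hs2)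
    split_ifs with hk
    · refine (min_le_right _ _).trans (le_of_eq ?_)
      rw [Real.dist_eq]
      ring
    · rw [add_zero]
      exact min_le_left _ _
  refine h1.trans ?_
  rw [Summable.tsum_add hs hs2, tsum_eq_sum (s := S) fun k hk => if_neg hk]
  have e : ∑ k ∈ S, (if k ∈ S then |x k - y k| - ((2 : ℝ)⁻¹) ^ Encodable.encode k else 0) =
      ∑ k ∈ S, |x k - y k| - ∑ k ∈ S, ((2 : ℝ)⁻¹) ^ Encodable.encode k := by
    rw [← Finset.sum_sub_distrib]
    exact Finset.sum_congr rfl fun k hk => if_pos hk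
  rw [e]
  linarith

/-- close sequences have the same limit processes -/
theorem lim_of_close {d d' : ℕ → ℝ} (h : Cls d d') {P : ProbabilityMeasure (ℤ → ℝ)}
    (hP : IsLim (seen d) P) : IsLim (seen d') P := by
  rw [isLim_iff] at hP
  obtain ⟨φ, hφ, hl⟩ := MapClusterPt.tendsto_subseq hP
  rw [isLim_iff]
  refine MapClusterPt.of_comp hφ.tendsto_atTop (Tendsto.mapClusterPt ?_)
  have hl' := (tendsto_law_iff (seen d) φ P).1 hl
  rw [tendsto_iff_forall_lipschitz_integral_tendsto]
  rintro g ⟨C, hC⟩ ⟨K, hK⟩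
  have hbd : ∃ M : ℝ, ∀ x, |g x| ≤ M := by
    refine ⟨|g 0| + C, fun x => ?_⟩
    have h1 := hC x 0
    rw [Real.dist_eq] at h1
    have h2 := abs_sub_abs_le_abs_sub (g x) (g 0)
    linarith
  obtain ⟨M, hM⟩ := hbd
  have h1 := hl' (BoundedContinuousFunction.ofNormedAddCommGroup g hK.continuous M hM)
  simp only [BoundedContinuousFunction.coe_ofNormedAddCommGroup] at h1
  have e : ∀ i, ∫ ω, g ω ∂((law (seen d') ∘ φ) i : Measure (ℤ → ℝ)) = Q172.ZetaLim.av (seen d') (φ i + 1) g := fun i =>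
    integral_law (seen d') (φ i) hK.continuous.measurable
  simp only [e]
  have h2 : Tendsto (fun i => Q172.ZetaLim.av (seen d') (φ i + 1) g - Q172.ZetaLim.av (seen d) (φ i + 1) g) atTop (𝓝 0) := by
    rw [Metric.tendsto_nhds]
    intro ε hε
    obtain ⟨S, hS⟩ := dist_le (δ := ε / (2 * (K + 1))) (by positivity)
    have h3 : ∀ᶠ N : ℕ in atTop, ∀ k ∈ S, ∑ n ∈ Icc 1 N, |seen d n k - seen d' n k| ≤
        ε / (4 * (K + 1) * (S.card + 1)) * N := by
      rw [Filter.eventually_all_finset]
      exact fun k _ => h.coord k _ (by positivity)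
    have h4 := ((tendsto_add_atTop_nat 1).comp hφ.tendsto_atTop).eventually h3
    filter_upwards [h4] with i hi
    simp only [Function.comp_apply] at hi
    set N := φ i + 1 with hN
    have hN0 : (0 : ℝ) < N := by
      rw [hN]
      positivity
    rw [Real.dist_eq, sub_zero]
    unfold Q172.ZetaLim.av
    rw [← sub_div, ← Finset.sum_sub_distrib, abs_div, abs_of_pos hN0, div_lt_iff₀ hN0]
    have h5 : ∀ n ∈ Icc 1 N, |g (seen d' n) - g (seen d n)| ≤
        K * (∑ k ∈ S, |seen d n k - seen d' n k| + ε / (2 * (K + 1))) := by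
      intro n _
      have h6 := hK.dist_le_mul (seen d' n) (seen d n)
      rw [Real.dist_eq] at h6
      refine h6.trans (mul_le_mul_of_nonneg_left ?_ K.2)
      rw [dist_comm]
      exact hS _ _
    have h6 := (Finset.abs_sum_le_sum_abs (fun n => g (seen d' n) - g (seen d n)) (Icc 1 N)).trans
      (Finset.sum_le_sum h5)
    refine lt_of_le_of_lt h6 ?_
    rw [← Finset.mul_sum, Finset.sum_add_distrib, Finset.sum_const, Nat.card_Icc, nsmul_eq_mul,
      Finset.sum_comm, Nat.add_sub_cancel]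
    have h7 := Finset.sum_le_sum hi
    rw [Finset.sum_const, nsmul_eq_mul] at h7
    have hK0 : (0 : ℝ) ≤ K := K.2
    have h8 : (S.card : ℝ) * (ε / (4 * (K + 1) * (S.card + 1)) * N) ≤ ε / (4 * (K + 1)) * N := by
      have : (S.card : ℝ) * (ε / (4 * (K + 1) * (S.card + 1)) * N) =
          (ε / (4 * (K + 1)) * N) * (S.card / (S.card + 1)) := by
        field_simp
      rw [this]
      refine mul_le_of_le_one_right (by positivity) ?_
      rw [div_le_one (by positivity)]
      linarith
    calc (K : ℝ) * (∑ y ∈ S, ∑ x ∈ Icc 1 N, |seen d x y - seen d' x y| + N * (ε / (2 * (K + 1)))) ≤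
        K * (ε / (4 * (K + 1)) * N + N * (ε / (2 * (K + 1)))) :=
          mul_le_mul_of_nonneg_left (by linarith) hK0
      _ = (3 / 4 * ε * N) * (K / (K + 1)) := by
          field_simp
          ring
      _ ≤ (3 / 4 * ε * N) * 1 := by
          refine mul_le_mul_of_nonneg_left ?_ (by positivity)
          rw [div_le_one (by positivity)]
          linarith
      _ < ε * N := by nlinarith
  have h3 := h2.add h1
  rw [zero_add] at h3
  refine h3.congr fun i => ?_
  show Q172.ZetaLim.av (seen d') (φ i + 1) g - Q172.ZetaLim.av (seen d) (φ i + 1) g + Q172.ZetaLim.av (seen d) (φ i + 1) g = _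
  ring

end met

/-- sequences asymptotic to the unfolded gaps -/
theorem sq_of_close {d : ℕ → ℝ} {e : ℕ → ℝ} (he : Tendsto e atTop (𝓝 0))
    (h : ∀ᶠ n in atTop, |d n - dl n| ≤ e n * |dl n|) : Sq d ∧ Cls d dl := by
  have hcls : Cls d dl := by
    intro ε hε
    obtain ⟨C, hC, hm⟩ := dl_mom 0
    simp only [zero_add, pow_one] at hm
    obtain ⟨n1, hn1⟩ := Filter.eventually_atTop.1 (h.and ((tendsto_order.1 he).2 (ε / (2 * C)) (by positivity)))
    have h1 := ev_of_tail (f := fun n => |d n - dl n|) (fun _ => abs_nonneg _) (a := ε / 2) n1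
      (fun η hη => Eventually.of_forall fun N => ?_) (ε / 2) (by positivity)
    · filter_upwards [h1] with N hN
      linarith
    · have h2 : ∑ n ∈ Ioc n1 N, |d n - dl n| ≤ ∑ n ∈ Ioc n1 N, ε / (2 * C) * |dl n| := by
        refine Finset.sum_le_sum fun n hn => ?_
        obtain ⟨k1, k2⟩ := hn1 n (Finset.mem_Ioc.1 hn).1.le
        exact k1.trans (mul_le_mul_of_nonneg_right k2.le (abs_nonneg _))
      have h3 : ∑ n ∈ Ioc n1 N, |dl n| ≤ ∑ n ∈ Icc 1 N, |dl n| :=
        Finset.sum_le_sum_of_subset_of_nonneg (fun n hn => by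
          rw [Finset.mem_Ioc] at hn
          rw [Finset.mem_Icc]
          omega) fun _ _ _ => abs_nonneg _
      rw [← Finset.mul_sum] at h2
      have h4 : ε / (2 * C) * ∑ n ∈ Ioc n1 N, |dl n| ≤ ε / (2 * C) * (C * N) :=
        mul_le_mul_of_nonneg_left (h3.trans (hm N)) (by positivity)
      have e1 : ε / (2 * C) * (C * N) = ε / 2 * N := by field_simp
      have h5 : 0 ≤ η * (N : ℝ) := by positivity
      have h6 : (ε / 2 + η) * (N : ℝ) = ε / 2 * N + η * N := by ring
      rw [h6]
      linarith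
  refine ⟨⟨fun P hP => lim_of_close hcls hP, fun M => ?_⟩, hcls⟩
  obtain ⟨C, hC, hm⟩ := dl_mom M
  obtain ⟨n1, hn1⟩ := Filter.eventually_atTop.1 (h.and ((tendsto_order.1 he).2 1 one_pos))
  set S0 := ∑ n ∈ Icc 1 n1, |d n| ^ (M + 1) with hS0
  have hS00 : 0 ≤ S0 := Finset.sum_nonneg fun _ _ => by positivity
  refine ⟨S0 + 2 ^ (M + 1) * C, by positivity, fun N => ?_⟩
  rcases Nat.eq_zero_or_pos N with h0 | h0
  · subst h0
    simp
  have hN1 : (1 : ℝ) ≤ N := by exact_mod_cast h0
  have h1 : ∑ n ∈ Icc 1 N, |d n| ^ (M + 1) ≤ S0 + ∑ n ∈ Icc 1 N, 2 ^ (M + 1) * |dl n| ^ (M + 1) := by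
    have h2 : ∀ n ∈ Icc 1 N, |d n| ^ (M + 1) ≤ (if n ≤ n1 then |d n| ^ (M + 1) else 0) +
        2 ^ (M + 1) * |dl n| ^ (M + 1) := by
      intro n _
      split_ifs with hn
      · have : 0 ≤ 2 ^ (M + 1) * |dl n| ^ (M + 1) := by positivity
        linarith
      · rw [zero_add, ← mul_pow]
        obtain ⟨k1, k2⟩ := hn1 n (not_le.1 hn).le
        refine pow_le_pow_left₀ (abs_nonneg _) ?_ _
        have k3 : e n * |dl n| ≤ 1 * |dl n| := mul_le_mul_of_nonneg_right k2.le (abs_nonneg _)
        have k4 := abs_sub_abs_le_abs_sub (d n) (dl n)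
        linarith
    refine (Finset.sum_le_sum h2).trans ?_
    rw [Finset.sum_add_distrib, ← Finset.sum_filter]
    refine add_le_add ?_ le_rfl
    refine Finset.sum_le_sum_of_subset_of_nonneg (fun n hn => ?_) fun _ _ _ => by positivity
    rw [Finset.mem_filter, Finset.mem_Icc] at hn
    rw [Finset.mem_Icc]
    omega
  refine h1.trans ?_
  rw [← Finset.mul_sum]
  have h2 := mul_le_mul_of_nonneg_left (hm N) (by positivity : (0 : ℝ) ≤ 2 ^ (M + 1))
  nlinarith

/-- the gaps of the normalised ordinates -/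
noncomputable def dt (n : ℕ) : ℝ :=
  SG.ord (n + 1) * Real.log (SG.ord (n + 1)) / (2 * Real.pi) - SG.ord n * Real.log (SG.ord n) / (2 * Real.pi)

lemma dt_close : ∀ᶠ n : ℕ in atTop, |dt n - dl n| ≤ (4 / Real.log (SG.ord n / (2 * Real.pi))) * |dl n| := by
  obtain ⟨T0, hT0, hsucc⟩ := LG.CU.ord_succ_le
  have hpi := Real.pi_gt_three
  have hpi4 := Real.pi_lt_four
  filter_upwards [eventually_ge_atTop 1, SG.ord_tendsto.eventually_ge_atTop (max T0 10)] with n hn hT
  have hT1 : T0 ≤ SG.ord n := (le_max_left _ _).trans hT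
  have hT2 : 10 ≤ SG.ord n := (le_max_right _ _).trans hT
  have h1 := hsucc n hn hT1
  have h2 := SG.ord_mono hn (Nat.le_succ n)
  set a := SG.ord n with ha
  set b := SG.ord (n + 1) with hb
  have ha0 : 0 < a := by linarith
  have hb0 : 0 < b := by linarith
  set l := Real.log (a / (2 * Real.pi)) with hl
  have hl0 : 0 < l := by
    apply Real.log_pos
    rw [lt_div_iff₀ (by positivity)]
    linarith
  have hdl : dl n = (b - a) / (2 * Real.pi) * l := rfl
  have hdl0 : 0 ≤ dl n := by
    rw [hdl]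
    have : 0 ≤ b - a := by linarith
    positivity
  have hla : l = Real.log a - Real.log (2 * Real.pi) := by
    rw [hl, Real.log_div ha0.ne' (by positivity)]
  have hlb : Real.log b ≤ Real.log a + Real.log 2 := by
    rw [← Real.log_mul ha0.ne' two_ne_zero]
    exact Real.log_le_log hb0 (by linarith)
  have hlab : Real.log a ≤ Real.log b := Real.log_le_log ha0 h2
  have hquo : a * (Real.log b - Real.log a) ≤ b - a := by
    have h3 := Real.log_le_sub_one_of_pos (div_pos hb0 ha0)
    rw [Real.log_div hb0.ne' ha0.ne'] at h3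
    have h4 := mul_le_mul_of_nonneg_left h3 ha0.le
    have e : a * (b / a - 1) = b - a := by
      field_simp
    rw [e] at h4
    exact h4
  have h2pi : Real.log (2 * Real.pi) ≤ 2.2 := by
    have h3 : Real.log (2 * Real.pi) ≤ Real.log 8 := Real.log_le_log (by positivity) (by linarith)
    have h4 : Real.log 8 = 3 * Real.log 2 := by
      rw [show (8 : ℝ) = 2 ^ 3 by norm_num, Real.log_pow]
      norm_num
    have := Real.log_two_lt_d9
    linarith
  have hlog2 := Real.log_two_lt_d9
  have h2pi0 : 0 ≤ Real.log (2 * Real.pi) := Real.log_nonneg (by linarith)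
  have e1 : dt n - dl n = (b * Real.log b - a * Real.log a - (b - a) * l) / (2 * Real.pi) := by
    rw [hdl]
    unfold dt
    rw [← ha, ← hb]
    ring
  have hnn : 0 ≤ b - a := by linarith
  have hup : b * Real.log b - a * Real.log a - (b - a) * l ≤ 4 * (b - a) := by
    have e2 : b * Real.log b - a * Real.log a - (b - a) * l =
        (b - a) * (Real.log b - l) + a * (Real.log b - Real.log a) := by ring
    rw [e2, hla]
    have h5 : (b - a) * (Real.log b - (Real.log a - Real.log (2 * Real.pi))) ≤ (b - a) * 3 :=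
      mul_le_mul_of_nonneg_left (by linarith) hnn
    linarith
  have hlow : 0 ≤ b * Real.log b - a * Real.log a - (b - a) * l := by
    have e2 : b * Real.log b - a * Real.log a - (b - a) * l =
        (b - a) * (Real.log b - l) + a * (Real.log b - Real.log a) := by ring
    rw [e2, hla]
    have h5 : 0 ≤ (b - a) * (Real.log b - (Real.log a - Real.log (2 * Real.pi))) :=
      mul_nonneg hnn (by linarith)
    have h6 : 0 ≤ a * (Real.log b - Real.log a) := mul_nonneg ha0.le (by linarith)
    linarith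
  rw [e1, abs_of_nonneg (by positivity), abs_of_nonneg hdl0, hdl]
  have e3 : 4 / l * ((b - a) / (2 * Real.pi) * l) = 4 * (b - a) / (2 * Real.pi) := by
    field_simp
  rw [e3]
  exact div_le_div_of_nonneg_right hup (by positivity)

theorem dt_sq : Sq dt ∧ Cls dt dl := by
  refine sq_of_close ?_ dt_close
  have h1 : Tendsto (fun n : ℕ => Real.log (SG.ord n / (2 * Real.pi))) atTop atTop :=
    Real.tendsto_log_atTop.comp (SG.ord_tendsto.atTop_div_const (by positivity))
  exact tendsto_const_nhds.div_atTop h1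

theorem dt_lim_iff (P : ProbabilityMeasure (ℤ → ℝ)) : IsLim (seen dt) P ↔ IsLim (seen dl) P :=
  ⟨lim_of_close dt_sq.2, lim_of_close dt_sq.2.symm⟩

end Pool.Agent.Q278.QR
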