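import Pool.Agent.Q278.QR.G

/-!
# Averages over neighbouring zeros and over scales, for the actual gaps (helper278)
-/

set_option autoImplicit false

namespace Pool.Agent.Q278.QR

open Finset MeasureTheory Filter Topology ProbabilityTheory
open Pool.Agent.Q278.GF
open Pool.Agent.Q278.MC (CC fc cv cm)
open Pool.Agent.Q172.PS (tra PG PG_vec P_poly sq_bound)
open _root_.Q172.ZetaLim (IsLim seen shift shift_seen continuous_shift)
open scoped ContDiff BoundedContinuousFunction

variable {k : ℕ} {f : Fin k → ℝ → ℝ} {d : ℕ → ℝ}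

/-- functions which are approximated in mean square by bounded continuous functions of mean zero -/
def Adm (f : Fin k → ℝ → ℝ) (Φ : EuclideanSpace ℝ (Fin k) → ℝ) : Prop :=
  Measurable Φ ∧ ∀ δ : ℝ, 0 < δ → ∃ (Ψ : EuclideanSpace ℝ (Fin k) →ᵇ ℝ)
    (Θ : EuclideanSpace ℝ (Fin k) → ℝ) (A : ℝ) (M : ℕ),
    ∫ x, Ψ x ∂(multivariateGaussian 0 (cm f)) = 0 ∧ Continuous Θ ∧
    (∀ x, |Θ x| ≤ A * (1 + ‖x‖) ^ M) ∧ (∀ x, (Φ x - Ψ x) ^ 2 ≤ Θ x) ∧
    ∫ x, Θ x ∂(multivariateGaussian 0 (cm f)) ≤ δ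

lemma iter_seen (x n : ℕ) : shift^[x] (seen d n) = seen d (n + x) := by
  induction x generalizing n with
  | zero => rfl
  | succ x ih =>
    rw [Function.iterate_succ_apply, shift_seen, ih]
    congr 1
    omega

lemma PG_vec_shift (hf : Fam f) {Θ : EuclideanSpace ℝ (Fin k) → ℝ} (hΘ : Continuous Θ) {A : ℝ} {M : ℕ}
    (hb : ∀ x, |Θ x| ≤ A * (1 + ‖x‖) ^ M) {L : ℝ} (hL : 0 < L) (x : ℕ) :
    PG fun q => Θ (vec f L (shift^[x] q)) := by
  have h1 := PG_vec (fam_tra hf (x / L)) hΘ hb hL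
  have e : (fun q => Θ (vec f L (shift^[x] q))) = fun q => Θ (vec (fun j => tra (f j) (x / L)) L q) := by
    funext q
    rw [vec_shift]
  rw [e]
  exact h1

/-- **averages over the neighbours, for the actual gaps** -/
theorem space_fin (hd : Sq d) (hf : Fam f) {Φ : EuclideanSpace ℝ (Fin k) → ℝ} (hΦ : Adm f Φ) {ε : ℝ}
    (hε : 0 < ε) : ∃ Λ L0 : ℕ, 1 ≤ Λ ∧ 1 ≤ L0 ∧ ∀ L R : ℕ, L0 ≤ L → Λ * L ≤ R → ∀ᶠ N : ℕ in atTop,
      (∑ n ∈ Icc 1 N, ((∑ x ∈ range R, Φ (vec f L (seen d (n + x)))) / R) ^ 2) / N ≤ ε := by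
  obtain ⟨Ψ, Θ, A, M, h0, hΘ, hb, hle, hint⟩ := hΦ.2 (ε / 16) (by positivity)
  obtain ⟨Λ, L0, hΛ, hL0, hsp⟩ := space_int hf Ψ h0 (ε := ε / 8) (by positivity)
  obtain ⟨L1, hL1, hpo⟩ := P_poly hf hΘ hb (ε := ε / 16) (by positivity)
  refine ⟨Λ, max L0 (⌈L1⌉₊ + 1), hΛ, hL0.trans (le_max_left _ _), fun L R hL hR => ?_⟩
  have hLa : L0 ≤ L := (le_max_left _ _).trans hL
  have hLb : ⌈L1⌉₊ + 1 ≤ L := (le_max_right _ _).trans hL
  have hLL1 : L1 ≤ L := (Nat.le_ceil L1).trans (by exact_mod_cast (by omega : ⌈L1⌉₊ ≤ L))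
  have hLp : (0 : ℝ) < L := by exact_mod_cast (by omega : 0 < L)
  have hRpos : 0 < R := lt_of_lt_of_le (Nat.mul_pos (by omega) (by omega)) hR
  have hR' : (0 : ℝ) < R := by exact_mod_cast hRpos
  have hF1c : Continuous fun q => ((∑ x ∈ range R, XX Ψ f L x q) / R) ^ 2 :=
    (((continuous_finsetSum _ fun x _ => XX_cont hf Ψ.continuous hLp x).div_const _)).pow 2
  have h1 := hd.emp_le (F := fun q => ((∑ x ∈ range R, XX Ψ f L x q) / R) ^ 2) hF1c (M := ‖Ψ‖ ^ 2)
    (a := ε / 8) (ε := ε / 8) (fun q => by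
      rw [abs_of_nonneg (by positivity)]
      refine (sq_avg_range R fun x => XX Ψ f L x q).trans ?_
      rw [div_le_iff₀ hR']
      refine (Finset.sum_le_sum (g := fun _ => ‖Ψ‖ ^ 2) fun i _ => ?_).trans (le_of_eq ?_)
      · rw [← sq_abs]
        exact pow_le_pow_left₀ (abs_nonneg _) (Ψ.norm_coe_le_norm _) 2
      · rw [Finset.sum_const, card_range, nsmul_eq_mul, mul_comm]) (by positivity)
    (fun P hP => hsp L R hLa hR P hP)
  have hF2 : PG fun q => (∑ x ∈ range R, Θ (vec f L (shift^[x] q))) * (R : ℝ)⁻¹ :=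
    (PG.sum _ fun x _ => PG_vec_shift hf hΘ hb hLp x).mul (PG.const _)
  have h2 := hd.le hF2 (a := ε / 8) (ε := ε / 16) (by positivity) fun P hP => by
    obtain ⟨i1, i2⟩ := hpo P hP L hLL1
    have hi : ∀ x, Integrable (fun q => Θ (vec f L (shift^[x] q))) (P : Measure (ℤ → ℝ)) := fun x =>
      ((pres hP).iterate x).integrable_comp_of_integrable i1
    rw [integral_mul_const, integral_finsetSum _ fun x _ => hi x]
    have e : ∀ x ∈ range R, ∫ q, Θ (vec f L (shift^[x] q)) ∂(P : Measure (ℤ → ℝ)) =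
        ∫ q, Θ (vec f L q) ∂(P : Measure (ℤ → ℝ)) := fun x _ =>
      stat_int hP x (G := fun q => Θ (vec f L q)) i1.aestronglyMeasurable
    rw [Finset.sum_congr rfl e, Finset.sum_const, card_range, nsmul_eq_mul, mul_comm (R : ℝ), mul_assoc,
      mul_inv_cancel₀ hR'.ne', mul_one]
    have := (abs_le.1 i2).2
    linarith
  filter_upwards [h1, h2, eventually_ge_atTop 1] with N k1 k2 hN1
  have hN : (0 : ℝ) < N := by exact_mod_cast hN1
  have h3 : ∑ n ∈ Icc 1 N, ((∑ x ∈ range R, Φ (vec f L (seen d (n + x)))) / R) ^ 2 ≤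
      ∑ n ∈ Icc 1 N, (2 * ((∑ x ∈ range R, XX Ψ f L x (seen d n)) / R) ^ 2 +
        2 * ((∑ x ∈ range R, Θ (vec f L (shift^[x] (seen d n)))) * (R : ℝ)⁻¹)) := by
    refine Finset.sum_le_sum fun n _ => ?_
    have e1 : (∑ x ∈ range R, Φ (vec f L (seen d (n + x)))) / R =
        (∑ x ∈ range R, XX Ψ f L x (seen d n)) / R +
        (∑ x ∈ range R, (Φ (vec f L (seen d (n + x))) - Ψ (vec f L (seen d (n + x))))) / R := by
      rw [← add_div, ← Finset.sum_add_distrib]
      congr 1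
      refine Finset.sum_congr rfl fun x _ => ?_
      unfold XX
      rw [iter_seen]
      ring
    have h4 := sq_avg_range R fun x => Φ (vec f L (seen d (n + x))) - Ψ (vec f L (seen d (n + x)))
    have h5 : (∑ x ∈ range R, (Φ (vec f L (seen d (n + x))) - Ψ (vec f L (seen d (n + x)))) ^ 2) / R ≤
        (∑ x ∈ range R, Θ (vec f L (shift^[x] (seen d n)))) * (R : ℝ)⁻¹ := by
      rw [div_eq_mul_inv]
      refine mul_le_mul_of_nonneg_right (Finset.sum_le_sum fun x _ => ?_) (by positivity)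
      rw [iter_seen]
      exact hle _
    rw [e1]
    nlinarith [sq_nonneg ((∑ x ∈ range R, XX Ψ f L x (seen d n)) / R -
      (∑ x ∈ range R, (Φ (vec f L (seen d (n + x))) - Ψ (vec f L (seen d (n + x))))) / R)]
  rw [Finset.sum_add_distrib, ← Finset.mul_sum, ← Finset.mul_sum] at h3
  rw [div_le_iff₀ hN] at k1 k2 ⊢
  have hpos : 0 < ε * N := by positivity
  linarith

/-- Bessel's inequality for nearly orthogonal vectors -/
lemma bessel {ι : Type*} (s : Finset ι) (w : ι → ℝ) (x : ℕ → ι → ℝ) {m : ℕ} {D η : ℝ} (hη0 : 0 ≤ η)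
    (hD0 : 0 ≤ D) (hD : ∀ i < m, ∑ n ∈ s, x i n ^ 2 ≤ D)
    (hη : ∀ i < m, ∀ j < m, i ≠ j → |∑ n ∈ s, x i n * x j n| ≤ η) :
    ∑ i ∈ range m, (∑ n ∈ s, w n * x i n) ^ 2 ≤ (∑ n ∈ s, w n ^ 2) * (D + m * η) := by
  set a : ℕ → ℝ := fun i => ∑ n ∈ s, w n * x i n with ha
  set S := ∑ i ∈ range m, a i ^ 2 with hS
  set W := ∑ n ∈ s, w n ^ 2 with hW
  have hS0 : 0 ≤ S := Finset.sum_nonneg fun i _ => sq_nonneg _
  have hW0 : 0 ≤ W := Finset.sum_nonneg fun i _ => sq_nonneg _
  have h1 : S = ∑ n ∈ s, w n * ∑ i ∈ range m, a i * x i n := by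
    rw [hS]
    simp only [Finset.mul_sum]
    rw [Finset.sum_comm]
    refine Finset.sum_congr rfl fun i _ => ?_
    rw [pow_two]
    nth_rewrite 2 [ha]
    simp only
    rw [Finset.mul_sum]
    refine Finset.sum_congr rfl fun n _ => ?_
    ring
  have h2 : S ^ 2 ≤ W * ∑ n ∈ s, (∑ i ∈ range m, a i * x i n) ^ 2 := by
    nth_rewrite 1 [h1]
    exact Finset.sum_mul_sq_le_sq_mul_sq _ _ _
  have h3 : ∑ n ∈ s, (∑ i ∈ range m, a i * x i n) ^ 2 ≤ S * (D + m * η) := by
    have e1 : ∑ n ∈ s, (∑ i ∈ range m, a i * x i n) ^ 2 =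
        ∑ i ∈ range m, ∑ j ∈ range m, a i * a j * ∑ n ∈ s, x i n * x j n := by
      have e0 : ∀ n, (∑ i ∈ range m, a i * x i n) ^ 2 =
          ∑ i ∈ range m, ∑ j ∈ range m, a i * a j * (x i n * x j n) := by
        intro n
        rw [pow_two, Finset.sum_mul_sum]
        refine Finset.sum_congr rfl fun i _ => Finset.sum_congr rfl fun j _ => ?_
        ring
      simp only [e0, Finset.mul_sum]
      rw [Finset.sum_comm]
      refine Finset.sum_congr rfl fun i _ => ?_
      rw [Finset.sum_comm]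
    rw [e1]
    have h4 : ∀ i ∈ range m, ∑ j ∈ range m, a i * a j * ∑ n ∈ s, x i n * x j n ≤
        a i ^ 2 * D + η * (|a i| * ∑ j ∈ range m, |a j|) := by
      intro i hi
      have h5 : ∀ j ∈ range m, a i * a j * ∑ n ∈ s, x i n * x j n ≤
          (if j = i then a i ^ 2 * D else 0) + η * (|a i| * |a j|) := by
        intro j hj
        split_ifs with hij
        · subst hij
          have h6 := mul_le_mul_of_nonneg_left (hD j (Finset.mem_range.1 hj)) (sq_nonneg (a j))
          have h7 : 0 ≤ η * (|a j| * |a j|) := by positivity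
          have e2 : a j * a j * ∑ n ∈ s, x j n * x j n = a j ^ 2 * ∑ n ∈ s, x j n ^ 2 := by
            simp only [pow_two]
          rw [e2]
          linarith
        · rw [zero_add]
          have h6 := hη i (Finset.mem_range.1 hi) j (Finset.mem_range.1 hj) (Ne.symm hij)
          refine (le_abs_self _).trans ?_
          rw [abs_mul, abs_mul, mul_comm]
          exact mul_le_mul_of_nonneg_right h6 (by positivity)
      refine (Finset.sum_le_sum h5).trans (le_of_eq ?_)
      rw [Finset.sum_add_distrib, Finset.sum_ite_eq' (range m) i, if_pos hi, ← Finset.mul_sum,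
        ← Finset.mul_sum]
    refine (Finset.sum_le_sum h4).trans ?_
    rw [Finset.sum_add_distrib, ← Finset.sum_mul, ← Finset.mul_sum, ← Finset.sum_mul]
    have h6 : (∑ i ∈ range m, |a i|) * (∑ j ∈ range m, |a j|) ≤ m * S := by
      have h7 := sq_sum_le_card_mul_sum_sq (s := range m) (f := fun i => |a i|)
      rw [card_range] at h7
      simp only [sq_abs] at h7
      rw [← pow_two]
      exact h7
    have h8 := mul_le_mul_of_nonneg_left h6 hη0
    calc S * D + η * ((∑ i ∈ range m, |a i|) * ∑ j ∈ range m, |a j|) ≤ S * D + η * (m * S) := by linarith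
      _ = _ := by ring
  have h4 : S * S ≤ S * (W * (D + m * η)) := by
    rw [← pow_two]
    refine h2.trans ((mul_le_mul_of_nonneg_left h3 hW0).trans (le_of_eq ?_))
    ring
  rcases hS0.eq_or_lt with h | h
  · rw [← h]
    positivity
  · exact le_of_mul_le_mul_left h4 h

/-- sums over windows from sums over sparse progressions -/
lemma scale_sum {A : ℕ → ℝ} {K K' : ℝ} (h0 : ∀ j, 0 ≤ A j) (hK' : ∀ j, A j ≤ K') (hK0 : 0 ≤ K) {m d j0 J : ℕ}
    (hm : 0 < m) (hJ : 0 < J) (hA : ∀ j, j0 ≤ j → j < J → ∑ i ∈ range m, A (j + i * d) ≤ K) :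
    (∑ j ∈ range J, A j) / J ≤ K / m + (j0 + m * d) * K' / J := by
  have hm' : (0 : ℝ) < m := by exact_mod_cast hm
  have hJ' : (0 : ℝ) < J := by exact_mod_cast hJ
  have hK'0 : 0 ≤ K' := (h0 0).trans (hK' 0)
  have h1 : ∀ i ∈ range m, ∑ j ∈ range J, A j ≤ ∑ j ∈ range J, A (j + i * d) + m * d * K' := by
    intro i hi
    have h2 : ∑ j ∈ range J, A j ≤ ∑ j ∈ range (i * d + J), A j :=
      Finset.sum_le_sum_of_subset_of_nonneg (fun j hj => by
        rw [Finset.mem_range] at hj ⊢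
        omega) fun j _ _ => h0 j
    rw [Finset.sum_range_add] at h2
    have h3 : ∑ j ∈ range (i * d), A j ≤ (i * d : ℕ) * K' := by
      refine (Finset.sum_le_sum fun j _ => hK' j).trans (le_of_eq ?_)
      rw [Finset.sum_const, card_range, nsmul_eq_mul]
    have h4 : ((i * d : ℕ) : ℝ) ≤ m * d := by
      push_cast
      exact mul_le_mul_of_nonneg_right (by exact_mod_cast (Finset.mem_range.1 hi).le) (Nat.cast_nonneg _)
    have h5 := mul_le_mul_of_nonneg_right h4 hK'0
    have h6 : ∑ x ∈ range J, A (i * d + x) = ∑ j ∈ range J, A (j + i * d) :=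
      Finset.sum_congr rfl fun j _ => by rw [add_comm]
    rw [h6] at h2
    linarith
  have h2 := Finset.sum_le_sum h1
  rw [Finset.sum_const, card_range, nsmul_eq_mul, Finset.sum_add_distrib, Finset.sum_const, card_range,
    nsmul_eq_mul, Finset.sum_comm] at h2
  have h3 : ∑ j ∈ range J, ∑ i ∈ range m, A (j + i * d) ≤ J * K + j0 * (m * K') := by
    have h4 : ∀ j ∈ range J, ∑ i ∈ range m, A (j + i * d) ≤ K + if j < j0 then m * K' else 0 := by
      intro j hj
      split_ifs with hj0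
      · have h5 : ∑ i ∈ range m, A (j + i * d) ≤ m * K' := by
          refine (Finset.sum_le_sum fun i _ => hK' _).trans (le_of_eq ?_)
          rw [Finset.sum_const, card_range, nsmul_eq_mul]
        linarith
      · rw [add_zero]
        exact hA j (not_lt.1 hj0) (Finset.mem_range.1 hj)
    refine (Finset.sum_le_sum h4).trans ?_
    rw [Finset.sum_add_distrib, Finset.sum_const, card_range, nsmul_eq_mul, ← Finset.sum_filter,
      Finset.sum_const, nsmul_eq_mul]
    have h5 : ((range J).filter fun x => x < j0).card ≤ j0 := by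
      refine (Finset.card_le_card (t := range j0) fun x hx => ?_).trans (by rw [card_range])
      rw [Finset.mem_filter] at hx
      exact Finset.mem_range.2 hx.2
    have h6 : (((range J).filter fun x => x < j0).card : ℝ) ≤ j0 := by exact_mod_cast h5
    have := mul_le_mul_of_nonneg_right h6 (by positivity : 0 ≤ (m : ℝ) * K')
    linarith
  have e : K / m + (j0 + m * d) * K' / J = (J * K + j0 * (m * K') + m * (m * d * K')) / (m * J) := by
    field_simp
    ring
  rw [e, div_le_div_iff₀ hJ' (by positivity)]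
  have h7 : (m : ℝ) * ∑ j ∈ range J, A j ≤ J * K + j0 * (m * K') + m * (m * d * K') := by linarith
  calc (∑ j ∈ range J, A j) * (m * J) = ((m : ℝ) * ∑ j ∈ range J, A j) * J := by ring
    _ ≤ _ := mul_le_mul_of_nonneg_right h7 hJ'.le

end Pool.Agent.Q278.QR
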