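import Pool.Agent.Q278.QR.H

/-!
# Averages over scales, for the actual gaps (helper278)
-/

set_option autoImplicit false

namespace Pool.Agent.Q278.QR

open Finset MeasureTheory Filter Topology ProbabilityTheory
open Pool.Agent.Q278.GF
open Pool.Agent.Q278.MC (CC fc cv cm)
open Pool.Agent.Q172.PS (PG PG_vec P_poly)
open _root_.Q172.ZetaLim (IsLim seen)
open scoped ContDiff BoundedContinuousFunction

variable {k : ℕ} {f : Fin k → ℝ → ℝ} {d : ℕ → ℝ}

/-- different scales decorrelate, for the limit processes -/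
lemma scale_pair (hf : Fam f) (Ψ : EuclideanSpace ℝ (Fin k) →ᵇ ℝ)
    (h0 : ∫ x, Ψ x ∂(multivariateGaussian 0 (cm f)) = 0) {s : ℝ} (hs : 1 < s) {η : ℝ} (hη : 0 < η)
    (m : ℕ) : ∃ D j0 : ℕ, 1 ≤ D ∧ ∀ j, j0 ≤ j → ∀ i < m, ∀ i' < m, i ≠ i' →
      ∀ P : ProbabilityMeasure (ℤ → ℝ), IsLim (seen dl) P →
        |∫ q, Ψ (vec f (s ^ (j + i * D)) q) * Ψ (vec f (s ^ (j + i' * D)) q) ∂(P : Measure (ℤ → ℝ))| ≤ η := by
  have hs0 : 0 < s := by linarith
  have hse : ∀ e : ℕ, 0 < s ^ e := fun e => by positivity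
  obtain ⟨e0, he0⟩ := pair_P hf (h := fun e => fun j => dil (f j) (s ^ e)) (fun e => fam_dil hf (hse e))
    (fun e i j => cv_dil_dil _ _ (hse e))
    (fun i j => cv_dil_zero (cc_of (hf i).1 (hf i).2) (cc_of (hf j).1 (hf j).2) hs) Ψ h0 hη
  have hLf : ∀ e : ℕ, ∃ L0 : ℝ, 1 ≤ L0 ∧ (e0 ≤ e → ∀ L : ℝ, L0 ≤ L →
      ∀ P : ProbabilityMeasure (ℤ → ℝ), IsLim (seen dl) P →
        |∫ q, Ψ (vec f L q) * Ψ (vec (fun j => dil (f j) (s ^ e)) L q) ∂(P : Measure (ℤ → ℝ))| ≤ η) := by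
    intro e
    by_cases h : e0 ≤ e
    · obtain ⟨L0, h1, h2⟩ := he0 e h
      exact ⟨L0, h1, fun _ => h2⟩
    · exact ⟨1, le_rfl, fun h' => absurd h' h⟩
  choose Lf hLf1 hLf2 using hLf
  set D := max e0 1 with hD
  have hD1 : 1 ≤ D := le_max_right _ _
  set S : ℝ := ∑ i ∈ range m, Lf (i * D) with hS
  have hSi : ∀ i < m, Lf (i * D) ≤ S := fun i hi =>
    Finset.single_le_sum (f := fun i => Lf (i * D)) (fun i _ => by linarith [hLf1 (i * D)])
      (Finset.mem_range.2 hi)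
  obtain ⟨j0, hj0⟩ := pow_unbounded_of_one_lt S hs
  refine ⟨D, j0, hD1, fun j hj i hi i' hi' hii P hP => ?_⟩
  have main : ∀ i i' : ℕ, i < m → i' < m → i < i' →
      |∫ q, Ψ (vec f (s ^ (j + i * D)) q) * Ψ (vec f (s ^ (j + i' * D)) q) ∂(P : Measure (ℤ → ℝ))| ≤ η := by
    intro i i' hi hi' hii
    have e1 : s ^ (j + i' * D) = s ^ ((i' - i) * D) * s ^ (j + i * D) := by
      rw [← pow_add]
      congr 1
      obtain ⟨t, rfl⟩ := Nat.exists_eq_add_of_lt hii
      have : i + t + 1 - i = t + 1 := by omega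
      rw [this]
      ring
    rw [e1]
    simp only [vec_dil]
    refine hLf2 ((i' - i) * D) ?_ _ ?_ P hP
    · calc e0 ≤ D := le_max_left _ _
        _ = 1 * D := (one_mul D).symm
        _ ≤ (i' - i) * D := Nat.mul_le_mul_right D (by omega)
    · refine (hSi (i' - i) (by omega)).trans (hj0.le.trans ?_)
      exact pow_le_pow_right₀ hs.le (by omega)
  rcases Nat.lt_or_gt_of_ne hii with h | h
  · exact main i i' hi hi' h
  · have := main i' i hi' hi h
    simpa only [mul_comm] using this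

/-- **averages over scales, for the actual gaps, with arbitrary weights** -/
theorem scale_fin (hd : Sq d) (hf : Fam f) {Φ : EuclideanSpace ℝ (Fin k) → ℝ} (hΦ : Adm f Φ) {s : ℝ}
    (hs : 1 < s) {ε : ℝ} (hε : 0 < ε) : ∃ J0 : ℕ, 1 ≤ J0 ∧ ∀ J, J0 ≤ J → ∀ᶠ N : ℕ in atTop,
      ∀ w : ℕ → ℝ, (∑ j ∈ range J, ((∑ n ∈ Icc 1 N, w n * Φ (vec f (s ^ j) (seen d n))) / N) ^ 2) / J ≤
        ε * ((∑ n ∈ Icc 1 N, w n ^ 2) / N) := by
  have hs0 : 0 < s := by linarith
  have hsj : ∀ j : ℕ, 0 < s ^ j := fun j => by positivity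
  obtain ⟨Ψ, Θ, A, M, h0, hΘ, hb, hle, hint⟩ := hΦ.2 (ε / 32) (by positivity)
  set B : ℝ := ‖Ψ‖ with hB
  have hB0 : 0 ≤ B := norm_nonneg _
  obtain ⟨m, hm⟩ := exists_nat_gt (16 * B ^ 2 / ε)
  have hm0 : (0 : ℝ) < m := lt_of_le_of_lt (by positivity) hm
  have hm1 : 0 < m := by exact_mod_cast hm0
  have hBm : B ^ 2 / m ≤ ε / 16 := by
    rw [div_lt_iff₀ hε] at hm
    rw [div_le_iff₀ hm0]
    linarith
  obtain ⟨D, j0, hD1, hpair⟩ := scale_pair hf Ψ h0 hs (η := ε / 32) (by positivity) m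
  obtain ⟨L1, hL1, hpo⟩ := P_poly hf hΘ hb (ε := ε / 32) (by positivity)
  obtain ⟨j1, hj1⟩ := pow_unbounded_of_one_lt L1 hs
  have hPΘ : ∀ j : ℕ, PG fun q => Θ (vec f (s ^ j) q) := fun j => PG_vec hf hΘ hb (hsj j)
  have hPΨ : ∀ j : ℕ, PG fun q => Ψ (vec f (s ^ j) q) := fun j =>
    PG_vec hf Ψ.continuous (A := B) (N := 0) (fun x => by
      rw [pow_zero, mul_one]
      exact Ψ.norm_coe_le_norm x) (hsj j)
  choose C hC hCb using fun j => hd.bounded (hPΘ j)
  set CC := ∑ j ∈ range j1, C j with hCC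
  have hCC0 : 0 ≤ CC := Finset.sum_nonneg fun j _ => (hC j).le
  obtain ⟨J0, hJ0⟩ := exists_nat_gt (max (16 * ((j0 + m * D) * B ^ 2) / ε) (32 * CC / ε))
  refine ⟨J0 + 1, by omega, fun J hJ => ?_⟩
  have hJpos : 0 < J := by omega
  have hJ' : (0 : ℝ) < J := by exact_mod_cast hJpos
  have hJJ : (J0 : ℝ) ≤ J := by exact_mod_cast (by omega : J0 ≤ J)
  have hJa : (j0 + m * D) * B ^ 2 / J ≤ ε / 16 := by
    have h1 := ((le_max_left _ _).trans_lt hJ0).le.trans hJJ
    rw [div_le_iff₀ hε] at h1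
    rw [div_le_iff₀ hJ']
    linarith
  have hJb : CC / J ≤ ε / 32 := by
    have h1 := ((le_max_right _ _).trans_lt hJ0).le.trans hJJ
    rw [div_le_iff₀ hε] at h1
    rw [div_le_iff₀ hJ']
    linarith
  -- the correlations at finite level
  have ev1 : ∀ᶠ N : ℕ in atTop, ∀ j ∈ range J, ∀ i ∈ range m, ∀ i' ∈ range m, j0 ≤ j → i ≠ i' →
      |(∑ n ∈ Icc 1 N, Ψ (vec f (s ^ (j + i * D)) (seen d n)) * Ψ (vec f (s ^ (j + i' * D)) (seen d n))) / (N : ℝ)|
        ≤ ε / 16 := by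
    simp only [Filter.eventually_all_finset]
    intro j _ i hi i' hi'
    by_cases hc : j0 ≤ j ∧ i ≠ i'
    · have h1 := hd.near (F := fun q => Ψ (vec f (s ^ (j + i * D)) q) * Ψ (vec f (s ^ (j + i' * D)) q))
        ((hPΨ _).mul (hPΨ _)) (a := 0) (ε := ε / 32) (by positivity) fun P hP => by
          rw [sub_zero]
          exact hpair j hc.1 i (Finset.mem_range.1 hi) i' (Finset.mem_range.1 hi') hc.2 P hP
      filter_upwards [h1] with N hN _ _
      rw [sub_zero] at hN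
      linarith
    · exact Eventually.of_forall fun N h1 h2 => absurd ⟨h1, h2⟩ hc
  have ev2 : ∀ᶠ N : ℕ in atTop, ∀ j ∈ range J, j1 ≤ j →
      (∑ n ∈ Icc 1 N, Θ (vec f (s ^ j) (seen d n))) / (N : ℝ) ≤ 3 * ε / 32 := by
    rw [Filter.eventually_all_finset]
    intro j _
    by_cases hc : j1 ≤ j
    · have h1 := hd.le (hPΘ j) (a := ε / 16) (ε := ε / 32) (by positivity) fun P hP => by
        obtain ⟨_, i2⟩ := hpo P hP (s ^ j) (hj1.le.trans (pow_le_pow_right₀ hs.le hc))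
        have := (abs_le.1 i2).2
        linarith
      filter_upwards [h1] with N hN _
      linarith
    · exact Eventually.of_forall fun N h1 => absurd h1 hc
  filter_upwards [ev1, ev2, eventually_ge_atTop 1] with N k1 k2 hN1 w
  have hN : (0 : ℝ) < N := by exact_mod_cast hN1
  set W := (∑ n ∈ Icc 1 N, w n ^ 2) / N with hW
  have hW0 : 0 ≤ W := by
    rw [hW]
    have : 0 ≤ ∑ n ∈ Icc 1 N, w n ^ 2 := Finset.sum_nonneg fun n _ => sq_nonneg _
    positivity
  have hWs : ∑ n ∈ Icc 1 N, w n ^ 2 = W * N := by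
    rw [hW]
    field_simp
  set a : ℕ → ℝ := fun j => (∑ n ∈ Icc 1 N, w n * Ψ (vec f (s ^ j) (seen d n))) / N with ha
  set b : ℕ → ℝ := fun j => (∑ n ∈ Icc 1 N, w n * (Φ (vec f (s ^ j) (seen d n)) -
    Ψ (vec f (s ^ j) (seen d n)))) / N with hbd
  have hab : ∀ j, ((∑ n ∈ Icc 1 N, w n * Φ (vec f (s ^ j) (seen d n))) / N) ^ 2 ≤ 2 * a j ^ 2 + 2 * b j ^ 2 := by
    intro j
    have e : (∑ n ∈ Icc 1 N, w n * Φ (vec f (s ^ j) (seen d n))) / N = a j + b j := by
      rw [ha, hbd]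
      simp only
      rw [← add_div, ← Finset.sum_add_distrib]
      congr 1
      refine Finset.sum_congr rfl fun n _ => ?_
      ring
    rw [e]
    nlinarith [sq_nonneg (a j - b j)]
  have hΨsq : ∀ j, ∑ n ∈ Icc 1 N, Ψ (vec f (s ^ j) (seen d n)) ^ 2 ≤ B ^ 2 * N := by
    intro j
    refine (Finset.sum_le_sum (g := fun _ => B ^ 2) fun n _ => ?_).trans (le_of_eq ?_)
    · rw [← sq_abs]
      exact pow_le_pow_left₀ (abs_nonneg _) (Ψ.norm_coe_le_norm _) 2
    · rw [Finset.sum_const, Nat.card_Icc, nsmul_eq_mul, Nat.add_sub_cancel, mul_comm]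
  have ha2 : ∀ j, a j ^ 2 ≤ W * B ^ 2 := by
    intro j
    rw [ha]
    simp only
    rw [div_pow, div_le_iff₀ (by positivity)]
    have h1 := Finset.sum_mul_sq_le_sq_mul_sq (Icc 1 N) w fun n => Ψ (vec f (s ^ j) (seen d n))
    refine h1.trans ?_
    rw [hWs]
    calc W * N * ∑ n ∈ Icc 1 N, Ψ (vec f (s ^ j) (seen d n)) ^ 2 ≤ W * N * (B ^ 2 * N) :=
          mul_le_mul_of_nonneg_left (hΨsq j) (by positivity)
      _ = _ := by ring
  have hbes : ∀ j, j0 ≤ j → j < J → ∑ i ∈ range m, a (j + i * D) ^ 2 ≤ W * (B ^ 2 + m * (ε / 16)) := by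
    intro j hj hjJ
    have h1 := bessel (Icc 1 N) w (fun i n => Ψ (vec f (s ^ (j + i * D)) (seen d n))) (m := m)
      (D := B ^ 2 * N) (η := ε / 16 * N) (by positivity) (by positivity) (fun i _ => hΨsq _)
      (fun i hi i' hi' hii => by
        have h2 := k1 j (Finset.mem_range.2 hjJ) i (Finset.mem_range.2 hi) i' (Finset.mem_range.2 hi') hj hii
        rw [abs_div, abs_of_pos hN, div_le_iff₀ hN] at h2
        exact h2)
    have e : ∑ i ∈ range m, a (j + i * D) ^ 2 =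
        (∑ i ∈ range m, (∑ n ∈ Icc 1 N, w n * Ψ (vec f (s ^ (j + i * D)) (seen d n))) ^ 2) / (N : ℝ) ^ 2 := by
      rw [Finset.sum_div]
      refine Finset.sum_congr rfl fun i _ => ?_
      rw [← div_pow]
    rw [e, div_le_iff₀ (by positivity)]
    refine h1.trans (le_of_eq ?_)
    rw [hWs]
    ring
  have hA := scale_sum (A := fun j => a j ^ 2) (K := W * (B ^ 2 + m * (ε / 16))) (K' := W * B ^ 2)
    (fun j => sq_nonneg _) ha2 (by positivity) hm1 hJpos hbes
  have hA2 : (∑ j ∈ range J, a j ^ 2) / J ≤ W * (3 * ε / 16) := by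
    refine hA.trans ?_
    have e : W * (B ^ 2 + m * (ε / 16)) / m + (j0 + m * D) * (W * B ^ 2) / J =
        W * (B ^ 2 / m + ε / 16 + (j0 + m * D) * B ^ 2 / J) := by
      field_simp
    rw [e]
    exact mul_le_mul_of_nonneg_left (by linarith) hW0
  have hb2 : ∀ j ∈ range J, b j ^ 2 ≤ W * (3 * ε / 32) + (if j < j1 then W * C j else 0) := by
    intro j hj
    have h1 : b j ^ 2 ≤ W * ((∑ n ∈ Icc 1 N, Θ (vec f (s ^ j) (seen d n))) / N) := by
      rw [hbd]
      simp only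
      rw [div_pow, div_le_iff₀ (by positivity)]
      have h2 := Finset.sum_mul_sq_le_sq_mul_sq (Icc 1 N) w fun n =>
        Φ (vec f (s ^ j) (seen d n)) - Ψ (vec f (s ^ j) (seen d n))
      refine h2.trans ?_
      rw [hWs]
      calc W * N * ∑ n ∈ Icc 1 N, (Φ (vec f (s ^ j) (seen d n)) - Ψ (vec f (s ^ j) (seen d n))) ^ 2 ≤
          W * N * ∑ n ∈ Icc 1 N, Θ (vec f (s ^ j) (seen d n)) :=
            mul_le_mul_of_nonneg_left (Finset.sum_le_sum fun n _ => hle _) (by positivity)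
        _ = _ := by field_simp
    split_ifs with hjj
    · have h2 : (∑ n ∈ Icc 1 N, Θ (vec f (s ^ j) (seen d n))) / N ≤ C j := by
        rw [div_le_iff₀ hN]
        exact (Finset.sum_le_sum fun n _ => le_abs_self _).trans (hCb j N)
      have h3 := mul_le_mul_of_nonneg_left h2 hW0
      have h4 : 0 ≤ W * (3 * ε / 32) := by positivity
      linarith
    · have h3 := mul_le_mul_of_nonneg_left (k2 j hj (not_lt.1 hjj)) hW0
      linarith
  have hB2 : (∑ j ∈ range J, b j ^ 2) / J ≤ W * (ε / 8) := by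
    have h1 := Finset.sum_le_sum hb2
    rw [Finset.sum_add_distrib, Finset.sum_const, card_range, nsmul_eq_mul, ← Finset.sum_filter] at h1
    have h2 : ∑ j ∈ (range J).filter (fun j => j < j1), W * C j ≤ W * CC := by
      rw [hCC, Finset.mul_sum]
      refine Finset.sum_le_sum_of_subset_of_nonneg (fun j hj => ?_) fun j _ _ =>
        mul_nonneg hW0 (hC j).le
      rw [Finset.mem_filter] at hj
      exact Finset.mem_range.2 hj.2
    rw [div_le_iff₀ hJ']
    have h3 : W * CC ≤ W * (ε / 32 * J) := by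
      rw [div_le_iff₀ hJ'] at hJb
      exact mul_le_mul_of_nonneg_left hJb hW0
    nlinarith
  have hfin : (∑ j ∈ range J, ((∑ n ∈ Icc 1 N, w n * Φ (vec f (s ^ j) (seen d n))) / N) ^ 2) / J ≤
      2 * ((∑ j ∈ range J, a j ^ 2) / J) + 2 * ((∑ j ∈ range J, b j ^ 2) / J) := by
    rw [← mul_div_assoc, ← mul_div_assoc, ← add_div]
    refine div_le_div_of_nonneg_right ?_ hJ'.le
    rw [Finset.mul_sum, Finset.mul_sum, ← Finset.sum_add_distrib]
    exact Finset.sum_le_sum fun j _ => hab j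
  refine hfin.trans ?_
  have : 0 ≤ W * ε := by positivity
  nlinarith

end Pool.Agent.Q278.QR
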