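import Pool.Agent.Q278.QR.H2

/-!
# Limit processes: functions of polynomial growth and distribution functions (helper278)
-/

set_option autoImplicit false

namespace Pool.Agent.Q278.QR

open Finset MeasureTheory Filter Topology ProbabilityTheory
open Pool.Agent.Q278.GF
open Pool.Agent.Q278.MC (CC fc cv cm cm_pos cv_pos)
open Pool.Agent.Q172.PS (PG PG_vec P_poly sq_bound cs)
open Pool.Agent.Q278.KM
open _root_.Q172.ZetaLim (IsLim seen shift)
open scoped ContDiff BoundedContinuousFunction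

variable {k : ℕ} {f : Fin k → ℝ → ℝ}

/-- admissible functions are square integrable at large scales, and close to bounded ones -/
lemma adm_P (hf : Fam f) {Φ : EuclideanSpace ℝ (Fin k) → ℝ} (hΦ : Adm f Φ) {δ : ℝ} (hδ : 0 < δ) :
    ∃ (Ψ : EuclideanSpace ℝ (Fin k) →ᵇ ℝ) (L0 : ℝ), 1 ≤ L0 ∧
      ∫ x, Ψ x ∂(multivariateGaussian 0 (cm f)) = 0 ∧
      ∀ P : ProbabilityMeasure (ℤ → ℝ), IsLim (seen dl) P → ∀ L : ℝ, L0 ≤ L →
        MemLp (fun q => Φ (vec f L q)) 2 (P : Measure (ℤ → ℝ)) ∧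
        ∫ q, (Φ (vec f L q) - Ψ (vec f L q)) ^ 2 ∂(P : Measure (ℤ → ℝ)) ≤ δ := by
  obtain ⟨Ψ, Θ, A, M, h0, hΘ, hb, hle, hint⟩ := hΦ.2 (δ / 2) (by positivity)
  obtain ⟨L1, hL1, hpo⟩ := P_poly hf hΘ hb (ε := δ / 2) (by positivity)
  refine ⟨Ψ, L1, hL1, h0, fun P hP L hL => ?_⟩
  have hLp : 0 < L := by linarith
  obtain ⟨i1, i2⟩ := hpo P hP L hL
  have hmΨ : Measurable fun q => Ψ (vec f L q) := (Ψ.continuous.comp (vec_cont hf hLp)).measurable
  have hmΦ : Measurable fun q => Φ (vec f L q) := hΦ.1.comp (vec_cont hf hLp).measurable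
  have hΨ : MemLp (fun q => Ψ (vec f L q)) 2 (P : Measure (ℤ → ℝ)) :=
    bdd_memLp hmΨ fun q => Ψ.norm_coe_le_norm _
  have hi : Integrable (fun q => (Φ (vec f L q) - Ψ (vec f L q)) ^ 2) (P : Measure (ℤ → ℝ)) :=
    i1.mono' ((hmΦ.sub hmΨ).pow_const 2).aestronglyMeasurable (Eventually.of_forall fun q => by
      rw [Real.norm_of_nonneg (sq_nonneg _)]
      exact hle _)
  have hdm : MemLp (fun q => Φ (vec f L q) - Ψ (vec f L q)) 2 (P : Measure (ℤ → ℝ)) :=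
    (memLp_two_iff_integrable_sq (hmΦ.sub hmΨ).aestronglyMeasurable).2 hi
  constructor
  · have := hdm.add hΨ
    refine this.congr_norm hmΦ.aestronglyMeasurable (Eventually.of_forall fun q => ?_)
    simp
  · refine (integral_mono hi i1 fun q => hle _).trans ?_
    have := (abs_le.1 i2).2
    linarith

/-- **mixing** -/
theorem mix_adm (hf : Fam f) {Φ : EuclideanSpace ℝ (Fin k) → ℝ} (hΦ : Adm f Φ)
    {P : ProbabilityMeasure (ℤ → ℝ)} (hP : IsLim (seen dl) P) {F : (ℤ → ℝ) → ℝ}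
    (hF : MemLp F 2 (P : Measure (ℤ → ℝ))) :
    Tendsto (fun L : ℕ => ∫ q, F q * Φ (vec f L q) ∂(P : Measure (ℤ → ℝ))) atTop (𝓝 0) := by
  rw [Metric.tendsto_atTop]
  intro ε hε
  set F2 := ∫ q, F q ^ 2 ∂(P : Measure (ℤ → ℝ)) with hF2
  have hF20 : 0 ≤ F2 := integral_nonneg fun q => sq_nonneg _
  obtain ⟨Ψ, L0, hL0, h0, hap⟩ := adm_P hf hΦ (δ := (ε / (2 * (√F2 + 1))) ^ 2) (by positivity)
  have h1 := mix_int hf Ψ h0 hP hF
  rw [Metric.tendsto_atTop] at h1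
  obtain ⟨N1, hN1⟩ := h1 (ε / 2) (by positivity)
  refine ⟨max N1 (⌈L0⌉₊ + 1), fun L hL => ?_⟩
  have k1 := hN1 L ((le_max_left _ _).trans hL)
  have hLb : ⌈L0⌉₊ + 1 ≤ L := (le_max_right _ _).trans hL
  have hLL : L0 ≤ L := (Nat.le_ceil L0).trans (by exact_mod_cast (by omega : ⌈L0⌉₊ ≤ L))
  have hLp : (0 : ℝ) < L := by linarith
  obtain ⟨m1, m2⟩ := hap P hP L hLL
  have hΨ : MemLp (fun q => Ψ (vec f L q)) 2 (P : Measure (ℤ → ℝ)) :=
    bdd_memLp (Ψ.continuous.comp (vec_cont hf hLp)).measurable fun q => Ψ.norm_coe_le_norm _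
  have hcs := cs hF (m1.sub hΨ)
  rw [dist_eq_norm, sub_zero, Real.norm_eq_abs] at k1 ⊢
  have e : ∫ q, F q * Φ (vec f L q) ∂(P : Measure (ℤ → ℝ)) =
      ∫ q, F q * Ψ (vec f L q) ∂(P : Measure (ℤ → ℝ)) +
      ∫ q, F q * (Φ (vec f L q) - Ψ (vec f L q)) ∂(P : Measure (ℤ → ℝ)) := by
    have i1 : Integrable (fun q => F q * Ψ (vec f L q)) (P : Measure (ℤ → ℝ)) := hF.integrable_mul hΨ
    have i2 : Integrable (fun q => F q * (Φ (vec f L q) - Ψ (vec f L q))) (P : Measure (ℤ → ℝ)) :=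
      hF.integrable_mul (m1.sub hΨ)
    rw [← integral_add i1 i2]
    refine integral_congr_ae (Eventually.of_forall fun q => ?_)
    show F q * Φ (vec f L q) = F q * Ψ (vec f L q) + F q * (Φ (vec f L q) - Ψ (vec f L q))
    ring
  have h2 : |∫ q, F q * (Φ (vec f L q) - Ψ (vec f L q)) ∂(P : Measure (ℤ → ℝ))| ≤
      √F2 * (ε / (2 * (√F2 + 1))) := by
    refine hcs.trans ?_
    refine mul_le_mul_of_nonneg_left ?_ (Real.sqrt_nonneg _)
    rw [← Real.sqrt_sq (by positivity : 0 ≤ ε / (2 * (√F2 + 1)))]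
    exact Real.sqrt_le_sqrt m2
  have h3 : √F2 * (ε / (2 * (√F2 + 1))) ≤ ε / 2 := by
    have hs := Real.sqrt_nonneg F2
    rw [← mul_div_assoc, div_le_div_iff₀ (by positivity) (by norm_num)]
    nlinarith
  rw [e]
  refine lt_of_le_of_lt (abs_add_le _ _) ?_
  linarith

/-- **conditional expectations given the invariant events** -/
theorem inv_adm (hf : Fam f) {Φ : EuclideanSpace ℝ (Fin k) → ℝ} (hΦ : Adm f Φ) {ε : ℝ} (hε : 0 < ε) :
    ∃ L0 : ℕ, 1 ≤ L0 ∧ ∀ L : ℕ, L0 ≤ L → ∀ P : ProbabilityMeasure (ℤ → ℝ), IsLim (seen dl) P →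
      MemLp (fun q => Φ (vec f L q)) 2 (P : Measure (ℤ → ℝ)) ∧
      ∫ q, ((P : Measure (ℤ → ℝ))[fun q => Φ (vec f L q) | MeasurableSpace.invariants shift]) q ^ 2
        ∂(P : Measure (ℤ → ℝ)) ≤ ε := by
  obtain ⟨Ψ, L1, hL1, h0, hap⟩ := adm_P hf hΦ (δ := ε / 4) (by positivity)
  obtain ⟨L0, hL0, hinv⟩ := inv_int hf Ψ h0 (ε := ε / 4) (by positivity)
  refine ⟨max L0 (⌈L1⌉₊ + 1), hL0.trans (le_max_left _ _), fun L hL P hP => ?_⟩
  have hLb : ⌈L1⌉₊ + 1 ≤ L := (le_max_right _ _).trans hL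
  have hLL : L1 ≤ L := (Nat.le_ceil L1).trans (by exact_mod_cast (by omega : ⌈L1⌉₊ ≤ L))
  have hLp : (0 : ℝ) < L := by linarith
  obtain ⟨m1, m2⟩ := hap P hP L hLL
  refine ⟨m1, ?_⟩
  have k1 := hinv L ((le_max_left _ _).trans hL) P hP
  have hΨ : MemLp (fun q => Ψ (vec f L q)) 2 (P : Measure (ℤ → ℝ)) :=
    bdd_memLp (Ψ.continuous.comp (vec_cont hf hLp)).measurable fun q => Ψ.norm_coe_le_norm _
  have hle := MeasurableSpace.invariants_le (shift)
  obtain ⟨j1, j2⟩ := cond_sq (P := (P : Measure (ℤ → ℝ))) hle hΨ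
  obtain ⟨j3, j4⟩ := cond_sq (P := (P : Measure (ℤ → ℝ))) hle (m1.sub hΨ)
  have h1 := condExp_sub (m1.integrable one_le_two) (hΨ.integrable one_le_two)
    (MeasurableSpace.invariants shift)
  obtain ⟨j5, -⟩ := cond_sq (P := (P : Measure (ℤ → ℝ))) hle m1
  have h2 : ∫ q, ((P : Measure (ℤ → ℝ))[fun q => Φ (vec f L q) | MeasurableSpace.invariants shift]) q ^ 2
      ∂(P : Measure (ℤ → ℝ)) ≤ ∫ q,
      (2 * ((P : Measure (ℤ → ℝ))[fun q => Ψ (vec f L q) | MeasurableSpace.invariants shift]) q ^ 2 +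
      2 * ((P : Measure (ℤ → ℝ))[(fun q => Φ (vec f L q)) - fun q => Ψ (vec f L q) |
        MeasurableSpace.invariants shift]) q ^ 2) ∂(P : Measure (ℤ → ℝ)) := by
    refine integral_mono_ae j5 ((j1.const_mul 2).add (j3.const_mul 2)) ?_
    filter_upwards [h1] with q hq
    rw [hq, Pi.sub_apply]
    nlinarith [sq_nonneg (((P : Measure (ℤ → ℝ))[fun q => Φ (vec f L q) | MeasurableSpace.invariants shift]) q -
      2 * ((P : Measure (ℤ → ℝ))[fun q => Ψ (vec f L q) | MeasurableSpace.invariants shift]) q)]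
  rw [integral_add (j1.const_mul 2) (j3.const_mul 2), integral_const_mul, integral_const_mul] at h2
  have h3 : ∫ q, ((fun q => Φ (vec f L q)) - fun q => Ψ (vec f L q)) q ^ 2 ∂(P : Measure (ℤ → ℝ)) ≤ ε / 4 := m2
  linarith

/-- continuous functions of polynomial growth are admissible -/
theorem adm_poly (hf : Fam f) {Φ : EuclideanSpace ℝ (Fin k) → ℝ} (hΦ : Continuous Φ) {A : ℝ} {N : ℕ}
    (hb : ∀ x, |Φ x| ≤ A * (1 + ‖x‖) ^ N) :
    Integrable Φ (multivariateGaussian 0 (cm f)) ∧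
      Adm f fun x => Φ x - ∫ y, Φ y ∂(multivariateGaussian 0 (cm f)) := by
  have hA : 0 ≤ A := by
    have h1 := (abs_nonneg _).trans (hb 0)
    rw [norm_zero, add_zero, one_pow, mul_one] at h1
    exact h1
  set G : Measure (EuclideanSpace ℝ (Fin k)) := multivariateGaussian 0 (cm f) with hG
  have hint : ∀ {Ξ : EuclideanSpace ℝ (Fin k) → ℝ}, Continuous Ξ → ∀ {A : ℝ} {N : ℕ}, 0 ≤ A →
      (∀ x, |Ξ x| ≤ A * (1 + ‖x‖) ^ N) → Integrable Ξ G := by
    intro Ξ hΞ A N hA hb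
    have hm : MemLp id ((2 * (N + 1) : ℕ) : ENNReal) (multivariateGaussian 0 (cm f)) :=
      IsGaussian.memLp_id _ _ (ENNReal.natCast_ne_top _)
    have h1 := hm.integrable_norm_pow' (p := 2 * (N + 1))
    have h2 : Integrable (fun x => Ξ x ^ 2) G := by
      refine ((((integrable_const (2 : ℝ)).add h1).const_mul (A ^ 2 * 4 ^ N))).mono'
        (hΞ.pow 2).aestronglyMeasurable (Eventually.of_forall fun x => ?_)
      rw [Real.norm_of_nonneg (by positivity)]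
      exact growth hA (norm_nonneg _) (hb x)
    have hbb : Integrable (fun x => (1 : ℝ) + Ξ x ^ 2) G := (integrable_const 1).add h2
    refine hbb.mono' hΞ.aestronglyMeasurable (Eventually.of_forall fun x => ?_)
    rw [Real.norm_eq_abs]
    nlinarith [sq_nonneg (|Ξ x| - 1), sq_abs (Ξ x), abs_nonneg (Ξ x)]
  have hΦi : Integrable Φ G := hint hΦ hA hb
  refine ⟨hΦi, ?_, fun δ hδ => ?_⟩
  · exact (hΦ.sub continuous_const).measurable
  have hpow : ∀ (x : EuclideanSpace ℝ (Fin k)) (p : ℕ), |Φ x| ^ p ≤ A ^ p * (1 + ‖x‖) ^ (N * p) := by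
    intro x p
    rw [pow_mul, ← mul_pow]
    exact pow_le_pow_left₀ (abs_nonneg _) (hb x) p
  have h4i : Integrable (fun x => Φ x ^ 4) G := hint (hΦ.pow 4) (A := A ^ 4) (N := N * 4) (by positivity)
    fun x => by
      rw [abs_pow]
      exact hpow x 4
  set Q := ∫ x, Φ x ^ 4 ∂G with hQ
  have hQ0 : 0 ≤ Q := integral_nonneg fun x => by positivity
  obtain ⟨R, hR⟩ := exists_nat_gt (4 * (Q + 1) / δ + 1)
  have hR1 : (1 : ℝ) < R := lt_of_le_of_lt (by
    have : 0 ≤ 4 * (Q + 1) / δ := by positivity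
    linarith) hR
  have hR0 : (0 : ℝ) < R := by linarith
  have hR2 : 4 * (Q + 1) ≤ δ * (R : ℝ) ^ 2 := by
    have h1 : 4 * (Q + 1) / δ ≤ R := by linarith
    rw [div_le_iff₀ hδ] at h1
    nlinarith
  have htc : Continuous fun x => tr R (Φ x) := (tr_cont R).comp hΦ
  have hti : Integrable (fun x => tr (R : ℝ) (Φ x)) G :=
    Integrable.of_bound htc.aestronglyMeasurable R (Eventually.of_forall fun x => tr_abs hR0.le _)
  set cR := ∫ x, tr (R : ℝ) (Φ x) ∂G with hcR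
  set c := ∫ x, Φ x ∂G with hc
  set Ψ0 : EuclideanSpace ℝ (Fin k) →ᵇ ℝ := BoundedContinuousFunction.ofNormedAddCommGroup
    (fun x => tr R (Φ x) - cR) (htc.sub continuous_const) (R + |cR|) (fun x => by
      rw [Real.norm_eq_abs]
      have h1 := tr_abs (R := (R : ℝ)) hR0.le (Φ x)
      exact (abs_sub _ _).trans (by linarith)) with hΨ0
  have hΨv : ∀ x, Ψ0 x = tr R (Φ x) - cR := fun x => rfl
  have hdiff : ∀ x, (Φ x - tr (R : ℝ) (Φ x)) ^ 2 ≤ Φ x ^ 4 / (R : ℝ) ^ 2 := by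
    intro x
    have h1 := tr_sub hR0 (Φ x)
    rw [← sq_abs (Φ x - tr (R : ℝ) (Φ x))]
    calc |Φ x - tr (R : ℝ) (Φ x)| ^ 2 ≤ (Φ x ^ 2 / R) ^ 2 := pow_le_pow_left₀ (abs_nonneg _) h1 2
      _ = Φ x ^ 4 / (R : ℝ) ^ 2 := by rw [div_pow, ← pow_mul]
  have hd1 : Integrable (fun x => (Φ x - tr (R : ℝ) (Φ x)) ^ 2) G :=
    (h4i.div_const _).mono' ((hΦ.sub htc).pow 2).aestronglyMeasurable (Eventually.of_forall fun x => by
      rw [Real.norm_of_nonneg (sq_nonneg _)]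
      exact hdiff x)
  have hd2 : ∫ x, (Φ x - tr (R : ℝ) (Φ x)) ^ 2 ∂G ≤ Q / (R : ℝ) ^ 2 := by
    refine (integral_mono hd1 (h4i.div_const _) hdiff).trans (le_of_eq ?_)
    rw [integral_div]
  have hcc : (c - cR) ^ 2 ≤ Q / (R : ℝ) ^ 2 := by
    have e : c - cR = ∫ x, (Φ x - tr (R : ℝ) (Φ x)) * 1 ∂G := by
      simp only [mul_one]
      rw [integral_sub hΦi hti]
    have hmm : MemLp (fun x => Φ x - tr (R : ℝ) (Φ x)) 2 G :=
      (memLp_two_iff_integrable_sq (hΦ.sub htc).aestronglyMeasurable).2 hd1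
    have h1 := cs hmm (memLp_const (1 : ℝ) (μ := G) (p := 2))
    rw [← e] at h1
    simp only [one_pow, integral_const, probReal_univ, smul_eq_mul, mul_one, Real.sqrt_one] at h1
    rw [← sq_abs]
    calc |c - cR| ^ 2 ≤ (√(∫ x, (Φ x - tr (R : ℝ) (Φ x)) ^ 2 ∂G)) ^ 2 :=
          pow_le_pow_left₀ (abs_nonneg _) h1 2
      _ = ∫ x, (Φ x - tr (R : ℝ) (Φ x)) ^ 2 ∂G :=
          Real.sq_sqrt (integral_nonneg fun x => sq_nonneg _)
      _ ≤ _ := hd2
  have hQR : Q / (R : ℝ) ^ 2 ≤ δ / 4 := by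
    rw [div_le_iff₀ (by positivity)]
    linarith
  refine ⟨Ψ0, fun x => 2 * (Φ x - tr (R : ℝ) (Φ x)) ^ 2 + 2 * (c - cR) ^ 2,
    2 * A ^ 4 + 2 * (c - cR) ^ 2, N * 4, ?_, ?_, ?_, ?_, ?_⟩
  · simp only [hΨv]
    rw [integral_sub hti (integrable_const _), integral_const, probReal_univ, one_smul, hcR, sub_self]
  · exact (((hΦ.sub htc).pow 2).const_mul 2).add continuous_const
  · intro x
    rw [abs_of_nonneg (by positivity)]
    have h1 : (Φ x - tr (R : ℝ) (Φ x)) ^ 2 ≤ A ^ 4 * (1 + ‖x‖) ^ (N * 4) := by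
      refine (hdiff x).trans ((div_le_self (by positivity) (one_le_pow₀ hR1.le)).trans ?_)
      have := hpow x 4
      rwa [Even.pow_abs (by decide)] at this
    have h2 : (1 : ℝ) ≤ (1 + ‖x‖) ^ (N * 4) := one_le_pow₀ (by linarith [norm_nonneg x])
    nlinarith [sq_nonneg (c - cR)]
  · intro x
    rw [hΨv]
    have e : Φ x - c - (tr (R : ℝ) (Φ x) - cR) = (Φ x - tr (R : ℝ) (Φ x)) - (c - cR) := by ring
    rw [e]
    nlinarith [sq_nonneg ((Φ x - tr (R : ℝ) (Φ x)) + (c - cR))]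
  · rw [integral_add (hd1.const_mul 2) (integrable_const _), integral_const_mul, integral_const,
      probReal_univ, one_smul]
    linarith

end Pool.Agent.Q278.QR
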