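import Pool.Agent.Q278.QR.I

/-!
# Distribution functions; sets of zeros (helper278)
-/

set_option autoImplicit false

namespace Pool.Agent.Q278.QR

open Finset MeasureTheory Filter Topology ProbabilityTheory
open Pool.Agent.Q278.GF
open Pool.Agent.Q278.MC (CC fc cv cm cm_pos cv_pos)
open _root_.Q172.ZetaLim (IsLim seen shift)
open scoped ContDiff BoundedContinuousFunction NNReal

/-- integrals of functions of one coordinate of the Gaussian vector -/
lemma int_one {φ : ℝ → ℝ} (h1 : ContDiff ℝ ∞ φ) (h2 : HasCompactSupport φ) {u : ℝ → ℝ} (hu : Continuous u) :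
    ∫ x, u (x.ofLp 0) ∂(multivariateGaussian 0 (cm fun _ : Fin 1 => φ)) =
      ∫ x, u x ∂(gaussianReal 0 (cv φ φ).toNNReal) := by
  have hCC : ∀ j : Fin 1, CC (fc ((fun _ : Fin 1 => φ) j)) := fun _ => cc_of h1 h2
  have hmp := measurePreserving_eval_multivariateGaussian (μ := (0 : EuclideanSpace ℝ (Fin 1)))
    (cm_pos hCC) (i := 0)
  have e1 : ((cm fun _ : Fin 1 => φ) 0 0) = cv φ φ := rfl
  rw [e1] at hmp
  have e2 : (0 : EuclideanSpace ℝ (Fin 1)) 0 = 0 := rfl
  rw [e2] at hmp
  rw [← hmp.map_eq, integral_map hmp.measurable.aemeasurable hu.aestronglyMeasurable]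

/-- **indicator functions of half lines are admissible** -/
theorem adm_ind {φ : ℝ → ℝ} (h1 : ContDiff ℝ ∞ φ) (h2 : HasCompactSupport φ) (h0 : φ ≠ 0) (y : ℝ) :
    Adm (fun _ : Fin 1 => φ) fun x => (if x.ofLp 0 ≤ y then (1 : ℝ) else 0) -
      (gaussianReal 0 (cv φ φ).toNNReal).real (Set.Iic y) := by
  have hv : 0 < cv φ φ := cv_pos (cc_of h1 h2) h0
  have hv' : (cv φ φ).toNNReal ≠ 0 := by
    rw [ne_eq, Real.toNNReal_eq_zero, not_le]
    exact hv
  obtain ⟨c, hc, hG⟩ := gauss_Iic hv'
  set G := gaussianReal 0 (cv φ φ).toNNReal with hGd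
  have hmeas0 : Measurable fun x : EuclideanSpace ℝ (Fin 1) => x.ofLp 0 := by fun_prop
  refine ⟨?_, fun δ hδ => ?_⟩
  · exact (Measurable.ite (hmeas0 measurableSet_Iic) measurable_const measurable_const).sub measurable_const
  obtain ⟨η, hη, hηc⟩ : ∃ η : ℝ, 0 < η ∧ c * η = min 1 (δ / 8) :=
    ⟨min 1 (δ / 8) / c, by positivity, by field_simp⟩
  have hcη1 : c * η ≤ 1 := hηc.trans_le (min_le_left _ _)
  have hcη2 : c * η ≤ δ / 8 := hηc.trans_le (min_le_right _ _)
  have hcη0 : 0 ≤ c * η := by positivity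
  set I0 := ∫ x, rp y η x ∂G with hI0
  set gy := G.real (Set.Iic y) with hgy
  have r0 := rp_int G (X := fun x => x) measurable_id (y := y) hη
  have r1 := rp_int G (X := fun x => x) measurable_id (y := y + η) hη
  have r2 := rp_int G (X := fun x => x) measurable_id (y := y - η) hη
  have eI : ∀ a : ℝ, G.real {q : ℝ | q ≤ a} = G.real (Set.Iic a) := fun a => rfl
  simp only [eI] at r0 r1 r2
  have g1 := hG y (y + η) (by linarith)
  have g2 := hG y (y + η + η) (by linarith)
  have g3 := hG (y - η) y (by linarith)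
  have hIg : (gy - I0) ^ 2 ≤ c * η := by
    have a1 : gy ≤ I0 := r0.1
    have a2 : I0 ≤ gy + c * η := r0.2.trans (by
      have : c * (y + η - y) = c * η := by ring
      rw [this] at g1
      exact g1)
    nlinarith
  have hΨc : Continuous fun x : EuclideanSpace ℝ (Fin 1) => rp y η (x.ofLp 0) - I0 :=
    ((rp_cont y η).comp (by fun_prop)).sub continuous_const
  set Ψ : EuclideanSpace ℝ (Fin 1) →ᵇ ℝ := BoundedContinuousFunction.ofNormedAddCommGroup
    (fun x : EuclideanSpace ℝ (Fin 1) => rp y η (x.ofLp 0) - I0) hΨc (1 + |I0|) (fun x => by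
      rw [Real.norm_eq_abs]
      have := rp_abs (y := y) (η := η) (x.ofLp 0)
      exact (abs_sub _ _).trans (by linarith)) with hΨ
  have hΨv : ∀ x, Ψ x = rp y η (x.ofLp 0) - I0 := fun x => rfl
  have hii : ∀ y' : ℝ, Integrable (fun x => rp y' η x) G := fun y' =>
    Integrable.of_bound (rp_cont y' η).aestronglyMeasurable 1 (Eventually.of_forall fun q => rp_abs _)
  refine ⟨Ψ, fun x => 2 * (rp (y + η) η (x.ofLp 0) - rp (y - η) η (x.ofLp 0)) + 2 * (gy - I0) ^ 2,
    4 + 2 * (gy - I0) ^ 2, 0, ?_, ?_, ?_, ?_, ?_⟩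
  · simp only [hΨv]
    rw [int_one h1 h2 (u := fun x => rp y η x - I0) ((rp_cont y η).sub continuous_const),
      integral_sub (hii y) (integrable_const _), integral_const, probReal_univ, one_smul, ← hI0, sub_self]
  · exact ((((rp_cont (y + η) η).comp (by fun_prop)).sub ((rp_cont (y - η) η).comp (by fun_prop))).const_mul
      2).add continuous_const
  · intro x
    rw [pow_zero, mul_one]
    have a1 := rp_abs (y := y + η) (η := η) (x.ofLp 0)
    have a2 := rp_abs (y := y - η) (η := η) (x.ofLp 0)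
    have a3 := abs_sub (rp (y + η) η (x.ofLp 0)) (rp (y - η) η (x.ofLp 0))
    have a4 : |2 * (rp (y + η) η (x.ofLp 0) - rp (y - η) η (x.ofLp 0))| ≤ 4 := by
      rw [abs_mul, abs_of_pos (by norm_num : (0 : ℝ) < 2)]
      linarith
    refine (abs_add_le _ _).trans ?_
    rw [abs_of_nonneg (by positivity : 0 ≤ 2 * (gy - I0) ^ 2)]
    linarith
  · intro x
    rw [hΨv]
    set t := x.ofLp 0 with ht
    have key : ((if t ≤ y then (1 : ℝ) else 0) - rp y η t) ^ 2 ≤ rp (y + η) η t - rp (y - η) η t := by
      split_ifs with hty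
      · rw [rp_one hη hty, rp_one hη (by linarith)]
        have := rp_le (y := y - η) (η := η) t
        linarith
      · push Not at hty
        rw [rp_zero hη (y := y - η) (by linarith), sub_zero]
        rcases le_or_gt t (y + η) with h | h
        · rw [rp_one hη h]
          have a1 := rp_le (y := y) (η := η) t
          have a2 := rp_nonneg (y := y) (η := η) t
          nlinarith
        · rw [rp_zero hη h.le]
          have := rp_nonneg (y := y + η) (η := η) t
          linarith
    have e : (if t ≤ y then (1 : ℝ) else 0) - gy - (rp y η t - I0) =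
        ((if t ≤ y then (1 : ℝ) else 0) - rp y η t) - (gy - I0) := by ring
    rw [e]
    nlinarith [sq_nonneg (((if t ≤ y then (1 : ℝ) else 0) - rp y η t) + (gy - I0))]
  · rw [int_one h1 h2 (u := fun x => 2 * (rp (y + η) η x - rp (y - η) η x) + 2 * (gy - I0) ^ 2)
      ((((rp_cont (y + η) η)).sub (rp_cont (y - η) η)).const_mul 2 |>.add continuous_const)]
    have i3 : Integrable (fun x => 2 * (rp (y + η) η x - rp (y - η) η x)) G :=
      ((hii (y + η)).sub (hii (y - η))).const_mul 2
    rw [← hGd, integral_add i3 (integrable_const _), integral_const_mul,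
      integral_sub (hii (y + η)) (hii (y - η)), integral_const, probReal_univ, one_smul]
    have a1 : ∫ x, rp (y + η) η x ∂G ≤ gy + 2 * (c * η) := by
      have : c * (y + η + η - y) = 2 * (c * η) := by ring
      rw [this] at g2
      exact r1.2.trans g2
    have a2 : gy - c * η ≤ ∫ x, rp (y - η) η x ∂G := by
      have : c * (y - (y - η)) = c * η := by ring
      rw [this] at g3
      linarith [r2.1]
    linarith

/-- the Gaussian distribution function is positive -/
lemma gauss_pos {v : ℝ≥0} (hv : v ≠ 0) (y : ℝ) : 0 < (gaussianReal 0 v).real (Set.Iic y) := by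
  rw [Measure.real, ENNReal.toReal_pos_iff]
  refine ⟨?_, measure_lt_top _ _⟩
  rw [pos_iff_ne_zero]
  intro h
  have h1 := (gaussianReal_absolutelyContinuous' 0 hv) h
  rw [Real.volume_Iic] at h1
  exact absurd h1 (by simp)

end Pool.Agent.Q278.QR
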