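import Pool.Agent.Q278.QR.J

/-!
# Averages over scales: duality, and sets of zeros (helper278)
-/

set_option autoImplicit false

namespace Pool.Agent.Q278.QR

open Finset MeasureTheory Filter Topology ProbabilityTheory
open Pool.Agent.Q278.GF
open Pool.Agent.Q278.MC (CC fc cv cm cv_pos)
open _root_.Q172.ZetaLim (IsLim seen shift)
open scoped ContDiff NNReal

variable {k : ℕ} {f : Fin k → ℝ → ℝ} {d : ℕ → ℝ}

/-- averages over the scales at almost all single zeros -/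
theorem scale_dual (hd : Sq d) (hf : Fam f) {Φ : EuclideanSpace ℝ (Fin k) → ℝ} {c : ℝ}
    (hΦ : Adm f fun x => Φ x - c) {s : ℝ} (hs : 1 < s) {ε : ℝ} (hε : 0 < ε) :
    ∃ J0 : ℕ, 1 ≤ J0 ∧ ∀ J, J0 ≤ J → ∃ N0 : ℕ, ∀ N, N0 ≤ N →
      (∀ w : ℕ → ℝ, (∑ j ∈ range J, ((∑ n ∈ Icc 1 N, w n * (Φ (vec f (s ^ j) (seen d n)) - c)) / N) ^ 2) / J ≤
        ε * ((∑ n ∈ Icc 1 N, w n ^ 2) / N)) ∧
      (∑ n ∈ Icc 1 N, ((∑ j ∈ range J, Φ (vec f (s ^ j) (seen d n))) / J - c) ^ 2) / N ≤ ε := by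
  obtain ⟨J0, hJ0, h⟩ := scale_fin hd hf hΦ hs hε
  refine ⟨J0, hJ0, fun J hJ => ?_⟩
  obtain ⟨N0, hN0⟩ := Filter.eventually_atTop.1 (h J hJ)
  have hJ' : (0 : ℝ) < J := by exact_mod_cast (by omega : 0 < J)
  refine ⟨N0 + 1, fun N hN => ⟨fun w => hN0 N (by omega) w, ?_⟩⟩
  have hNp : (0 : ℝ) < N := by exact_mod_cast (by omega : 0 < N)
  set w : ℕ → ℝ := fun n => (∑ j ∈ range J, Φ (vec f (s ^ j) (seen d n))) / J - c with hw
  set W := (∑ n ∈ Icc 1 N, w n ^ 2) / N with hW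
  have hW0 : 0 ≤ W := by
    have : 0 ≤ ∑ n ∈ Icc 1 N, w n ^ 2 := Finset.sum_nonneg fun n _ => sq_nonneg _
    positivity
  set a : ℕ → ℝ := fun j => (∑ n ∈ Icc 1 N, w n * (Φ (vec f (s ^ j) (seen d n)) - c)) / N with ha
  have h1 : (∑ j ∈ range J, a j ^ 2) / J ≤ ε * W := hN0 N (by omega) w
  have h2 : (∑ j ∈ range J, a j) / J = W := by
    have e : ∑ j ∈ range J, a j = (∑ n ∈ Icc 1 N, w n * (J * w n)) / N := by
      rw [ha]
      simp only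
      rw [← Finset.sum_div, Finset.sum_comm]
      congr 1
      refine Finset.sum_congr rfl fun n _ => ?_
      rw [← Finset.mul_sum, Finset.sum_sub_distrib, Finset.sum_const, card_range, nsmul_eq_mul]
      congr 1
      rw [hw]
      simp only
      field_simp
    have e2 : ∑ n ∈ Icc 1 N, w n * (J * w n) = J * ∑ n ∈ Icc 1 N, w n ^ 2 := by
      rw [Finset.mul_sum]
      refine Finset.sum_congr rfl fun n _ => ?_
      ring
    rw [e, e2, hW]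
    field_simp
  have h3 := sq_avg_range J a
  rw [h2] at h3
  have h4 : W * W ≤ ε * W := by
    rw [← pow_two]
    exact h3.trans h1
  rcases hW0.eq_or_lt with h5 | h5
  · rw [← h5]
    exact hε.le
  · exact le_of_mul_le_mul_right h4 h5

open scoped Classical in
lemma ncard_Icc (N : ℕ) (p : ℕ → Prop) :
    ({n : ℕ | 1 ≤ n ∧ n ≤ N ∧ p n}.ncard : ℝ) = ∑ n ∈ Icc 1 N, if p n then (1 : ℝ) else 0 := by
  have e : {n : ℕ | 1 ≤ n ∧ n ≤ N ∧ p n} = (((Icc 1 N).filter p : Finset ℕ) : Set ℕ) := by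
    ext n
    rw [Finset.mem_coe, Finset.mem_filter, Finset.mem_Icc]
    simp only [Set.mem_ofPred_eq]
    tauto
  rw [e, Set.ncard_coe_finset, Finset.sum_boole]

/-- **sets of zeros at most scales** -/
theorem sets_fin (hd : Sq d) {φ : ℝ → ℝ} (h1 : ContDiff ℝ ∞ φ) (h2 : HasCompactSupport φ) (h0 : φ ≠ 0)
    (y : ℝ) {s : ℝ} (hs : 1 < s) {ε : ℝ} (hε : 0 < ε) :
    ∃ J0 : ℕ, 1 ≤ J0 ∧ ∀ J, J0 ≤ J → ∃ N0 : ℕ, ∀ N, N0 ≤ N → ∀ A : Set ℕ,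
      (∑ j ∈ range J, |({n : ℕ | 1 ≤ n ∧ n ≤ N ∧ n ∈ A ∧ Fn φ (s ^ j) (seen d n) ≤ y}.ncard : ℝ) / N -
        ({n : ℕ | 1 ≤ n ∧ n ≤ N ∧ n ∈ A}.ncard : ℝ) / N *
          (gaussianReal 0 (cv φ φ).toNNReal).real (Set.Iic y)|) / J ≤ ε := by
  classical
  have hfam : Fam (fun _ : Fin 1 => φ) := fun _ => ⟨h1, h2⟩
  obtain ⟨J0, hJ0, h⟩ := scale_fin hd hfam (adm_ind h1 h2 h0 y) hs (ε := ε ^ 2) (by positivity)
  refine ⟨J0, hJ0, fun J hJ => ?_⟩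
  obtain ⟨N0, hN0⟩ := Filter.eventually_atTop.1 (h J hJ)
  have hJ' : (0 : ℝ) < J := by exact_mod_cast (by omega : 0 < J)
  refine ⟨N0 + 1, fun N hN A => ?_⟩
  have hNp : (0 : ℝ) < N := by exact_mod_cast (by omega : 0 < N)
  set g := (gaussianReal 0 (cv φ φ).toNNReal).real (Set.Iic y) with hg
  have k1 := hN0 N (by omega) fun n => if n ∈ A then 1 else 0
  have hvec : ∀ (L : ℝ) (q : ℤ → ℝ), (vec (fun _ : Fin 1 => φ) L q).ofLp 0 = Fn φ L q := fun _ _ => rfl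
  simp only [hvec] at k1
  have e1 : ∀ j : ℕ, (∑ n ∈ Icc 1 N, (if n ∈ A then (1 : ℝ) else 0) *
      ((if Fn φ (s ^ j) (seen d n) ≤ y then (1 : ℝ) else 0) - g)) / N =
      ({n : ℕ | 1 ≤ n ∧ n ≤ N ∧ n ∈ A ∧ Fn φ (s ^ j) (seen d n) ≤ y}.ncard : ℝ) / N -
        ({n : ℕ | 1 ≤ n ∧ n ≤ N ∧ n ∈ A}.ncard : ℝ) / N * g := by
    intro j
    rw [ncard_Icc N fun n => n ∈ A ∧ Fn φ (s ^ j) (seen d n) ≤ y, ncard_Icc N fun n => n ∈ A,
      div_mul_eq_mul_div, ← sub_div, Finset.sum_mul, ← Finset.sum_sub_distrib]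
    congr 1
    refine Finset.sum_congr rfl fun n _ => ?_
    by_cases hA : n ∈ A
    · simp [hA]
    · simp [hA]
  simp only [e1] at k1
  have k2 : (∑ n ∈ Icc 1 N, (if n ∈ A then (1 : ℝ) else 0) ^ 2) / N ≤ 1 := by
    rw [div_le_one hNp]
    refine (Finset.sum_le_sum (g := fun _ => (1 : ℝ)) fun n _ => ?_).trans (le_of_eq ?_)
    · split_ifs <;> norm_num
    · rw [Finset.sum_const, Nat.card_Icc, nsmul_eq_mul, Nat.add_sub_cancel, mul_one]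
  have k3 := sq_avg_range J fun j => |({n : ℕ | 1 ≤ n ∧ n ≤ N ∧ n ∈ A ∧ Fn φ (s ^ j) (seen d n) ≤ y}.ncard : ℝ) / N -
        ({n : ℕ | 1 ≤ n ∧ n ≤ N ∧ n ∈ A}.ncard : ℝ) / N * g|
  simp only [sq_abs] at k3
  have k4 := k3.trans (k1.trans (mul_le_of_le_one_right (by positivity) k2))
  exact (pow_le_pow_iff_left₀ (by
    have : 0 ≤ ∑ j ∈ range J, |({n : ℕ | 1 ≤ n ∧ n ≤ N ∧ n ∈ A ∧ Fn φ (s ^ j) (seen d n) ≤ y}.ncard : ℝ) / N -
        ({n : ℕ | 1 ≤ n ∧ n ≤ N ∧ n ∈ A}.ncard : ℝ) / N * g| := Finset.sum_nonneg fun _ _ => abs_nonneg _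
    positivity) hε.le two_ne_zero).1 k4

/-- **the law of the spacings in a prescribed large-scale environment** -/
theorem equiv_fin (hd : Sq d) {φ : ℝ → ℝ} (h1 : ContDiff ℝ ∞ φ) (h2 : HasCompactSupport φ) (h0 : φ ≠ 0)
    (y : ℝ) {s : ℝ} (hs : 1 < s) (A : Set ℕ) (κ : ℝ) :
    Tendsto (fun N : ℕ => ({n : ℕ | 1 ≤ n ∧ n ≤ N ∧ n ∈ A}.ncard : ℝ) / N) atTop (𝓝 κ) ↔
    ∀ ε : ℝ, 0 < ε → ∃ J0 : ℕ, 1 ≤ J0 ∧ ∀ J, J0 ≤ J → ∃ N0 : ℕ, ∀ N, N0 ≤ N →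
      (∑ j ∈ range J, |({n : ℕ | 1 ≤ n ∧ n ≤ N ∧ n ∈ A ∧ Fn φ (s ^ j) (seen d n) ≤ y}.ncard : ℝ) / N -
        κ * (gaussianReal 0 (cv φ φ).toNNReal).real (Set.Iic y)|) / J ≤ ε := by
  have hv : 0 < cv φ φ := cv_pos (cc_of h1 h2) h0
  have hv' : (cv φ φ).toNNReal ≠ 0 := by
    rw [ne_eq, Real.toNNReal_eq_zero, not_le]
    exact hv
  have hg0 := gauss_pos hv' y
  set g := (gaussianReal 0 (cv φ φ).toNNReal).real (Set.Iic y) with hg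
  have hg1 : g ≤ 1 := measureReal_le_one
  constructor
  · intro ht ε hε
    obtain ⟨J0, hJ0, h⟩ := sets_fin hd h1 h2 h0 y hs (ε := ε / 2) (by positivity)
    refine ⟨J0, hJ0, fun J hJ => ?_⟩
    obtain ⟨N0, hN0⟩ := h J hJ
    obtain ⟨N1, hN1⟩ := (Metric.tendsto_atTop.1 ht) (ε / 2) (by positivity)
    have hJ' : (0 : ℝ) < J := by exact_mod_cast (by omega : 0 < J)
    refine ⟨max N0 N1, fun N hN => ?_⟩
    have k1 := hN0 N ((le_max_left _ _).trans hN) A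
    have k2 := hN1 N ((le_max_right _ _).trans hN)
    rw [Real.dist_eq] at k2
    set p := ({n : ℕ | 1 ≤ n ∧ n ≤ N ∧ n ∈ A}.ncard : ℝ) / N with hp
    rw [div_le_iff₀ hJ'] at k1 ⊢
    have k3 : ∑ j ∈ range J, |({n : ℕ | 1 ≤ n ∧ n ≤ N ∧ n ∈ A ∧ Fn φ (s ^ j) (seen d n) ≤ y}.ncard : ℝ) / N -
        κ * g| ≤ ∑ j ∈ range J, (|({n : ℕ | 1 ≤ n ∧ n ≤ N ∧ n ∈ A ∧ Fn φ (s ^ j) (seen d n) ≤ y}.ncard : ℝ) / N -
        p * g| + ε / 2) := by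
      refine Finset.sum_le_sum fun j _ => ?_
      have e : ({n : ℕ | 1 ≤ n ∧ n ≤ N ∧ n ∈ A ∧ Fn φ (s ^ j) (seen d n) ≤ y}.ncard : ℝ) / N - κ * g =
          (({n : ℕ | 1 ≤ n ∧ n ≤ N ∧ n ∈ A ∧ Fn φ (s ^ j) (seen d n) ≤ y}.ncard : ℝ) / N - p * g) +
          (p - κ) * g := by ring
      rw [e]
      refine (abs_add_le _ _).trans ?_
      have k4 : |(p - κ) * g| ≤ ε / 2 := by
        rw [abs_mul, abs_of_pos hg0]
        calc |p - κ| * g ≤ |p - κ| * 1 := mul_le_mul_of_nonneg_left hg1 (abs_nonneg _)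
          _ ≤ ε / 2 := by linarith
      linarith
    rw [Finset.sum_add_distrib, Finset.sum_const, card_range, nsmul_eq_mul] at k3
    linarith
  · intro h
    rw [Metric.tendsto_atTop]
    intro ε hε
    obtain ⟨J1, hJ1, h3⟩ := sets_fin hd h1 h2 h0 y hs (ε := ε * g / 4) (by positivity)
    obtain ⟨J2, hJ2, h4⟩ := h (ε * g / 4) (by positivity)
    obtain ⟨N1, hN1⟩ := h3 (max J1 J2) (le_max_left _ _)
    obtain ⟨N2, hN2⟩ := h4 (max J1 J2) (le_max_right _ _)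
    set J := max J1 J2 with hJ
    have hJ' : (0 : ℝ) < J := by
      have : 0 < J := lt_of_lt_of_le hJ1 (le_max_left _ _)
      exact_mod_cast this
    refine ⟨max N1 N2, fun N hN => ?_⟩
    have k1 := hN1 N ((le_max_left _ _).trans hN) A
    have k2 := hN2 N ((le_max_right _ _).trans hN)
    rw [Real.dist_eq]
    set p := ({n : ℕ | 1 ≤ n ∧ n ≤ N ∧ n ∈ A}.ncard : ℝ) / N with hp
    rw [div_le_iff₀ hJ'] at k1 k2
    have k3 : ∑ _j ∈ range J, |p - κ| * g ≤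
        ∑ j ∈ range J, (|({n : ℕ | 1 ≤ n ∧ n ≤ N ∧ n ∈ A ∧ Fn φ (s ^ j) (seen d n) ≤ y}.ncard : ℝ) / N - p * g| +
        |({n : ℕ | 1 ≤ n ∧ n ≤ N ∧ n ∈ A ∧ Fn φ (s ^ j) (seen d n) ≤ y}.ncard : ℝ) / N - κ * g|) := by
      refine Finset.sum_le_sum fun j _ => ?_
      have e : |p - κ| * g = |(({n : ℕ | 1 ≤ n ∧ n ≤ N ∧ n ∈ A ∧ Fn φ (s ^ j) (seen d n) ≤ y}.ncard : ℝ) / N - κ * g) -
          (({n : ℕ | 1 ≤ n ∧ n ≤ N ∧ n ∈ A ∧ Fn φ (s ^ j) (seen d n) ≤ y}.ncard : ℝ) / N - p * g)| := by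
        rw [← abs_of_pos hg0, ← abs_mul, abs_of_pos hg0]
        congr 1
        ring
      rw [e]
      refine (abs_sub _ _).trans ?_
      linarith
    rw [Finset.sum_const, card_range, nsmul_eq_mul, Finset.sum_add_distrib] at k3
    have k4 : (J : ℝ) * (|p - κ| * g) ≤ J * (ε * g / 2) := by linarith
    have k5 := le_of_mul_le_mul_left k4 hJ'
    have k6 : |p - κ| * g ≤ (ε / 2) * g := by linarith
    have k7 := le_of_mul_le_mul_right k6 hg0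
    linarith

end Pool.Agent.Q278.QR
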